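import Mathlib

namespace Pool.Agent.PatchGL

open Finset

variable {n : Type*} [Fintype n] [DecidableEq n]

/-- matrix of power series with given coefficient matrices -/
def mkM {A : Type*} [Semiring A] (M : ℕ → Matrix n n A) : Matrix n n (PowerSeries A) :=
  fun i j => PowerSeries.mk fun m => M m i j

/-- coefficient matrix -/
noncomputable def cM {A : Type*} [Semiring A] (m : ℕ) (B : Matrix n n (PowerSeries A)) : Matrix n n A :=
  fun i j => PowerSeries.coeff m (B i j)

omit [Fintype n] [DecidableEq n] in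
theorem coeff_mkM {A : Type*} [Semiring A] (M : ℕ → Matrix n n A) (m : ℕ) (i j : n) :
    PowerSeries.coeff m (mkM M i j) = M m i j := by
  simp [mkM]

omit [DecidableEq n] in
theorem coeff_mul_mkM {A : Type*} [Semiring A] (M N : ℕ → Matrix n n A) (m : ℕ) (i j : n) :
    PowerSeries.coeff m ((mkM M * mkM N) i j) =
      (∑ p ∈ antidiagonal m, M p.1 * N p.2) i j := by
  rw [Matrix.mul_apply, map_sum, Matrix.sum_apply]
  simp_rw [PowerSeries.coeff_mul, coeff_mkM, Matrix.mul_apply]
  rw [Finset.sum_comm]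

/-- Cartan's lemma, additive form. -/
theorem cartan {A : Type*} [CommRing A] (A1 A2 : Subring A)
    (hA : ∀ a : A, ∃ b ∈ A1, ∃ c ∈ A2, a = b + c)
    (B : Matrix n n (PowerSeries A)) (hB : cM 0 B = 1) :
    ∃ B1 B2 : Matrix n n (PowerSeries A), B = B1 * B2 ∧
      (∀ i j m, PowerSeries.coeff m (B1 i j) ∈ A1) ∧
      (∀ i j m, PowerSeries.coeff m (B2 i j) ∈ A2) ∧ cM 0 B1 = 1 ∧ cM 0 B2 = 1 := by
  classical
  choose p hp q hq hpq using hA
  -- recursion
  let step : (m : ℕ) → ((k : ℕ) → k < m → Matrix n n A × Matrix n n A) → Matrix n n A × Matrix n n A :=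
    fun m f =>
      if m = 0 then (1, 1) else
        let D : Matrix n n A := cM m B -
          ∑ x : {x // x ∈ (antidiagonal m).filter (fun x => x.1 ≠ 0 ∧ x.2 ≠ 0)},
            (f x.1.1 (by
              have h := x.2
              simp only [mem_filter, HasAntidiagonal.mem_antidiagonal] at h
              omega)).1 * (f x.1.2 (by
              have h := x.2
              simp only [mem_filter, HasAntidiagonal.mem_antidiagonal] at h
              omega)).2
        (fun i j => p (D i j), fun i j => q (D i j))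
  let S : ℕ → Matrix n n A × Matrix n n A :=
    fun m => Nat.strongRecOn (motive := fun _ => Matrix n n A × Matrix n n A) m step
  have hS : ∀ m, S m = step m (fun k _ => S k) := by
    intro m
    show Nat.strongRecOn (motive := fun _ => Matrix n n A × Matrix n n A) m step = _
    rw [Nat.strongRecOn_eq]
  have hS0 : S 0 = (1, 1) := by
    rw [hS]; simp [step]
  have hS1 : ∀ m, m ≠ 0 → S m = (fun i j => p ((cM m B -
          ∑ x ∈ (antidiagonal m).filter (fun x => x.1 ≠ 0 ∧ x.2 ≠ 0),
            (S x.1).1 * (S x.2).2) i j),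
            fun i j => q ((cM m B -
          ∑ x ∈ (antidiagonal m).filter (fun x => x.1 ≠ 0 ∧ x.2 ≠ 0),
            (S x.1).1 * (S x.2).2) i j)) := by
    intro m hm
    rw [hS]
    simp only [step, if_neg hm]
    rw [← Finset.sum_coe_sort ((antidiagonal m).filter (fun x => x.1 ≠ 0 ∧ x.2 ≠ 0))
      (fun x => (S x.1).1 * (S x.2).2)]
    rfl
  have hSA1 : ∀ m i j, (S m).1 i j ∈ A1 := by
    intro m i j
    by_cases hm : m = 0
    · subst hm
      rw [hS0]
      by_cases hij : i = j
      · subst hij; simp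
      · simp [hij, A1.zero_mem]
    · rw [hS1 m hm]; exact hp _
  have hSA2 : ∀ m i j, (S m).2 i j ∈ A2 := by
    intro m i j
    by_cases hm : m = 0
    · subst hm
      rw [hS0]
      by_cases hij : i = j
      · subst hij; simp
      · simp [hij, A2.zero_mem]
    · rw [hS1 m hm]; exact hq _
  refine ⟨mkM (fun m => (S m).1), mkM (fun m => (S m).2), ?_, ?_, ?_, ?_, ?_⟩
  · ext i j m
    rw [coeff_mul_mkM]
    by_cases hm : m = 0
    · subst hm
      have := congrFun (congrFun hB i) j
      rw [cM] at this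
      rw [this]
      simp [hS0]
    · have key : (∑ x ∈ antidiagonal m, (S x.1).1 * (S x.2).2) =
          (S m).1 + (S m).2 + ∑ x ∈ (antidiagonal m).filter (fun x => x.1 ≠ 0 ∧ x.2 ≠ 0),
            (S x.1).1 * (S x.2).2 := by
        rw [← Finset.sum_filter_add_sum_filter_not (antidiagonal m) (fun x => x.1 ≠ 0 ∧ x.2 ≠ 0), add_comm]
        congr 1
        have : (antidiagonal m).filter (fun x => ¬ (x.1 ≠ 0 ∧ x.2 ≠ 0)) = {(m, 0), (0, m)} := by
          ext ⟨a, b⟩
          simp only [mem_filter, HasAntidiagonal.mem_antidiagonal, mem_insert, mem_singleton, Prod.mk.injEq]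
          omega
        rw [this, Finset.sum_pair (by simp [hm])]
        simp [hS0]
      rw [key]
      have h1 := hS1 m hm
      set E := ∑ x ∈ (antidiagonal m).filter (fun x => x.1 ≠ 0 ∧ x.2 ≠ 0), (S x.1).1 * (S x.2).2
      rw [h1]
      rw [Matrix.add_apply, Matrix.add_apply]
      show _ = p ((cM m B - E) i j) + q ((cM m B - E) i j) + E i j
      rw [← hpq]
      simp [cM]
  · intro i j m; rw [coeff_mkM]; exact hSA1 m i j
  · intro i j m; rw [coeff_mkM]; exact hSA2 m i j
  · ext i j; rw [cM, coeff_mkM]; simp [hS0]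
  · ext i j; rw [cM, coeff_mkM]; simp [hS0]

/-- Laurent series in `t` with all coefficients in the subring `A0` -/
def Rsub {A : Type*} [CommRing A] (A0 : Subring A) : Subring (LaurentSeries A) where
  carrier := {f | ∀ m, f.coeff m ∈ A0}
  mul_mem' := by
    intro a b ha hb m
    rw [HahnSeries.coeff_mul]
    exact Subring.sum_mem _ fun x _ => A0.mul_mem (ha _) (hb _)
  one_mem' := by
    intro m
    rw [HahnSeries.coeff_one]
    split_ifs
    · exact A0.one_mem
    · exact A0.zero_mem
  add_mem' := by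
    intro a b ha hb m
    rw [HahnSeries.coeff_add]
    exact A0.add_mem (ha m) (hb m)
  zero_mem' := by
    intro m
    rw [HahnSeries.coeff_zero]
    exact A0.zero_mem
  neg_mem' := by
    intro a ha m
    rw [HahnSeries.coeff_neg]
    exact A0.neg_mem (ha m)

/-- the subfield of `A((t))` generated by `A0((t))` -/
noncomputable def Fsub {A : Type*} [Field A] (A0 : Subring A) : Subfield (LaurentSeries A) :=
  Subfield.closure (Rsub A0 : Set (LaurentSeries A))

theorem ofPS_mem {A : Type*} [Field A] (A0 : Subring A) (f : PowerSeries A)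
    (hf : ∀ m, PowerSeries.coeff m f ∈ A0) : HahnSeries.ofPowerSeries ℤ A f ∈ Fsub A0 := by
  refine Subfield.subset_closure ?_
  intro m
  rcases lt_or_ge m 0 with h | h
  · have := PowerSeries.coeff_coe f m
    rw [this, if_pos h]
    exact A0.zero_mem
  · have := PowerSeries.coeff_coe f m
    rw [this, if_neg (not_lt.mpr h)]
    exact hf _

theorem single_mem {A : Type*} [Field A] (A0 : Subring A) (m : ℤ) :
    (HahnSeries.single m (1 : A)) ∈ Fsub A0 := by
  refine Subfield.subset_closure ?_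
  intro k
  rw [HahnSeries.coeff_single]
  split_ifs
  · exact A0.one_mem
  · exact A0.zero_mem

theorem C_mem {A : Type*} [Field A] (A0 : Subring A)
    (hfrac : ∀ a : A, ∃ b ∈ A0, ∃ c ∈ A0, c ≠ 0 ∧ a = b / c) (a : A) :
    (HahnSeries.C a : LaurentSeries A) ∈ Fsub A0 := by
  obtain ⟨b, hb, c, hc, hc0, rfl⟩ := hfrac a
  have h : ∀ b ∈ A0, (HahnSeries.C b : LaurentSeries A) ∈ Fsub A0 := by
    intro b hb
    refine Subfield.subset_closure ?_
    intro k
    rw [HahnSeries.C_apply, HahnSeries.coeff_single]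
    split_ifs
    · exact hb
    · exact A0.zero_mem
  rw [map_div₀]
  exact Subfield.div_mem _ (h b hb) (h c hc)

theorem trunc_mem {A : Type*} [Field A] (A0 : Subring A)
    (hfrac : ∀ a : A, ∃ b ∈ A0, ∃ c ∈ A0, c ≠ 0 ∧ a = b / c) (f : Polynomial A) :
    HahnSeries.ofPowerSeries ℤ A (f : PowerSeries A) ∈ Fsub A0 := by
  induction f using Polynomial.induction_on' with
  | add p q hp hq =>
    rw [Polynomial.coe_add, map_add]
    exact Subfield.add_mem _ hp hq
  | monomial m a =>
    rw [← Polynomial.C_mul_X_pow_eq_monomial, Polynomial.coe_mul, Polynomial.coe_C, Polynomial.coe_pow, Polynomial.coe_X,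
      map_mul, map_pow, HahnSeries.ofPowerSeries_C, HahnSeries.ofPowerSeries_X]
    exact Subfield.mul_mem _ (C_mem A0 hfrac a) (Subfield.pow_mem _ (single_mem A0 1) m)

/-- common denominators -/
theorem exists_integral {A : Type*} [Field A] (B : Matrix n n (LaurentSeries A)) :
    ∃ (e : ℕ) (D : Matrix n n (PowerSeries A)),
      (HahnSeries.single (e : ℤ) (1 : A)) • B = D.map (HahnSeries.ofPowerSeries ℤ A) := by
  classical
  have h1 : ∀ f : LaurentSeries A, ∃ e : ℕ, ∀ e' : ℕ, e ≤ e' → ∃ g : PowerSeries A,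
      HahnSeries.single (e' : ℤ) (1 : A) * f = HahnSeries.ofPowerSeries ℤ A g := by
    intro f
    refine ⟨(-f.order).toNat, fun e' he' => ?_⟩
    have h2 : -f.order ≤ e' := by omega
    obtain ⟨d, hd⟩ : ∃ d : ℕ, (e' : ℤ) = -f.order + d := ⟨(e' + f.order).toNat, by omega⟩
    refine ⟨PowerSeries.X ^ d * f.powerSeriesPart, ?_⟩
    rw [map_mul, map_pow, HahnSeries.ofPowerSeries_X, LaurentSeries.ofPowerSeries_powerSeriesPart,
      ← mul_assoc, HahnSeries.single_pow, HahnSeries.single_mul_single]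
    congr 2
    · rw [hd, add_comm]; simp
    · simp
  choose e he using h1
  set E : ℕ := ∑ i, ∑ j, e (B i j) with hE
  have hle : ∀ i j, e (B i j) ≤ E := by
    intro i j
    calc e (B i j) ≤ ∑ j, e (B i j) := Finset.single_le_sum (f := fun j => e (B i j)) (fun _ _ => Nat.zero_le _) (mem_univ j)
      _ ≤ _ := Finset.single_le_sum (f := fun i => ∑ j, e (B i j)) (fun _ _ => Nat.zero_le _) (mem_univ i)
  choose g hg using fun i j => he (B i j) E (hle i j)
  refine ⟨E, Matrix.of g, ?_⟩
  ext1 i j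
  rw [Matrix.smul_apply, Matrix.map_apply, smul_eq_mul]
  exact hg i j

theorem gl_factor {A : Type*} [Field A] (A1 A2 : Subring A)
    (hA : ∀ a : A, ∃ b ∈ A1, ∃ c ∈ A2, a = b + c)
    (hfrac : ∀ a : A, ∃ b ∈ A2, ∃ c ∈ A2, c ≠ 0 ∧ a = b / c)
    (B : Matrix n n (LaurentSeries A)) (hB : IsUnit B.det) :
    ∃ B1 B2 : Matrix n n (LaurentSeries A), IsUnit B1.det ∧ IsUnit B2.det ∧
      (∀ i j, B1 i j ∈ Fsub A1) ∧ (∀ i j, B2 i j ∈ Fsub A2) ∧ B = B1 * B2 := by
  classical
  set φ := HahnSeries.ofPowerSeries ℤ A with hφ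
  obtain ⟨e, D, hD⟩ := exists_integral B
  obtain ⟨e', C, hC⟩ := exists_integral B⁻¹
  -- truncate `C`
  set N := e + e' + 1 with hN
  let C' : Matrix n n (PowerSeries A) := fun i j => ((PowerSeries.trunc N (C i j) : Polynomial A) : PowerSeries A)
  have hdiv : ∀ i j, ∃ g : PowerSeries A, C' i j = C i j + PowerSeries.X ^ N * g := by
    intro i j
    have : PowerSeries.X ^ N ∣ C' i j - C i j := by
      rw [PowerSeries.X_pow_dvd_iff]
      intro m hm
      rw [map_sub, sub_eq_zero]
      simp only [C', Polynomial.coeff_coe, PowerSeries.coeff_trunc, if_pos hm]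
    obtain ⟨g, hg⟩ := this
    exact ⟨g, by rw [← hg]; ring⟩
  choose G hG using hdiv
  have hC' : C' = C + (PowerSeries.X ^ N : PowerSeries A) • (Matrix.of G) := by
    ext1 i j
    rw [Matrix.add_apply, Matrix.smul_apply, smul_eq_mul, hG]
    rfl
  -- the product `B * (t^{-e'} C')`
  have hBB : B * B⁻¹ = 1 := Matrix.mul_nonsing_inv B hB
  have hDC : D * C = (PowerSeries.X ^ (e + e') : PowerSeries A) • (1 : Matrix n n (PowerSeries A)) := by
    have hinj : Function.Injective φ := HahnSeries.ofPowerSeries_injective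
    have : (D * C).map φ = ((PowerSeries.X ^ (e + e') : PowerSeries A) • (1 : Matrix n n (PowerSeries A))).map φ := by
      rw [Matrix.map_mul, ← hD, ← hC, Matrix.smul_mul, Matrix.mul_smul, hBB, smul_smul]
      ext1 i j
      rw [Matrix.smul_apply, Matrix.map_apply, Matrix.smul_apply, smul_eq_mul, smul_eq_mul, map_mul,
        map_pow, hφ, HahnSeries.ofPowerSeries_X, HahnSeries.single_mul_single, HahnSeries.single_pow]
      congr 1
      · simp
      · by_cases hij : i = j
        · subst hij; simp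
        · simp [hij]
    ext1 i j
    have h2 := congrFun (congrFun this i) j
    exact hinj h2
  have hDC' : D * C' = (PowerSeries.X ^ (e + e') : PowerSeries A) •
      (1 + (PowerSeries.X : PowerSeries A) • (D * Matrix.of G)) := by
    rw [hC', Matrix.mul_add, hDC, Matrix.mul_smul, smul_add, smul_smul, hN, pow_succ]
  obtain ⟨B1, B2, hB12, h1, h2, h3, h4⟩ := cartan A1 A2 hA (1 + (PowerSeries.X : PowerSeries A) • (D * Matrix.of G)) (by
    ext i j
    simp [cM, Matrix.add_apply, Matrix.one_apply])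
  have hunit : ∀ M : Matrix n n (PowerSeries A), cM 0 M = 1 → IsUnit (M.map φ).det := by
    intro M hM
    have : (M.map φ).det = φ M.det := by
      rw [← RingHom.mapMatrix_apply, ← RingHom.map_det]
    rw [this]
    refine IsUnit.map _ ?_
    rw [PowerSeries.isUnit_iff_constantCoeff]
    have h5 : PowerSeries.constantCoeff M.det = (M.map (PowerSeries.constantCoeff)).det := by
      rw [← RingHom.mapMatrix_apply, ← RingHom.map_det]
    have h6 : M.map (PowerSeries.constantCoeff (R := A)) = 1 := by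
      rw [← hM]
      ext i j
      simp [cM]
    rw [h5, h6]
    simp
  set A' : Matrix n n (LaurentSeries A) := (HahnSeries.single (-(e' : ℤ)) (1 : A)) • C'.map φ with hA'
  have hBA : B * A' = B1.map φ * B2.map φ := by
    have h7 : (HahnSeries.single (e : ℤ) (1 : A)) • (B * A') = (HahnSeries.single (e : ℤ) (1 : A)) • (B1.map φ * B2.map φ) := by
      rw [← Matrix.smul_mul, hD, hA', Matrix.mul_smul, ← Matrix.map_mul, hDC', ← Matrix.map_mul, ← hB12]
      ext1 i j
      rw [Matrix.smul_apply, Matrix.smul_apply, Matrix.map_apply, Matrix.map_apply, Matrix.smul_apply, smul_eq_mul, smul_eq_mul, smul_eq_mul,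
        map_mul, map_pow, hφ, HahnSeries.ofPowerSeries_X, HahnSeries.single_pow, ← mul_assoc, HahnSeries.single_mul_single]
      congr 2
      · simp
      · simp
    have h8 : (HahnSeries.single (e : ℤ) (1 : A)) ≠ 0 := by
      rw [Ne, HahnSeries.single_eq_zero_iff]; exact one_ne_zero
    exact smul_right_injective _ h8 h7
  have hA'unit : IsUnit A'.det := by
    have : IsUnit (B * A').det := by
      rw [hBA, Matrix.det_mul]
      exact (hunit _ h3).mul (hunit _ h4)
    rw [Matrix.det_mul] at this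
    exact isUnit_of_mul_isUnit_right this
  refine ⟨B1.map φ, B2.map φ * A'⁻¹, hunit _ h3, ?_, ?_, ?_, ?_⟩
  · rw [Matrix.det_mul]
    exact (hunit _ h4).mul (by rw [Matrix.det_nonsing_inv]; exact (isUnit_ringInverse).mpr hA'unit)
  · intro i j
    exact ofPS_mem A1 _ (fun m => h1 i j m)
  · -- entries of the inverse
    let F2 := Fsub A2
    have hA'mem : ∀ i j, A' i j ∈ F2 := by
      intro i j
      rw [hA', Matrix.smul_apply, Matrix.map_apply, smul_eq_mul]
      exact Subfield.mul_mem _ (single_mem A2 _) (trunc_mem A2 hfrac _)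
    let A'' : Matrix n n F2 := fun i j => ⟨A' i j, hA'mem i j⟩
    have hA'' : A''.map F2.subtype = A' := by ext1 i j; rfl
    have hinv : A'⁻¹ = (A''⁻¹).map F2.subtype := by
      rw [← hA'']
      have h9 : IsUnit A''.det := by
        have : F2.subtype A''.det = A'.det := by
          rw [← hA'', ← RingHom.mapMatrix_apply, ← RingHom.map_det]
        rw [isUnit_iff_ne_zero]
        intro h0
        rw [h0, map_zero] at this
        rw [← this] at hA'unit
        exact not_isUnit_zero hA'unit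
      refine Matrix.inv_eq_right_inv ?_
      rw [← Matrix.map_mul, Matrix.mul_nonsing_inv _ h9]
      ext1 i j
      by_cases hij : i = j
      · subst hij; simp
      · simp [hij]
    intro i j
    rw [Matrix.mul_apply]
    refine Subfield.sum_mem _ fun l _ => Subfield.mul_mem _ (ofPS_mem A2 _ (fun m => h2 i l m)) ?_
    rw [hinv]
    exact (A''⁻¹ l j).2
  · rw [← Matrix.mul_assoc, ← hBA, Matrix.mul_assoc, Matrix.mul_nonsing_inv _ hA'unit, Matrix.mul_one]

/-- `B` is invertible over the subring `R` -/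
def InGL {Q : Type*} [CommRing Q] (R : Subring Q) (B : Matrix n n Q) : Prop :=
  (∀ i j, B i j ∈ R) ∧ ∃ C : Matrix n n Q, (∀ i j, C i j ∈ R) ∧ B * C = 1 ∧ C * B = 1

omit [DecidableEq n] in
theorem mul_entries {Q : Type*} [CommRing Q] (R : Subring Q) {B C : Matrix n n Q}
    (hB : ∀ i j, B i j ∈ R) (hC : ∀ i j, C i j ∈ R) : ∀ i j, (B * C) i j ∈ R := by
  intro i j
  rw [Matrix.mul_apply]
  exact Subring.sum_mem _ fun l _ => R.mul_mem (hB i l) (hC l j)

theorem InGL.mul {Q : Type*} [CommRing Q] {R : Subring Q} {B C : Matrix n n Q}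
    (hB : InGL R B) (hC : InGL R C) : InGL R (B * C) := by
  obtain ⟨h1, B', h2, h3, h4⟩ := hB
  obtain ⟨k1, C', k2, k3, k4⟩ := hC
  refine ⟨mul_entries R h1 k1, C' * B', mul_entries R k2 h2, ?_, ?_⟩
  · rw [Matrix.mul_assoc, ← Matrix.mul_assoc C, k3, Matrix.one_mul, h3]
  · rw [Matrix.mul_assoc, ← Matrix.mul_assoc B', h4, Matrix.one_mul, k4]

theorem det_mem {Q : Type*} [CommRing Q] (R : Subring Q) {B : Matrix n n Q}
    (hB : ∀ i j, B i j ∈ R) : B.det ∈ R := by
  let B' : Matrix n n R := fun i j => ⟨B i j, hB i j⟩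
  have : B = B'.map R.subtype := by ext1 i j; rfl
  rw [this, ← RingHom.mapMatrix_apply, ← RingHom.map_det]
  exact B'.det.2

theorem adj_mem {Q : Type*} [CommRing Q] (R : Subring Q) {B : Matrix n n Q}
    (hB : ∀ i j, B i j ∈ R) : ∀ i j, B.adjugate i j ∈ R := by
  let B' : Matrix n n R := fun i j => ⟨B i j, hB i j⟩
  have : B = B'.map R.subtype := by ext1 i j; rfl
  have h2 : B.adjugate = (B'.adjugate).map R.subtype := by
    rw [this, ← RingHom.mapMatrix_apply, ← RingHom.map_adjugate, RingHom.mapMatrix_apply]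
  intro i j
  rw [h2]
  exact (B'.adjugate i j).2

theorem InGL_of_det {Q : Type*} [Field Q] {R : Subring Q} {B : Matrix n n Q}
    (hB : ∀ i j, B i j ∈ R) (h0 : B.det ≠ 0) (hd : B.det⁻¹ ∈ R) : InGL R B := by
  refine ⟨hB, B.det⁻¹ • B.adjugate, ?_, ?_, ?_⟩
  · intro i j
    rw [Matrix.smul_apply, smul_eq_mul]
    exact R.mul_mem hd (adj_mem R hB i j)
  · rw [Matrix.mul_smul, Matrix.mul_adjugate, smul_smul, inv_mul_cancel₀ h0, one_smul]
  · rw [Matrix.smul_mul, Matrix.adjugate_mul, smul_smul, inv_mul_cancel₀ h0, one_smul]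

/-- the lattice step -/
theorem lattice_step {Q : Type*} [Field Q] (R1 R2 : Subring Q)
    (hadd : ∀ q : Q, ∃ a ∈ R1, ∃ b ∈ R2, q = a + b)
    (hmul : ∀ q : Q, q ≠ 0 → ∃ u ∈ R1, ∃ v ∈ R2, u⁻¹ ∈ R1 ∧ v⁻¹ ∈ R2 ∧ u ≠ 0 ∧ v ≠ 0 ∧ q = u * v)
    [IsPrincipalIdealRing ↥(R1 ⊓ R2)]
    (M : Matrix n n Q) (hM : M.det ≠ 0) (hF : ∀ i j, ∃ b ∈ R2, ∃ c ∈ R2, c ≠ 0 ∧ M i j = b / c) :
    ∃ T V : Matrix n n Q, InGL R1 T ∧ InGL R2 V ∧ M = T * V := by
  classical
  -- common denominator
  obtain ⟨c, hc, hc0, hcM⟩ : ∃ c ∈ R2, c ≠ 0 ∧ ∀ i j, c * M i j ∈ R2 := by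
    choose b hb c hc hc0 hbc using hF
    refine ⟨∏ i, ∏ j, c i j, Subring.prod_mem _ fun i _ => Subring.prod_mem _ fun j _ => hc i j,
      Finset.prod_ne_zero_iff.mpr fun i _ => Finset.prod_ne_zero_iff.mpr fun j _ => hc0 i j, ?_⟩
    intro i j
    have h1 : (∏ i, ∏ j, c i j) = (∏ i' ∈ univ.erase i, ∏ j, c i' j) * ((∏ j' ∈ univ.erase j, c i j') * c i j) := by
      rw [Finset.prod_erase_mul _ _ (mem_univ j), Finset.prod_erase_mul univ (fun i => ∏ j, c i j) (mem_univ i)]
    rw [h1, hbc i j, mul_assoc, mul_assoc, mul_div_cancel₀ _ (hc0 i j)]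
    refine R2.mul_mem (Subring.prod_mem _ fun i _ => Subring.prod_mem _ fun j _ => hc i j)
      (R2.mul_mem (Subring.prod_mem _ fun j _ => hc i j) (hb i j))
  obtain ⟨u, hu, v, hv, hu1, hv1, hu0, hv0, huv⟩ := hmul c hc0
  have huR2 : u ∈ R2 := by
    have : u = c * v⁻¹ := by rw [huv]; field_simp
    rw [this]; exact R2.mul_mem hc hv1
  set M' : Matrix n n Q := u • M with hM'
  have hM'2 : ∀ i j, M' i j ∈ R2 := by
    intro i j
    have : M' i j = v⁻¹ * (c * M i j) := by
      rw [hM', Matrix.smul_apply, smul_eq_mul, huv]; field_simp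
    rw [this]; exact R2.mul_mem hv1 (hcM i j)
  have hM'0 : M'.det ≠ 0 := by
    rw [hM', Matrix.det_smul]
    exact mul_ne_zero (pow_ne_zero _ hu0) hM
  obtain ⟨δ, hδ, v', hv', hδ1, hv'1, hδ0, hv'0, hδv⟩ := hmul _ hM'0
  have hδ2 : δ ∈ R2 := by
    have : δ = M'.det * v'⁻¹ := by rw [hδv]; field_simp
    rw [this]; exact R2.mul_mem (det_mem R2 hM'2) hv'1
  -- `δ = M' * W`
  obtain ⟨W, hW2, hW⟩ : ∃ W : Matrix n n Q, (∀ i j, W i j ∈ R2) ∧ M' * W = δ • 1 := by
    refine ⟨v'⁻¹ • M'.adjugate, ?_, ?_⟩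
    · intro i j
      rw [Matrix.smul_apply, smul_eq_mul]
      exact R2.mul_mem hv'1 (adj_mem R2 hM'2 i j)
    · rw [Matrix.mul_smul, Matrix.mul_adjugate, smul_smul, hδv]
      congr 1; field_simp
  -- the lattice
  set R0 := R1 ⊓ R2 with hR0
  let ι : R0 →+* Q := R0.subtype
  let N0 : Submodule R0 (n → R0) :=
    { carrier := {w | ∃ y : n → Q, (∀ i, y i ∈ R2) ∧ M'.mulVec y = fun i => ι (w i)}
      add_mem' := by
        rintro a b ⟨y, hy, hy'⟩ ⟨z, hz, hz'⟩
        refine ⟨y + z, fun i => R2.add_mem (hy i) (hz i), ?_⟩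
        rw [Matrix.mulVec_add, hy', hz']
        rfl
      zero_mem' := ⟨0, fun i => R2.zero_mem, by rw [Matrix.mulVec_zero]; rfl⟩
      smul_mem' := by
        rintro r a ⟨y, hy, hy'⟩
        refine ⟨(ι r) • y, fun i => R2.mul_mem r.2.2 (hy i), ?_⟩
        rw [Matrix.mulVec_smul, hy']
        rfl }
  have hmemN : ∀ w : n → R0, w ∈ N0 ↔ ∃ y : n → Q, (∀ i, y i ∈ R2) ∧ M'.mulVec y = fun i => ι (w i) := fun w => Iff.rfl
  let δ0 : R0 := ⟨δ, hδ, hδ2⟩
  have hδ00 : δ0 ≠ 0 := fun h => hδ0 (congrArg Subtype.val h)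
  have hδN : ∀ y : n → Q, (∀ i, y i ∈ R2) → ∃ z : n → Q, (∀ i, z i ∈ R2) ∧ M'.mulVec z = δ • y := by
    intro y hy
    refine ⟨W.mulVec y, ?_, ?_⟩
    · intro i
      rw [Matrix.mulVec, dotProduct]
      exact Subring.sum_mem _ fun l _ => R2.mul_mem (hW2 i l) (hy l)
    · rw [Matrix.mulVec_mulVec, hW, Matrix.smul_mulVec, Matrix.one_mulVec]
  have hδN' : ∀ w : n → R0, δ0 • w ∈ N0 := by
    intro w
    obtain ⟨z, hz, hz'⟩ := hδN (fun i => ι (w i)) (fun i => (w i).2.2)
    exact ⟨z, hz, by rw [hz']; rfl⟩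
  have hrank : Module.finrank R0 N0 = Fintype.card n := by
    apply le_antisymm
    · have := Submodule.finrank_le N0
      rwa [Module.finrank_fintype_fun_eq_card] at this
    · let f : (n → R0) →ₗ[R0] N0 :=
        { toFun := fun w => ⟨δ0 • w, hδN' w⟩
          map_add' := by intro a b; ext1; simp
          map_smul' := by
            intro r a
            apply Subtype.ext
            show δ0 • r • a = r • δ0 • a
            exact smul_comm δ0 r a }
      have hf : Function.Injective f := by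
        intro a b hab
        have : δ0 • a = δ0 • b := congrArg Subtype.val hab
        exact smul_right_injective _ hδ00 this
      have := LinearMap.finrank_le_finrank_of_injective hf
      rwa [Module.finrank_fintype_fun_eq_card] at this
  let bas : Module.Basis n R0 N0 := (Module.finBasisOfFinrankEq R0 N0 hrank).reindex (Fintype.equivFin n).symm
  -- the matrix `T`
  let T0 : Matrix n n R0 := fun i j => (bas j : n → R0) i
  have hT0 : ∀ w ∈ N0, ∃ a : n → R0, T0.mulVec a = w := by
    intro w hw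
    refine ⟨fun j => bas.repr ⟨w, hw⟩ j, ?_⟩
    have h1 := bas.sum_repr ⟨w, hw⟩
    have h2 := congrArg Subtype.val h1
    simp only [Submodule.coe_sum, Submodule.coe_smul] at h2
    ext1 i
    have h3 := congrFun h2 i
    rw [← h3, Matrix.mulVec, dotProduct, Finset.sum_apply]
    refine Finset.sum_congr rfl fun j _ => ?_
    rw [Pi.smul_apply, smul_eq_mul, mul_comm]
  choose S hS using fun j : n => hT0 (δ0 • Pi.single j 1) (hδN' _)
  let S0 : Matrix n n R0 := fun i j => S j i
  have hTS : T0 * S0 = δ0 • 1 := by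
    ext1 i j
    have := congrFun (hS j) i
    rw [Matrix.mul_apply]
    rw [Matrix.mulVec, dotProduct] at this
    rw [this, Matrix.smul_apply, Pi.smul_apply, Matrix.one_apply, Pi.single_apply]
  set T := T0.map ι with hT
  set S' := S0.map ι with hS'
  have hTS' : T * S' = δ • 1 := by
    rw [hT, hS', ← Matrix.map_mul, hTS]
    ext1 i j
    by_cases hij : i = j
    · subst hij; simp [δ0, ι]
    · simp [hij, ι]
  have hT0' : T.det ≠ 0 := by
    intro h
    have := congrArg Matrix.det hTS'
    rw [Matrix.det_mul, h, zero_mul, Matrix.det_smul, Matrix.det_one, mul_one] at this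
    exact pow_ne_zero _ hδ0 this.symm
  have hTGL : InGL R1 T := by
    have h1 : ∀ i j, T i j ∈ R1 := fun i j => (T0 i j).2.1
    refine InGL_of_det h1 hT0' ?_
    have := congrArg Matrix.det hTS'
    rw [Matrix.det_mul, Matrix.det_smul, Matrix.det_one, mul_one] at this
    have h2 : T.det⁻¹ = S'.det * (δ⁻¹) ^ (Fintype.card n) := by
      have h3 : δ ^ Fintype.card n ≠ 0 := pow_ne_zero _ hδ0
      rw [inv_pow]
      field_simp
      rw [← this, mul_comm]
    rw [h2]
    exact R1.mul_mem (det_mem R1 fun i j => (S0 i j).2.1) (R1.pow_mem hδ1 _)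
  -- `V`
  have hTunit : IsUnit T.det := isUnit_iff_ne_zero.mpr hT0'
  have hM'unit : IsUnit M'.det := isUnit_iff_ne_zero.mpr hM'0
  have hV : ∀ j, ∃ y : n → Q, (∀ i, y i ∈ R2) ∧ T.mulVec y = fun i => M' i j := by
    intro j
    choose a ha b hb hab using fun i => hadd (M' i j * δ⁻¹)
    have hda : ∀ i, δ * a i = M' i j - δ * b i := by
      intro i
      have : M' i j = δ * (M' i j * δ⁻¹) := by field_simp
      rw [this, hab i]; ring
    let w : n → R0 := fun i => ⟨δ * a i, R1.mul_mem hδ (ha i), by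
      rw [hda i]; exact R2.sub_mem (hM'2 i j) (R2.mul_mem hδ2 (hb i))⟩
    have hw : w ∈ N0 := by
      obtain ⟨z, hz, hz'⟩ := hδN b hb
      refine ⟨Pi.single j 1 - z, ?_, ?_⟩
      · intro i
        refine R2.sub_mem ?_ (hz i)
        rw [Pi.single_apply]
        split_ifs
        · exact R2.one_mem
        · exact R2.zero_mem
      · rw [Matrix.mulVec_sub, hz', Matrix.mulVec_single_one]
        ext1 i
        show M' i j - δ * b i = δ * a i
        rw [hda i]
    obtain ⟨a', ha'⟩ := hT0 w hw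
    refine ⟨(fun i => ι (a' i)) + S'.mulVec b, ?_, ?_⟩
    · intro i
      refine R2.add_mem (a' i).2.2 ?_
      rw [Matrix.mulVec, dotProduct]
      exact Subring.sum_mem _ fun l _ => R2.mul_mem (S0 i l).2.2 (hb l)
    · rw [Matrix.mulVec_add, Matrix.mulVec_mulVec, hTS', Matrix.smul_mulVec, Matrix.one_mulVec]
      have h5 : T.mulVec (fun i => ι (a' i)) = fun i => ι (w i) := by
        rw [← ha']
        ext1 i
        simp only [Matrix.mulVec, dotProduct, hT, Matrix.map_apply, map_sum, map_mul]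
      rw [h5]
      ext1 i
      show δ * a i + δ * b i = M' i j
      rw [hda i]; ring
  choose V hV2 hV' using hV
  let V0 : Matrix n n Q := fun i j => V j i
  have hTV : T * V0 = M' := by
    ext1 i j
    have := congrFun (hV' j) i
    rw [Matrix.mul_apply]
    rw [Matrix.mulVec, dotProduct] at this
    exact this
  -- inverse of `V0`
  have hY : ∀ j, ∃ y : n → Q, (∀ i, y i ∈ R2) ∧ M'.mulVec y = fun i => T i j := by
    intro j
    exact (hmemN _).mp (bas j).2
  choose Y hY2 hY' using hY
  let Y0 : Matrix n n Q := fun i j => Y j i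
  have hMY : M' * Y0 = T := by
    ext1 i j
    have := congrFun (hY' j) i
    rw [Matrix.mul_apply]
    rw [Matrix.mulVec, dotProduct] at this
    exact this
  have hVY : V0 * Y0 = 1 := by
    have h6 : T * (V0 * Y0) = T * 1 := by
      rw [← Matrix.mul_assoc, hTV, hMY, Matrix.mul_one]
    have := congrArg (fun X => T⁻¹ * X) h6
    simpa only [← Matrix.mul_assoc, Matrix.nonsing_inv_mul _ hTunit, Matrix.one_mul] using this
  refine ⟨u⁻¹ • T, V0, ?_, ⟨fun i j => hV2 j i, Y0, fun i j => hY2 j i, hVY, ?_⟩, ?_⟩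
  · obtain ⟨h7, T', h8, h9, h10⟩ := hTGL
    refine ⟨fun i j => R1.mul_mem hu1 (h7 i j), u • T', fun i j => R1.mul_mem hu (h8 i j), ?_, ?_⟩
    · rw [Matrix.smul_mul, Matrix.mul_smul, smul_smul, inv_mul_cancel₀ hu0, one_smul, h9]
    · rw [Matrix.smul_mul, Matrix.mul_smul, smul_smul, mul_inv_cancel₀ hu0, one_smul, h10]
  · exact mul_eq_one_comm.mp hVY
  · rw [Matrix.smul_mul, hTV, hM', smul_smul, inv_mul_cancel₀ hu0, one_smul]

/-- functions on the disc `|x| ≤ 1`, `x = 1/s`: `k[x]((t))` inside `k((s))((t))` -/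
def R1 (k : Type*) [Field k] : Subring (LaurentSeries (LaurentSeries k)) where
  carrier := {f | ∀ m j, 0 < j → (f.coeff m).coeff j = 0}
  mul_mem' := by
    intro a b ha hb m j hj
    rw [HahnSeries.coeff_mul, HahnSeries.coeff_sum]
    refine Finset.sum_eq_zero fun x _ => ?_
    rw [HahnSeries.coeff_mul]
    refine Finset.sum_eq_zero fun y hy => ?_
    have hy' := (Finset.mem_antidiagonal.mp hy).2.2
    rcases lt_or_ge 0 y.1 with h | h
    · rw [ha _ _ h, zero_mul]
    · rw [hb _ _ (by omega), mul_zero]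
  one_mem' := by
    intro m j hj
    rw [HahnSeries.coeff_one]
    split_ifs
    · rw [HahnSeries.coeff_one, if_neg (ne_of_gt hj)]
    · exact HahnSeries.coeff_zero
  add_mem' := by
    intro a b ha hb m j hj
    rw [HahnSeries.coeff_add, HahnSeries.coeff_add, ha m j hj, hb m j hj, add_zero]
  zero_mem' := by
    intro m j _
    rw [HahnSeries.coeff_zero, HahnSeries.coeff_zero]
  neg_mem' := by
    intro a ha m j hj
    rw [HahnSeries.coeff_neg, HahnSeries.coeff_neg, ha m j hj, neg_zero]

/-- bounded meromorphic functions on the disc around infinity `|s| < 1` with pole at `s = 0`: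
`k[[s]]((t))[1/s]` -/
def R2 (k : Type*) [Field k] : Subring (LaurentSeries (LaurentSeries k)) where
  carrier := {f | ∃ N : ℤ, ∀ m j, j < N → (f.coeff m).coeff j = 0}
  mul_mem' := by
    rintro a b ⟨N, ha⟩ ⟨N', hb⟩
    refine ⟨N + N', ?_⟩
    intro m j hj
    rw [HahnSeries.coeff_mul, HahnSeries.coeff_sum]
    refine Finset.sum_eq_zero fun x _ => ?_
    rw [HahnSeries.coeff_mul]
    refine Finset.sum_eq_zero fun y hy => ?_
    have hy' := (Finset.mem_antidiagonal.mp hy).2.2
    rcases lt_or_ge y.1 N with h | h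
    · rw [ha _ _ h, zero_mul]
    · rw [hb _ _ (by omega), mul_zero]
  one_mem' := by
    refine ⟨0, ?_⟩
    intro m j hj
    rw [HahnSeries.coeff_one]
    split_ifs
    · rw [HahnSeries.coeff_one, if_neg (ne_of_lt hj)]
    · exact HahnSeries.coeff_zero
  add_mem' := by
    rintro a b ⟨N, ha⟩ ⟨N', hb⟩
    refine ⟨min N N', ?_⟩
    intro m j hj
    rw [HahnSeries.coeff_add, HahnSeries.coeff_add, ha m j (lt_of_lt_of_le hj (min_le_left _ _)),
      hb m j (lt_of_lt_of_le hj (min_le_right _ _)), add_zero]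
  zero_mem' := by
    refine ⟨0, ?_⟩
    intro m j _
    rw [HahnSeries.coeff_zero, HahnSeries.coeff_zero]
  neg_mem' := by
    rintro a ⟨N, ha⟩
    refine ⟨N, ?_⟩
    intro m j hj
    rw [HahnSeries.coeff_neg, HahnSeries.coeff_neg, ha m j hj, neg_zero]

/-- change of coefficients for Laurent series -/
noncomputable def mapHom {A B : Type*} [CommRing A] [CommRing B] (f : A →+* B) :
    LaurentSeries A →+* LaurentSeries B where
  toFun x := x.map f
  map_one' := by
    ext m
    simp only [HahnSeries.map_coeff, HahnSeries.coeff_one]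
    split_ifs <;> simp
  map_zero' := by ext m; simp
  map_add' x y := by ext m; simp
  map_mul' x y := by
    ext m
    have h1 : (x.map f).support ⊆ x.support := Function.support_comp_subset (map_zero f) _
    have h2 : (y.map f).support ⊆ y.support := Function.support_comp_subset (map_zero f) _
    rw [HahnSeries.map_coeff, HahnSeries.coeff_mul, map_sum,
      HahnSeries.coeff_mul_left' x.isPWO_support h1]
    symm
    apply Finset.sum_subset_zero_on_sdiff
    · intro z hz
      rw [Finset.mem_antidiagonal] at hz ⊢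
      exact ⟨hz.1, h2 hz.2.1, hz.2.2⟩
    · intro z hz
      rw [Finset.mem_sdiff, Finset.mem_antidiagonal, Finset.mem_antidiagonal] at hz
      have : (y.map f).coeff z.2 = 0 := by
        by_contra h
        exact hz.2 ⟨hz.1.1, h, hz.1.2.2⟩
      rw [map_mul]
      rw [HahnSeries.map_coeff] at this
      rw [this, mul_zero]
    · intro z _
      rw [map_mul, HahnSeries.map_coeff, HahnSeries.map_coeff]

theorem mapHom_coeff {A B : Type*} [CommRing A] [CommRing B] (f : A →+* B) (x : LaurentSeries A) (m : ℤ) :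
    (mapHom f x).coeff m = f (x.coeff m) := rfl


/-- `Ψ : K[X] → Q`, `X ↦ x = 1/s`, `K = k((t))` -/
noncomputable def Psi (k : Type*) [Field k] :
    Polynomial (LaurentSeries k) →+* LaurentSeries (LaurentSeries k) :=
  Polynomial.eval₂RingHom (mapHom (HahnSeries.C : k →+* LaurentSeries k))
    (HahnSeries.C (HahnSeries.single (-1) 1))

theorem Psi_coeff {k : Type*} [Field k] (p : Polynomial (LaurentSeries k)) (m j : ℤ) :
    ((Psi k p).coeff m).coeff j = if j ≤ 0 then (p.coeff (-j).toNat).coeff m else 0 := by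
  induction p using Polynomial.induction_on' with
  | add p q hp hq =>
    rw [map_add, HahnSeries.coeff_add, HahnSeries.coeff_add, hp, hq, Polynomial.coeff_add, HahnSeries.coeff_add]
    split_ifs <;> simp
  | monomial i a =>
    have h1 : Psi k (Polynomial.monomial i a) = mapHom HahnSeries.C a * HahnSeries.C (HahnSeries.single (-(i : ℤ)) (1 : k)) := by
      rw [Psi, Polynomial.coe_eval₂RingHom, Polynomial.eval₂_monomial, ← map_pow, HahnSeries.single_pow]
      simp
    rw [h1, mul_comm, HahnSeries.C_apply, HahnSeries.coeff_single_mul, sub_zero, mapHom_coeff, HahnSeries.C_apply,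
      HahnSeries.single_mul_single, Polynomial.coeff_monomial]
    simp only [HahnSeries.coeff_single]
    by_cases h : j = -(i : ℤ)
    · subst h; simp
    · have h2 : ¬ (j = -(i : ℤ) + 0) := by simpa using h
      rw [if_neg h2]
      split_ifs with h3 h4
      · omega
      · simp
      · rfl

theorem Psi_mem {k : Type*} [Field k] (p : Polynomial (LaurentSeries k)) : Psi k p ∈ R1 k ⊓ R2 k := by
  constructor
  · intro m j hj
    rw [Psi_coeff, if_neg (not_le.mpr hj)]
  · refine ⟨-(p.natDegree : ℤ), fun m j hj => ?_⟩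
    rw [Psi_coeff, if_pos (by omega), Polynomial.coeff_eq_zero_of_natDegree_lt (by omega), HahnSeries.coeff_zero]

theorem Psi_injective (k : Type*) [Field k] : Function.Injective (Psi k) := by
  rw [injective_iff_map_eq_zero]
  intro p hp
  ext i m
  have := Psi_coeff p m (-(i : ℤ))
  rw [hp, if_pos (by omega)] at this
  simpa using this.symm

theorem Psi_surj {k : Type*} [Field k] (f : LaurentSeries (LaurentSeries k)) (hf : f ∈ R1 k ⊓ R2 k) :
    ∃ p, Psi k p = f := by
  obtain ⟨h1, N, h2⟩ := hf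
  let a : ℕ → LaurentSeries k := fun i => f.map (⟨fun z : LaurentSeries k => z.coeff (-(i : ℤ)), HahnSeries.coeff_zero⟩ : ZeroHom (LaurentSeries k) k)
  have ha : ∀ i m, (a i).coeff m = (f.coeff m).coeff (-(i : ℤ)) := fun i m => rfl
  let p : Polynomial (LaurentSeries k) := ∑ i ∈ Finset.range ((-N).toNat + 1), Polynomial.monomial i (a i)
  refine ⟨p, ?_⟩
  ext m j
  rw [Psi_coeff]
  have hp : ∀ i, p.coeff i = if i < (-N).toNat + 1 then a i else 0 := by
    intro i
    simp only [p, Polynomial.finsetSum_coeff, Polynomial.coeff_monomial]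
    rw [Finset.sum_ite_eq' (Finset.range ((-N).toNat + 1)) i a]
    simp
  split_ifs with hj
  · rw [hp]
    split_ifs with h3
    · rw [ha]
      congr 1
      omega
    · rw [h2 m j (by omega), HahnSeries.coeff_zero]
  · rw [h1 m j (not_le.mp hj)]

instance R0_pid (k : Type*) [Field k] : IsPrincipalIdealRing ↥(R1 k ⊓ R2 k) := by
  let f : Polynomial (LaurentSeries k) →+* ↥(R1 k ⊓ R2 k) := (Psi k).codRestrict _ Psi_mem
  refine IsPrincipalIdealRing.of_surjective f ?_
  rintro ⟨y, hy⟩
  obtain ⟨p, hp⟩ := Psi_surj y hy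
  exact ⟨p, Subtype.ext hp⟩


end Pool.Agent.PatchGL
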