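import Pool.Agent.QPG.Defs

namespace Pool.Agent.PatchGL

open Finset IsDedekindDomain Pool.QPC

/-- an element of a Dedekind domain all of whose valuations are divisible by `m` has a certificate -/
theorem cert_of_val {D : Type*} [CommRing D] [IsDedekindDomain D] {m : ℕ} (hm : 1 ≤ m) {F : D} (hF : F ≠ 0)
    (h : ∀ w : HeightOneSpectrum D, ∃ c, w.intValuation F = w.intValuation c ^ m) : Cert m F := by
  classical
  set I : Ideal D := Ideal.span {F} with hI
  have hI0 : I ≠ 0 := by rw [hI, Ne, Ideal.zero_eq_bot, Ideal.span_singleton_eq_bot]; exact hF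
  -- `I = J ^ m`
  obtain ⟨J, hJ⟩ : ∃ J : Ideal D, I = J ^ m := by
    have h1 : ∀ q : Associates (Ideal D), Irreducible q → m ∣ q.count (Associates.mk I).factors := by
      intro q hq
      obtain ⟨Q, rfl⟩ := Associates.mk_surjective q
      have hQ : Irreducible Q := (Associates.irreducible_mk).mp hq
      have hQp : Q.IsPrime := Ideal.isPrime_of_prime hQ.prime
      have hQ0 : Q ≠ ⊥ := hQ.ne_zero
      let w : HeightOneSpectrum D := ⟨Q, hQp, hQ0⟩
      obtain ⟨c, hc⟩ := h w
      have hc0 : c ≠ 0 := by
        intro h0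
        rw [h0, map_zero, zero_pow (by omega)] at hc
        exact w.intValuation_ne_zero F hF hc
      rw [w.intValuation_if_neg hF, w.intValuation_if_neg hc0, ← WithZero.exp_nsmul] at hc
      have h2 := WithZero.exp_injective hc
      refine ⟨(Associates.mk Q).count (Associates.mk (Ideal.span {c})).factors, ?_⟩
      have h3 : (((Associates.mk Q).count (Associates.mk I).factors : ℕ) : ℤ) =
          m * (((Associates.mk Q).count (Associates.mk (Ideal.span {c})).factors : ℕ) : ℤ) := by
        have h4 : -(((Associates.mk Q).count (Associates.mk I).factors : ℕ) : ℤ) =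
          m • (-(((Associates.mk Q).count (Associates.mk (Ideal.span {c})).factors : ℕ) : ℤ)) := h2
        rw [nsmul_eq_mul] at h4
        linarith
      exact_mod_cast h3
    obtain ⟨b, hb⟩ := Associates.is_pow_of_dvd_count (by rw [Ne, Associates.mk_eq_zero]; exact hI0) h1
    obtain ⟨J, rfl⟩ := Associates.mk_surjective b
    refine ⟨J, ?_⟩
    rw [← Associates.mk_pow, Associates.mk_eq_mk_iff_associated, associated_iff_eq] at hb
    exact hb
  -- the ideal generated by all `u` with `a ^ m = F u`
  let U : Set D := {u | ∃ a, a ^ m = F * u}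
  have hU : Ideal.span U = ⊤ := by
    by_contra hne
    obtain ⟨M, hM, hUM⟩ := Ideal.exists_le_maximal _ hne
    have hM0 : M ≠ ⊥ := by
      rintro rfl
      have h1 : F ^ (m - 1) ∈ (⊥ : Ideal D) := hUM (Ideal.subset_span ⟨F, by
        rw [← pow_succ', Nat.sub_add_cancel hm]⟩)
      rw [Ideal.mem_bot] at h1
      exact pow_ne_zero _ hF h1
    have hJ0 : J ≠ 0 := by
      intro h0
      rw [h0, zero_pow (by omega)] at hJ
      exact hI0 hJ
    -- an element of `J` not in `J M`
    obtain ⟨a, haJ, haM⟩ : ∃ a ∈ J, a ∉ J * M := by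
      by_contra hcon
      push Not at hcon
      have h1 : J ≤ J * M := hcon
      have h2 : J * M = J * (⊤ : Ideal D) := by
        rw [Ideal.mul_top]
        exact le_antisymm Ideal.mul_le_left h1
      exact hM.ne_top (mul_left_cancel₀ hJ0 h2)
    obtain ⟨B, hB⟩ : J ∣ Ideal.span {a} := Ideal.dvd_span_singleton.mpr haJ
    have ham : a ^ m ∈ I := by
      rw [hJ]; exact Ideal.pow_mem_pow haJ m
    rw [hI, Ideal.mem_span_singleton] at ham
    obtain ⟨u, hu⟩ := ham
    have huM : u ∈ M := hUM (Ideal.subset_span ⟨a, hu⟩)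
    have h3 : Ideal.span {u} = B ^ m := by
      have h4 : I * Ideal.span {u} = I * B ^ m := by
        rw [hI, Ideal.span_singleton_mul_span_singleton, ← hu, ← Ideal.span_singleton_pow, hB, mul_pow, ← hJ, hI]
      exact mul_left_cancel₀ hI0 h4
    have h5 : B ^ m ≤ M := by rw [← h3, Ideal.span_singleton_le_iff_mem]; exact huM
    have h6 : B ≤ M := hM.isPrime.le_of_pow_le h5
    apply haM
    have h7 : a ∈ Ideal.span {a} := Ideal.mem_span_singleton_self a
    rw [hB] at h7
    exact Ideal.mul_mono_right h6 h7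
  -- a finite combination
  have h1 : (1 : D) ∈ Ideal.span U := by rw [hU]; trivial
  rw [Ideal.span, Submodule.mem_span_set'] at h1
  obtain ⟨N, al, u, hu⟩ := h1
  choose a ha using fun j => (u j).2
  exact ⟨N, a, fun j => u j, al, ha, hu⟩

/-- valuations from a certificate -/
theorem val_of_cert {D : Type*} [CommRing D] [IsDedekindDomain D] {m : ℕ} {F : D} (hF : Cert m F)
    (w : HeightOneSpectrum D) : ∃ c, w.intValuation F = w.intValuation c ^ m := by
  obtain ⟨N, a, u, al, h1, h2⟩ := hF
  -- some `u j` is not in `w`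
  obtain ⟨j, hj⟩ : ∃ j, u j ∉ w.asIdeal := by
    by_contra hcon
    push Not at hcon
    apply w.isPrime.ne_top
    rw [Ideal.eq_top_iff_one, ← h2]
    exact Ideal.sum_mem _ fun j _ => Ideal.mul_mem_left _ _ (hcon j)
  refine ⟨a j, ?_⟩
  have h3 : w.intValuation (u j) = 1 := (w.intValuation_eq_one_iff).mpr hj
  rw [← map_pow, h1, map_mul, h3, mul_one]

end Pool.Agent.PatchGL
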