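import Pool.Agent.PGL.W

namespace Pool.Agent.PatchGL

open Finset

section gen

variable {R R' : Type*} [CommRing R] [CommRing R']

theorem mapHom_ofPS (f : R →+* R') (x : PowerSeries R) :
    mapHom f (HahnSeries.ofPowerSeries ℤ R x) = HahnSeries.ofPowerSeries ℤ R' (PowerSeries.map f x) := by
  ext1
  funext m
  rw [mapHom_coeff, ofPS_coeff, ofPS_coeff]
  split_ifs
  · rw [map_zero]
  · rw [PowerSeries.coeff_map]

/-- the homomorphism `R((s)) → R'((s))` which is `ι : R → R'[[s]]` on `R` and fixes `s` -/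
noncomputable def EL (ι : R →+* PowerSeries R') : LaurentSeries R →+* LaurentSeries R' :=
  lauLift ((HahnSeries.ofPowerSeries ℤ R').comp
    (extE (Polynomial.eval₂RingHom ι PowerSeries.X) (by rw [Polynomial.coe_eval₂RingHom, Polynomial.eval₂_X]))) (by
      rw [RingHom.comp_apply, extE_X, Polynomial.coe_eval₂RingHom, Polynomial.eval₂_X, HahnSeries.ofPowerSeries_X]
      refine IsUnit.of_mul_eq_one (HahnSeries.single (-1) 1) ?_
      rw [HahnSeries.single_mul_single]; simp)

/-- the same on power series -/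
noncomputable def EP (ι : R →+* PowerSeries R') : PowerSeries R →+* PowerSeries R' :=
  extE (Polynomial.eval₂RingHom ι PowerSeries.X) (by rw [Polynomial.coe_eval₂RingHom, Polynomial.eval₂_X])

theorem EL_ps (ι : R →+* PowerSeries R') (f : PowerSeries R) :
    EL ι (HahnSeries.ofPowerSeries ℤ R f) = HahnSeries.ofPowerSeries ℤ R' (EP ι f) := by
  rw [EL, lauLift_ps]; rfl

theorem EP_C (ι : R →+* PowerSeries R') (a : R) : EP ι (PowerSeries.C a) = ι a := by
  rw [EP, extE_C, Polynomial.coe_eval₂RingHom, Polynomial.eval₂_C]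

theorem EP_X (ι : R →+* PowerSeries R') : EP ι PowerSeries.X = PowerSeries.X := by
  rw [EP, extE_X, Polynomial.coe_eval₂RingHom, Polynomial.eval₂_X]

theorem EP_zero (ι : R →+* PowerSeries R') (f : PowerSeries R) :
    PowerSeries.constantCoeff (EP ι f) = PowerSeries.constantCoeff (ι (PowerSeries.constantCoeff f)) := by
  obtain ⟨g, hg⟩ := sub_trunc_dvd f 1
  have h1 : ((PowerSeries.trunc 1 f : Polynomial R) : PowerSeries R) = PowerSeries.C (PowerSeries.constantCoeff f) := by
    ext i
    rw [Polynomial.coeff_coe, PowerSeries.coeff_trunc, PowerSeries.coeff_C]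
    split_ifs with h h' h'
    · rw [h', PowerSeries.coeff_zero_eq_constantCoeff_apply]
    · omega
    · omega
    · rfl
  have h2 : f = PowerSeries.C (PowerSeries.constantCoeff f) + PowerSeries.X * g := by
    rw [h1, pow_one] at hg; rw [← hg]; ring
  conv_lhs => rw [h2]
  rw [map_add, map_mul, EP_C, EP_X, map_add, map_mul]
  simp

theorem EL_C (ι : R →+* PowerSeries R') (a : R) : EL ι (HahnSeries.C a) = HahnSeries.ofPowerSeries ℤ R' (ι a) := by
  rw [← HahnSeries.ofPowerSeries_C, EL_ps, EP_C]

theorem EL_s (ι : R →+* PowerSeries R') : EL ι (HahnSeries.single 1 1) = HahnSeries.single 1 1 := by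
  rw [← HahnSeries.ofPowerSeries_X, EL_ps, EP_X, HahnSeries.ofPowerSeries_X]

/-- uniqueness -/
theorem hom_ext_lau {T : Type*} [CommRing T] (E E' : LaurentSeries T →+* LaurentSeries R')
    (e e' : PowerSeries T →+* PowerSeries R')
    (he : ∀ f, E (HahnSeries.ofPowerSeries ℤ T f) = HahnSeries.ofPowerSeries ℤ R' (e f))
    (he' : ∀ f, E' (HahnSeries.ofPowerSeries ℤ T f) = HahnSeries.ofPowerSeries ℤ R' (e' f))
    (hX : PowerSeries.X ∣ e PowerSeries.X) (hX' : e PowerSeries.X = e' PowerSeries.X)
    (hC : ∀ a, e (PowerSeries.C a) = e' (PowerSeries.C a)) : E = E' := by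
  refine lau_ext _ _ fun f => ?_
  rw [he, he']
  congr 1
  have : e = e' := by
    refine hom_ext_ps e e' hX (hX' ▸ hX) fun g => ?_
    induction g using Polynomial.induction_on' with
    | add p q hp hq => rw [Polynomial.coe_add, map_add, map_add, hp, hq]
    | monomial m a =>
      rw [← Polynomial.C_mul_X_pow_eq_monomial, Polynomial.coe_mul, Polynomial.coe_C, Polynomial.coe_pow,
        Polynomial.coe_X, map_mul, map_mul, map_pow, map_pow, hC, hX']
  rw [this]

end gen

section zeta

variable (k : Type*) [Field k] (p : ℕ) [Fact p.Prime] [CharP k p]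

theorem exists_zeta : ∃ (ζ y : PowerSeries (Polynomial k)), ζ ^ p - ζ = PowerSeries.X ^ 2 * PowerSeries.C Polynomial.X ∧
    ζ = PowerSeries.X * y ∧ PowerSeries.X ∣ y := by
  have hp := (Fact.out : p.Prime).two_le
  have hx : PowerSeries.X ∣ (PowerSeries.X ^ 2 * PowerSeries.C Polynomial.X : PowerSeries (Polynomial k)) :=
    Dvd.dvd.mul_right (dvd_pow_self _ two_ne_zero) _
  obtain ⟨ζ, h1, h2⟩ := exists_AS p _ hx
  have hu : IsUnit (ζ ^ (p - 1) - 1) := by
    rw [PowerSeries.isUnit_iff_constantCoeff, map_sub, map_pow, map_one,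
      (PowerSeries.X_dvd_iff.mp h1), zero_pow (by omega), zero_sub]
    exact isUnit_one.neg
  obtain ⟨u, hu⟩ := hu
  have h3 : ζ * (u : PowerSeries (Polynomial k)) = PowerSeries.X ^ 2 * PowerSeries.C Polynomial.X := by
    rw [hu, ← h2]
    obtain ⟨d, rfl⟩ : ∃ d, p = d + 1 := ⟨p - 1, by omega⟩
    simp only [Nat.add_sub_cancel]
    ring
  refine ⟨ζ, PowerSeries.X * PowerSeries.C Polynomial.X * (↑u⁻¹ : PowerSeries (Polynomial k)), h2, ?_, ?_⟩
  · have : ζ = ζ * (u : PowerSeries (Polynomial k)) * (↑u⁻¹ : PowerSeries (Polynomial k)) := by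
      rw [mul_assoc, Units.mul_inv, mul_one]
    conv_lhs => rw [this, h3]
    ring
  · rw [mul_assoc]; exact dvd_mul_right _ _

noncomputable def zet : PowerSeries (Polynomial k) := (exists_zeta k p).choose
noncomputable def yet : PowerSeries (Polynomial k) := (exists_zeta k p).choose_spec.choose

theorem zet_eq : zet k p ^ p - zet k p = PowerSeries.X ^ 2 * PowerSeries.C Polynomial.X := (exists_zeta k p).choose_spec.choose_spec.1
theorem zet_y : zet k p = PowerSeries.X * yet k p := (exists_zeta k p).choose_spec.choose_spec.2.1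
theorem yet_dvd : PowerSeries.X ∣ yet k p := (exists_zeta k p).choose_spec.choose_spec.2.2

theorem zet_const : PowerSeries.constantCoeff (zet k p) = 0 := by rw [zet_y]; simp

/-- `K → k[v]((s))` -/
noncomputable def kV : LaurentSeries k →+* LaurentSeries (Polynomial k) := mapHom Polynomial.C

theorem kV_s (m : ℤ) : kV k (HahnSeries.single m 1) = HahnSeries.single m 1 := by
  ext1
  funext j
  rw [kV, mapHom_coeff, HahnSeries.coeff_single, HahnSeries.coeff_single]
  split_ifs <;> simp

/-- `z ↦ i + ζ` -/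
noncomputable def chi (i : k) : Polynomial (LaurentSeries k) →+* LaurentSeries (Polynomial k) :=
  Polynomial.eval₂RingHom (kV k) (HahnSeries.ofPowerSeries ℤ _ (PowerSeries.C (Polynomial.C i) + zet k p))

theorem chi_C (i : k) (a : LaurentSeries k) : chi k p i (Polynomial.C a) = kV k a := by simp [chi]

theorem chi_X (i : k) : chi k p i Polynomial.X = HahnSeries.ofPowerSeries ℤ _ (PowerSeries.C (Polynomial.C i) + zet k p) := by
  simp [chi]

/-- `v ↦ v` -/
theorem chi_vK (i : k) (hi : i ^ p = i) : chi k p i (vK k p) = HahnSeries.C Polynomial.X := by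
  have := charP_ps (R := Polynomial k) p
  haveI : ExpChar (PowerSeries (Polynomial k)) p := ExpChar.prime (Fact.out : p.Prime)
  rw [vK, map_mul, map_sub, map_pow, chi_X, chi_C, kV_s, ← map_pow, ← map_sub, add_pow_char, ← map_pow, ← map_pow, hi]
  have h1 : (PowerSeries.C (Polynomial.C i) : PowerSeries (Polynomial k)) + zet k p ^ p - (PowerSeries.C (Polynomial.C i) + zet k p) =
      PowerSeries.X ^ 2 * PowerSeries.C Polynomial.X := by rw [← zet_eq k p]; ring
  rw [h1, map_mul, map_pow, HahnSeries.ofPowerSeries_X, HahnSeries.ofPowerSeries_C, ← mul_assoc, HahnSeries.single_pow,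
    HahnSeries.single_mul_single]
  simp

end zeta

end Pool.Agent.PatchGL
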