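import Pool.Agent.PGL.EH

namespace Pool.Agent.PatchGL

open Finset

section eval

variable {k : Type*} [Field k]

/-- `k[T] → R'[[s]]`, `T ↦ y` -/
noncomputable def iot (y : PowerSeries (Polynomial k)) : Polynomial k →+* PowerSeries (Polynomial k) :=
  Polynomial.eval₂RingHom ((PowerSeries.C : Polynomial k →+* PowerSeries (Polynomial k)).comp Polynomial.C) y

theorem iot_C (y : PowerSeries (Polynomial k)) (a : k) : iot y (Polynomial.C a) = PowerSeries.C (Polynomial.C a) := by
  simp [iot]

theorem iot_X (y : PowerSeries (Polynomial k)) : iot y Polynomial.X = y := by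
  simp [iot]

/-- if `s ∣ y` then modulo `s` the homomorphism is evaluation at `0` -/
theorem iot_const (y : PowerSeries (Polynomial k)) (hy : PowerSeries.X ∣ y) (f : Polynomial k) :
    PowerSeries.constantCoeff (iot y f) = Polynomial.C (f.coeff 0) := by
  induction f using Polynomial.induction_on' with
  | add a b ha hb => rw [map_add, map_add, ha, hb, Polynomial.coeff_add, map_add]
  | monomial m a =>
    rw [iot, Polynomial.coe_eval₂RingHom, Polynomial.eval₂_monomial, map_mul, map_pow, PowerSeries.X_dvd_iff.mp hy,
      Polynomial.coeff_monomial]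
    by_cases hm : m = 0
    · subst hm; simp
    · simp [hm]

theorem EL_kV (y : PowerSeries (Polynomial k)) (a : LaurentSeries k) : EL (iot y) (kV k a) = kV k a := by
  have : (EL (iot y)).comp (kV k) = kV k := by
    refine hom_ext_lau _ _ ((EP (iot y)).comp (PowerSeries.map Polynomial.C)) (PowerSeries.map Polynomial.C) ?_ ?_ ?_ ?_ ?_
    · intro f
      rw [RingHom.comp_apply, kV, mapHom_ofPS, EL_ps]; rfl
    · intro f
      rw [kV, mapHom_ofPS]
    · rw [RingHom.comp_apply, PowerSeries.map_X, EP_X]
    · rw [RingHom.comp_apply, PowerSeries.map_X, EP_X]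
    · intro b
      rw [RingHom.comp_apply, PowerSeries.map_C, EP_C, iot_C]
  exact RingHom.congr_fun this a

end eval

section one

variable (k : Type*) [Field k]

/-- `K[z] → k[Y]((s))`, `z ↦ s Y` -/
noncomputable def jY : Polynomial (LaurentSeries k) →+* LaurentSeries (Polynomial k) :=
  Polynomial.eval₂RingHom (kV k) (HahnSeries.single 1 1 * HahnSeries.C Polynomial.X)

/-- `k[Y] → k((σ))` -/
noncomputable def polY : Polynomial k →+* LaurentSeries k := Polynomial.eval₂RingHom HahnSeries.C (HahnSeries.single (-1) 1)

/-- `k[σ] → k((σ))` -/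
noncomputable def polS : Polynomial k →+* LaurentSeries k := Polynomial.eval₂RingHom HahnSeries.C (HahnSeries.single 1 1)

theorem polY_coeff (f : Polynomial k) (j : ℤ) : (polY k f).coeff j = if j ≤ 0 then f.coeff (-j).toNat else 0 := by
  induction f using Polynomial.induction_on' with
  | add a b ha hb =>
    rw [map_add, HahnSeries.coeff_add, ha, hb, Polynomial.coeff_add]
    split_ifs <;> simp
  | monomial i a =>
    rw [polY, Polynomial.coe_eval₂RingHom, Polynomial.eval₂_monomial, HahnSeries.single_pow, HahnSeries.C_apply,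
      HahnSeries.single_mul_single, HahnSeries.coeff_single, Polynomial.coeff_monomial]
    by_cases h : j = -(i : ℤ)
    · subst h; simp
    · have h2 : ¬ (j = 0 + i • (-1 : ℤ)) := by simpa using h
      rw [if_neg h2]
      split_ifs with h3 h4
      · omega
      · rfl
      · rfl

theorem polS_coeff (f : Polynomial k) (j : ℤ) : (polS k f).coeff j = if 0 ≤ j then f.coeff j.toNat else 0 := by
  induction f using Polynomial.induction_on' with
  | add a b ha hb =>
    rw [map_add, HahnSeries.coeff_add, ha, hb, Polynomial.coeff_add]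
    split_ifs <;> simp
  | monomial i a =>
    rw [polS, Polynomial.coe_eval₂RingHom, Polynomial.eval₂_monomial, HahnSeries.single_pow, HahnSeries.C_apply,
      HahnSeries.single_mul_single, HahnSeries.coeff_single, Polynomial.coeff_monomial]
    by_cases h : j = (i : ℤ)
    · subst h; simp
    · have h2 : ¬ (j = 0 + i • (1 : ℤ)) := by simpa using h
      rw [if_neg h2]
      split_ifs with h3 h4
      · omega
      · rfl
      · rfl

theorem polY_injective : Function.Injective (polY k) := by
  rw [injective_iff_map_eq_zero]
  intro f hf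
  ext i
  have := polY_coeff k f (-(i : ℤ))
  rw [hf, if_pos (by omega)] at this
  simpa using this.symm

theorem polS_injective : Function.Injective (polS k) := by
  rw [injective_iff_map_eq_zero]
  intro f hf
  ext i
  have := polS_coeff k f (i : ℤ)
  rw [hf, if_pos (by omega)] at this
  simpa using this.symm

theorem mem_polyPart_iff (a : LaurentSeries k) (ha : a ∈ polyPart k) : ∃ f, polY k f = a := by
  have h0 : ∀ j, 0 < j → a.coeff j = 0 := ha
  let N := (-a.order).toNat + 1
  refine ⟨∑ i ∈ range N, Polynomial.monomial i (a.coeff (-(i : ℤ))), ?_⟩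
  ext j
  rw [polY_coeff]
  split_ifs with hj
  · rw [Polynomial.finsetSum_coeff]
    simp_rw [Polynomial.coeff_monomial]
    rw [Finset.sum_ite_eq' (range N) (-j).toNat (fun i => a.coeff (-(i : ℤ)))]
    have hj2 : -(((-j).toNat : ℕ) : ℤ) = j := by omega
    rw [hj2]
    split_ifs with h
    · rfl
    · symm
      apply HahnSeries.coeff_eq_zero_of_lt_order
      simp only [N, mem_range, not_lt] at h
      omega
  · exact (h0 j (not_le.mp hj)).symm

theorem mem_polyS_iff (a : LaurentSeries k) (ha : a ∈ polyS k) : ∃ f, polS k f = a := by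
  obtain ⟨h0, N, hN⟩ := ha
  have h0 : ∀ j, j < 0 → a.coeff j = 0 := h0
  refine ⟨∑ i ∈ range (N.toNat + 1), Polynomial.monomial i (a.coeff (i : ℤ)), ?_⟩
  ext j
  rw [polS_coeff]
  split_ifs with hj
  · rw [Polynomial.finsetSum_coeff]
    simp_rw [Polynomial.coeff_monomial]
    rw [Finset.sum_ite_eq' (range (N.toNat + 1)) j.toNat (fun i => a.coeff (i : ℤ))]
    have hj2 : ((j.toNat : ℕ) : ℤ) = j := by omega
    rw [hj2]
    split_ifs with h
    · rfl
    · symm
      apply hN
      simp only [mem_range, not_lt] at h
      omega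
  · exact (h0 j (not_le.mp hj)).symm

theorem mapHom_injective {A B : Type*} [CommRing A] [CommRing B] (f : A →+* B) (hf : Function.Injective f) :
    Function.Injective (mapHom f) := by
  intro a b h
  ext1
  funext m
  exact hf (by rw [← mapHom_coeff, ← mapHom_coeff, h])

theorem mapHom_surj {A B : Type*} [CommRing A] [CommRing B] (f : A →+* B) (hf : Function.Injective f) (y : LaurentSeries B)
    (hy : ∀ m, ∃ a, f a = y.coeff m) : ∃ x, mapHom f x = y := by
  choose g hg using hy
  refine ⟨{ coeff := g, isPWO_support' := y.isPWO_support.mono (fun m hm => ?_) }, ?_⟩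
  · rw [Function.mem_support] at hm
    rw [HahnSeries.mem_support, ← hg]
    intro h
    exact hm (hf (by rw [h, map_zero]))
  · ext1
    funext m
    rw [mapHom_coeff]
    exact hg m

/-- `k[Y]((s)) → Q` -/
noncomputable def j1 : LaurentSeries (Polynomial k) →+* LaurentSeries (LaurentSeries k) := mapHom (polY k)

/-- `k[σ]((s)) → Q` -/
noncomputable def j2 : LaurentSeries (Polynomial k) →+* LaurentSeries (LaurentSeries k) := mapHom (polS k)

theorem j1_injective : Function.Injective (j1 k) := mapHom_injective _ (polY_injective k)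
theorem j2_injective : Function.Injective (j2 k) := mapHom_injective _ (polS_injective k)

theorem j1_surj (x : LaurentSeries (LaurentSeries k)) (hx : x ∈ R1 k) : ∃ y, j1 k y = x :=
  mapHom_surj _ (polY_injective k) x fun m => mem_polyPart_iff k _ fun j hj => hx m j hj

theorem j1_kV (a : LaurentSeries k) : j1 k (kV k a) = kap k a := by
  ext1
  funext m
  rw [j1, mapHom_coeff, kV, mapHom_coeff, kap, mapHom_coeff]
  simp [polY]

theorem j2_kV (a : LaurentSeries k) : j2 k (kV k a) = kap k a := by
  ext1
  funext m
  rw [j2, mapHom_coeff, kV, mapHom_coeff, kap, mapHom_coeff]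
  simp [polS]

theorem mapHom_C' {A B : Type*} [CommRing A] [CommRing B] (f : A →+* B) (a : A) (m : ℤ) :
    mapHom f (HahnSeries.single m a) = HahnSeries.single m (f a) := by
  ext1
  funext j
  rw [mapHom_coeff, HahnSeries.coeff_single, HahnSeries.coeff_single]
  split_ifs <;> simp

theorem j1_jY (f : Polynomial (LaurentSeries k)) : j1 k (jY k f) = jK k f := by
  have : (j1 k).comp (jY k) = jK k := by
    apply Polynomial.ringHom_ext
    · intro a
      simp only [jY, jK, RingHom.comp_apply, Polynomial.coe_eval₂RingHom, Polynomial.eval₂_C]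
      exact j1_kV k a
    · simp only [jY, jK, RingHom.comp_apply, Polynomial.coe_eval₂RingHom, Polynomial.eval₂_X]
      rw [map_mul, j1, mapHom_C', map_one, HahnSeries.C_apply, mapHom_C']
      simp only [polY, Polynomial.coe_eval₂RingHom, Polynomial.eval₂_X]
      rfl
  exact RingHom.congr_fun this f

end one

section two

variable (k : Type*) [Field k] (p : ℕ) [Fact p.Prime] [CharP k p]

/-- `k[Y]((s)) → k[v]((s))`, `Y ↦ ζ/s` -/
noncomputable def EY : LaurentSeries (Polynomial k) →+* LaurentSeries (Polynomial k) := EL (iot (yet k p))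

theorem EY_jY (f : Polynomial (LaurentSeries k)) : EY k p (jY k f) = chi k p 0 f := by
  have : (EY k p).comp (jY k) = chi k p 0 := by
    apply Polynomial.ringHom_ext
    · intro a
      simp only [jY, RingHom.comp_apply, Polynomial.coe_eval₂RingHom, Polynomial.eval₂_C]
      rw [chi_C]
      exact EL_kV _ a
    · simp only [jY, RingHom.comp_apply, Polynomial.coe_eval₂RingHom, Polynomial.eval₂_X]
      rw [chi_X, map_mul, EY, EL_s, EL_C, iot_X, map_zero, map_zero, zero_add, zet_y, map_mul, HahnSeries.ofPowerSeries_X]
  exact RingHom.congr_fun this f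

end two

end Pool.Agent.PatchGL
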