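import Pool.Agent.PGL.EI

namespace Pool.Agent.PatchGL

open Finset

section three

variable (k : Type*) [Field k]

/-- the variable `σ` of `k[σ]((s))` -/
noncomputable def sgm : LaurentSeries (Polynomial k) := HahnSeries.C Polynomial.X

/-- `k[σ]((s))[1/σ]` -/
abbrev RL : Type _ := Localization.Away (sgm k)

theorem j2_sgm : j2 k (sgm k) * YQ k = 1 := by
  rw [j2, sgm, HahnSeries.C_apply, mapHom_C', polS, Polynomial.coe_eval₂RingHom, Polynomial.eval₂_X, YQ, HahnSeries.C_apply,
    HahnSeries.single_mul_single, HahnSeries.single_mul_single]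
  simp

/-- `k[σ]((s))[1/σ] → Q` -/
noncomputable def j2L : RL k →+* LaurentSeries (LaurentSeries k) :=
  IsLocalization.Away.lift (sgm k) (g := j2 k) (IsUnit.of_mul_eq_one _ (j2_sgm k))

theorem j2L_alg (a : LaurentSeries (Polynomial k)) : j2L k (algebraMap _ _ a) = j2 k a :=
  IsLocalization.Away.lift_eq _ _ a

theorem j2L_injective : Function.Injective (j2L k) := by
  rw [injective_iff_map_eq_zero]
  intro a ha
  obtain ⟨⟨r, s⟩, h⟩ := IsLocalization.surj (Submonoid.powers (sgm k)) a
  have h1 : j2 k r = 0 := by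
    have h2 := congrArg (j2L k) h
    rw [map_mul, ha, zero_mul, j2L_alg] at h2
    exact h2.symm
  have h3 : r = 0 := j2_injective k (by rw [h1, map_zero])
  simp only [h3, map_zero] at h
  have hs : IsUnit (algebraMap (LaurentSeries (Polynomial k)) (RL k) (s : LaurentSeries (Polynomial k))) :=
    IsLocalization.map_units (RL k) s
  exact hs.mul_left_eq_zero.mp h

/-- `K[z] → k[σ]((s))[1/σ]`, `z ↦ s / σ` -/
noncomputable def jL : Polynomial (LaurentSeries k) →+* RL k :=
  Polynomial.eval₂RingHom ((algebraMap (LaurentSeries (Polynomial k)) (RL k)).comp (kV k))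
    (algebraMap (LaurentSeries (Polynomial k)) (RL k) (HahnSeries.single 1 1) * IsLocalization.Away.invSelf (sgm k))

theorem j2L_inv : j2L k (IsLocalization.Away.invSelf (sgm k)) = YQ k := by
  have h1 : algebraMap _ (RL k) (sgm k) * IsLocalization.Away.invSelf (sgm k) = 1 := IsLocalization.Away.mul_invSelf _
  have h2 := congrArg (j2L k) h1
  rw [map_mul, map_one, j2L_alg] at h2
  have h3 := j2_sgm k
  have h4 : j2 k (sgm k) ≠ 0 := left_ne_zero_of_mul_eq_one h3
  exact mul_left_cancel₀ h4 (h2.trans h3.symm)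

theorem j2L_jL (f : Polynomial (LaurentSeries k)) : j2L k (jL k f) = jK k f := by
  have : (j2L k).comp (jL k) = jK k := by
    apply Polynomial.ringHom_ext
    · intro a
      simp only [jL, jK, RingHom.comp_apply, Polynomial.coe_eval₂RingHom, Polynomial.eval₂_C]
      rw [j2L_alg]
      exact j2_kV k a
    · simp only [jL, jK, RingHom.comp_apply, Polynomial.coe_eval₂RingHom, Polynomial.eval₂_X]
      rw [map_mul, j2L_inv, j2L_alg, j2, mapHom_C', map_one]
      rfl
  exact RingHom.congr_fun this f

variable (p : ℕ) [Fact p.Prime] [CharP k p]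

theorem isUnit_izet (i : k) (hi : i ≠ 0) : IsUnit (PowerSeries.C (Polynomial.C i) + zet k p : PowerSeries (Polynomial k)) := by
  rw [PowerSeries.isUnit_iff_constantCoeff, map_add, zet_const, add_zero, PowerSeries.constantCoeff_C]
  exact (Polynomial.isUnit_C).mpr (isUnit_iff_ne_zero.mpr hi)

/-- the inverse of `i + ζ` -/
noncomputable def izi (i : k) : PowerSeries (Polynomial k) := Ring.inverse (PowerSeries.C (Polynomial.C i) + zet k p)

theorem izi_mul (i : k) (hi : i ≠ 0) : (PowerSeries.C (Polynomial.C i) + zet k p) * izi k p i = 1 :=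
  Ring.mul_inverse_cancel _ (isUnit_izet k p i hi)

/-- `k[σ]((s)) → k[v]((s))`, `σ ↦ s / (i + ζ)` -/
noncomputable def ES (i : k) : LaurentSeries (Polynomial k) →+* LaurentSeries (Polynomial k) :=
  EL (iot (PowerSeries.X * izi k p i))

theorem ES_sgm (i : k) : ES k p i (sgm k) = HahnSeries.ofPowerSeries ℤ _ (PowerSeries.X * izi k p i) := by
  rw [ES, sgm, EL_C, iot_X]

theorem ES_unit (i : k) (hi : i ≠ 0) :
    ES k p i (sgm k) * (HahnSeries.single (-1) 1 * HahnSeries.ofPowerSeries ℤ _ (PowerSeries.C (Polynomial.C i) + zet k p)) = 1 := by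
  rw [ES_sgm, map_mul, HahnSeries.ofPowerSeries_X]
  have h1 : HahnSeries.ofPowerSeries ℤ (Polynomial k) (PowerSeries.C (Polynomial.C i) + zet k p) *
      HahnSeries.ofPowerSeries ℤ (Polynomial k) (izi k p i) = 1 := by
    rw [← map_mul, izi_mul k p i hi, map_one]
  have h2 : (HahnSeries.single 1 (1 : Polynomial k)) * (HahnSeries.single (-1 : ℤ) 1) = 1 := by
    rw [HahnSeries.single_mul_single]; simp
  calc _ = ((HahnSeries.single 1 (1 : Polynomial k)) * (HahnSeries.single (-1 : ℤ) 1)) *
      (HahnSeries.ofPowerSeries ℤ (Polynomial k) (PowerSeries.C (Polynomial.C i) + zet k p) *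
      HahnSeries.ofPowerSeries ℤ (Polynomial k) (izi k p i)) := by ring
    _ = 1 := by rw [h1, h2, one_mul]

/-- the extension to `k[σ]((s))[1/σ]` -/
noncomputable def ESL (i : k) (hi : i ≠ 0) : RL k →+* LaurentSeries (Polynomial k) :=
  IsLocalization.Away.lift (sgm k) (g := ES k p i) (IsUnit.of_mul_eq_one _ (ES_unit k p i hi))

theorem ESL_alg (i : k) (hi : i ≠ 0) (a : LaurentSeries (Polynomial k)) : ESL k p i hi (algebraMap _ _ a) = ES k p i a :=
  IsLocalization.Away.lift_eq _ _ a

theorem ESL_inv (i : k) (hi : i ≠ 0) : ESL k p i hi (IsLocalization.Away.invSelf (sgm k)) =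
    HahnSeries.single (-1) 1 * HahnSeries.ofPowerSeries ℤ _ (PowerSeries.C (Polynomial.C i) + zet k p) := by
  have h1 : algebraMap _ (RL k) (sgm k) * IsLocalization.Away.invSelf (sgm k) = 1 := IsLocalization.Away.mul_invSelf _
  have h2 := congrArg (ESL k p i hi) h1
  rw [map_mul, map_one, ESL_alg] at h2
  have h3 := ES_unit k p i hi
  have h4 : ES k p i (sgm k) ≠ 0 := left_ne_zero_of_mul_eq_one h3
  exact mul_left_cancel₀ h4 (h2.trans h3.symm)

theorem ESL_jL (i : k) (hi : i ≠ 0) (f : Polynomial (LaurentSeries k)) : ESL k p i hi (jL k f) = chi k p i f := by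
  have : (ESL k p i hi).comp (jL k) = chi k p i := by
    apply Polynomial.ringHom_ext
    · intro a
      simp only [jL, RingHom.comp_apply, Polynomial.coe_eval₂RingHom, Polynomial.eval₂_C]
      rw [ESL_alg, chi_C]
      exact EL_kV _ a
    · simp only [jL, RingHom.comp_apply, Polynomial.coe_eval₂RingHom, Polynomial.eval₂_X]
      rw [map_mul, ESL_inv, ESL_alg, ES, EL_s, chi_X, ← mul_assoc, HahnSeries.single_mul_single]
      simp
  exact RingHom.congr_fun this f

/-- constant terms -/
theorem EPS_const (i : k) (f : PowerSeries (Polynomial k)) :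
    PowerSeries.constantCoeff (EP (iot (PowerSeries.X * izi k p i)) f) = Polynomial.C ((PowerSeries.constantCoeff f).coeff 0) := by
  rw [EP_zero, iot_const _ (dvd_mul_right _ _)]

theorem EPY_const (f : PowerSeries (Polynomial k)) :
    PowerSeries.constantCoeff (EP (iot (yet k p)) f) = Polynomial.C ((PowerSeries.constantCoeff f).coeff 0) := by
  rw [EP_zero, iot_const _ (yet_dvd k p)]

end three

end Pool.Agent.PatchGL
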