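import Mathlib

namespace Pool.Agent.PatchGL

open Finset PowerSeries

section extE

variable {R R' : Type*} [CommRing R] [CommRing R']

theorem trunc_sub_dvd (f : PowerSeries R) {m N : ℕ} (h : m ≤ N) :
    (Polynomial.X ^ m : Polynomial R) ∣ trunc N f - trunc m f := by
  rw [Polynomial.X_pow_dvd_iff]
  intro j hj
  rw [Polynomial.coeff_sub, coeff_trunc, coeff_trunc, if_pos (by omega), if_pos hj, sub_self]

theorem sub_trunc_dvd (f : PowerSeries R) (m : ℕ) :
    (X : PowerSeries R) ^ m ∣ f - ((trunc m f : Polynomial R) : PowerSeries R) := by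
  rw [X_pow_dvd_iff]
  intro j hj
  rw [map_sub, Polynomial.coeff_coe, coeff_trunc, if_pos hj, sub_self]

theorem coeff_eq_of_dvd_sub {f g : PowerSeries R} {N m : ℕ} (h : (X : PowerSeries R) ^ N ∣ f - g) (hm : m < N) :
    coeff m f = coeff m g := by
  rw [X_pow_dvd_iff] at h
  have := h m hm
  rwa [map_sub, sub_eq_zero] at this

theorem ev_dvd (ev : Polynomial R →+* PowerSeries R') (h : X ∣ ev Polynomial.X) {a b : Polynomial R} {N : ℕ}
    (hab : (Polynomial.X ^ N : Polynomial R) ∣ a - b) : (X : PowerSeries R') ^ N ∣ ev a - ev b := by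
  obtain ⟨d, hd⟩ := hab
  rw [← map_sub, hd, map_mul, map_pow]
  exact Dvd.dvd.mul_right (pow_dvd_pow_of_dvd h N) _

theorem coeff_ev (ev : Polynomial R →+* PowerSeries R') (h : X ∣ ev Polynomial.X) (f : PowerSeries R) {m N : ℕ} (hm : m < N) :
    coeff m (ev (trunc N f)) = coeff m (ev (trunc (m + 1) f)) :=
  coeff_eq_of_dvd_sub (ev_dvd ev h (trunc_sub_dvd f (by omega : m + 1 ≤ N))) (by omega)

/-- the `X`-adically continuous extension of a ring homomorphism `ev : R[X] → R'[[X]]` with `X ∣ ev X` -/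
noncomputable def extE (ev : Polynomial R →+* PowerSeries R') (h : X ∣ ev Polynomial.X) :
    PowerSeries R →+* PowerSeries R' where
  toFun f := mk fun m => coeff m (ev (trunc (m + 1) f))
  map_one' := by
    ext m
    rw [coeff_mk]
    have : trunc (m + 1) (1 : PowerSeries R) = 1 := trunc_one m
    rw [this, map_one]
  map_zero' := by
    ext m
    simp
  map_add' f g := by
    ext m
    simp
  map_mul' f g := by
    ext m
    set N := m + 1 with hN
    rw [coeff_mk]
    have hc : ∀ f : PowerSeries R, ∀ j < N, coeff j (mk fun m => coeff m (ev (trunc (m + 1) f))) =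
        coeff j (ev (trunc N f)) := by
      intro f j hj
      rw [coeff_mk, coeff_ev ev h f hj]
    have h1 : coeff m ((mk fun m => coeff m (ev (trunc (m + 1) f))) * (mk fun m => coeff m (ev (trunc (m + 1) g)))) =
        coeff m (ev (trunc N f) * ev (trunc N g)) := by
      rw [coeff_mul, coeff_mul]
      refine Finset.sum_congr rfl fun p hp => ?_
      have hp' := mem_antidiagonal.mp hp
      rw [hc f p.1 (by omega), hc g p.2 (by omega)]
    rw [h1, ← map_mul]
    refine (coeff_eq_of_dvd_sub (ev_dvd ev h (N := N) ?_) (by omega)).symm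
    rw [Polynomial.X_pow_dvd_iff]
    intro j hj
    rw [Polynomial.coeff_sub, sub_eq_zero, coeff_trunc, if_pos hj, coeff_mul, Polynomial.coeff_mul]
    refine Finset.sum_congr rfl fun p hp => ?_
    have hp' := mem_antidiagonal.mp hp
    rw [coeff_trunc, coeff_trunc, if_pos (by omega), if_pos (by omega)]

variable (ev : Polynomial R →+* PowerSeries R') (h : X ∣ ev Polynomial.X)

theorem extE_coeff (f : PowerSeries R) {m N : ℕ} (hm : m < N) :
    coeff m (extE ev h f) = coeff m (ev (trunc N f)) := by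
  show coeff m (mk fun m => coeff m (ev (trunc (m + 1) f))) = _
  rw [coeff_mk, coeff_ev ev h f hm]

theorem extE_poly (f : Polynomial R) : extE ev h (f : PowerSeries R) = ev f := by
  ext m
  rw [extE_coeff ev h _ (show m < max (m + 1) (f.natDegree + 1) by omega)]
  congr 2
  ext i
  rw [coeff_trunc, Polynomial.coeff_coe]
  split_ifs with hi
  · rfl
  · exact (Polynomial.coeff_eq_zero_of_natDegree_lt (by omega)).symm

theorem extE_C (a : R) : extE ev h (C a) = ev (Polynomial.C a) := by
  rw [← extE_poly ev h, Polynomial.coe_C]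

theorem extE_X : extE ev h X = ev Polynomial.X := by
  rw [← extE_poly ev h, Polynomial.coe_X]

theorem extE_dvd {f g : PowerSeries R} {N : ℕ} (hfg : (X : PowerSeries R) ^ N ∣ f - g) :
    (X : PowerSeries R') ^ N ∣ extE ev h f - extE ev h g := by
  obtain ⟨d, hd⟩ := hfg
  rw [← map_sub, hd, map_mul, map_pow, extE_X]
  exact Dvd.dvd.mul_right (pow_dvd_pow_of_dvd h N) _

theorem extE_mem (A0 : Subring R') (hA : ∀ f m, coeff m (ev f) ∈ A0) (f : PowerSeries R) (m : ℕ) :
    coeff m (extE ev h f) ∈ A0 := by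
  rw [extE_coeff ev h f (Nat.lt_succ_self m)]
  exact hA _ _

/-- two `X`-adically continuous ring homomorphisms agree if they agree on polynomials -/
theorem hom_ext_ps (E E' : PowerSeries R →+* PowerSeries R') (hX : X ∣ E X) (hX' : X ∣ E' X)
    (hp : ∀ f : Polynomial R, E (f : PowerSeries R) = E' (f : PowerSeries R)) : E = E' := by
  ext f m
  obtain ⟨g, hg⟩ := sub_trunc_dvd f (m + 1)
  have hf : f = ((trunc (m + 1) f : Polynomial R) : PowerSeries R) + X ^ (m + 1) * g := by rw [← hg]; ring
  have e1 : X ^ (m + 1) ∣ E f - E ((trunc (m + 1) f : Polynomial R) : PowerSeries R) := by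
    rw [← E.map_sub, hg, E.map_mul, E.map_pow]
    exact Dvd.dvd.mul_right (pow_dvd_pow_of_dvd hX _) _
  have e2 : X ^ (m + 1) ∣ E' f - E' ((trunc (m + 1) f : Polynomial R) : PowerSeries R) := by
    rw [← E'.map_sub, hg, E'.map_mul, E'.map_pow]
    exact Dvd.dvd.mul_right (pow_dvd_pow_of_dvd hX' _) _
  rw [coeff_eq_of_dvd_sub e1 (Nat.lt_succ_self m), coeff_eq_of_dvd_sub e2 (Nat.lt_succ_self m), hp]

end extE

section AS

variable {R : Type*} [CommRing R] (p : ℕ) [Fact p.Prime] [CharP R p]

theorem charP_ps : CharP (PowerSeries R) p :=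
  charP_of_injective_ringHom (f := (C : R →+* PowerSeries R)) C_injective p

/-- approximations -/
noncomputable def asSeq (x : PowerSeries R) : ℕ → PowerSeries R
  | 0 => 0
  | n + 1 => asSeq x n ^ p - x

theorem asSeq_dvd (x : PowerSeries R) (hx : X ∣ x) (n : ℕ) : X ^ (n + 1) ∣ asSeq p x (n + 1) - asSeq p x n := by
  have := charP_ps (R := R) p
  haveI : ExpChar (PowerSeries R) p := ExpChar.prime (Fact.out : p.Prime)
  induction n with
  | zero =>
    rw [zero_add, pow_one]
    show X ∣ (0 : PowerSeries R) ^ p - x - 0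
    rw [zero_pow (Fact.out : p.Prime).ne_zero, zero_sub, sub_zero]
    exact (dvd_neg).mpr hx
  | succ n ih =>
    have h1 : asSeq p x (n + 1 + 1) - asSeq p x (n + 1) = (asSeq p x (n + 1) - asSeq p x n) ^ p := by
      rw [sub_pow_char]
      show asSeq p x (n + 1) ^ p - x - (asSeq p x n ^ p - x) = _
      ring
    rw [h1]
    have h2 : (X : PowerSeries R) ^ (n + 1 + 1) ∣ (X ^ (n + 1)) ^ p := by
      rw [← pow_mul]
      apply pow_dvd_pow
      have := (Fact.out : p.Prime).two_le
      nlinarith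
    exact h2.trans (pow_dvd_pow_of_dvd ih p)

theorem asSeq_dvd' (x : PowerSeries R) (hx : X ∣ x) {n m : ℕ} (h : n ≤ m) : X ^ (n + 1) ∣ asSeq p x m - asSeq p x n := by
  induction m, h using Nat.le_induction with
  | base => simp
  | succ m hm ih =>
    have h1 : asSeq p x (m + 1) - asSeq p x n = (asSeq p x (m + 1) - asSeq p x m) + (asSeq p x m - asSeq p x n) := by ring
    rw [h1]
    exact dvd_add ((pow_dvd_pow _ (by omega)).trans (asSeq_dvd p x hx m)) ih

/-- Artin-Schreier equation in `X R[[X]]` -/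
theorem exists_AS (x : PowerSeries R) (hx : X ∣ x) : ∃ ζ : PowerSeries R, X ∣ ζ ∧ ζ ^ p - ζ = x := by
  have := charP_ps (R := R) p
  haveI : ExpChar (PowerSeries R) p := ExpChar.prime (Fact.out : p.Prime)
  let ζ : PowerSeries R := mk fun m => coeff m (asSeq p x m)
  have hζ : ∀ n, X ^ (n + 1) ∣ ζ - asSeq p x n := by
    intro n
    rw [X_pow_dvd_iff]
    intro m hm
    rw [map_sub, coeff_mk, sub_eq_zero]
    exact (coeff_eq_of_dvd_sub (asSeq_dvd' p x hx (by omega : m ≤ n)) (Nat.lt_succ_self m)).symm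
  refine ⟨ζ, ?_, ?_⟩
  · have h1 := hζ 0
    rw [zero_add, pow_one] at h1
    simpa [asSeq] using h1
  · have key : ∀ n, X ^ (n + 1) ∣ ζ ^ p - ζ - x := by
      intro n
      have h1 : ζ ^ p - ζ - x = (ζ - asSeq p x n) ^ p - (ζ - asSeq p x (n + 1)) := by
        rw [sub_pow_char]
        show ζ ^ p - ζ - x = ζ ^ p - asSeq p x n ^ p - (ζ - (asSeq p x n ^ p - x))
        ring
      rw [h1]
      refine dvd_sub ?_ ((pow_dvd_pow _ (by omega)).trans (hζ (n + 1)))
      exact (hζ n).trans (dvd_pow_self _ (Fact.out : p.Prime).ne_zero)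
    have h2 : ζ ^ p - ζ - x = 0 := by
      ext m
      have := (X_pow_dvd_iff.mp (key m)) m (Nat.lt_succ_self m)
      rw [this, map_zero]
    rw [sub_eq_zero] at h2
    exact h2

end AS

end Pool.Agent.PatchGL
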