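import Pool.Agent.PGL.Base

namespace Pool.Agent.PatchGL

open Finset

variable {n : Type*} [Fintype n] [DecidableEq n]

theorem gl_factor2 {A : Type*} [Field A] (A1 A2 : Subring A)
    (hA : ∀ a : A, ∃ b ∈ A1, ∃ c ∈ A2, a = b + c)
    (B : Matrix n n (LaurentSeries A)) (hB : IsUnit B.det) :
    ∃ (B1 B2 : Matrix n n (PowerSeries A)) (C' : Matrix n n (Polynomial A)) (e' : ℕ),
      (∀ i j m, PowerSeries.coeff m (B1 i j) ∈ A1) ∧
      (∀ i j m, PowerSeries.coeff m (B2 i j) ∈ A2) ∧ cM 0 B1 = 1 ∧ cM 0 B2 = 1 ∧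
      B * ((HahnSeries.single (-(e' : ℤ)) (1 : A)) •
        C'.map (fun p => HahnSeries.ofPowerSeries ℤ A (p : PowerSeries A))) =
        B1.map (HahnSeries.ofPowerSeries ℤ A) * B2.map (HahnSeries.ofPowerSeries ℤ A) := by
  classical
  set φ := HahnSeries.ofPowerSeries ℤ A with hφ
  obtain ⟨e, D, hD⟩ := exists_integral B
  obtain ⟨e', C, hC⟩ := exists_integral B⁻¹
  set N := e + e' + 1 with hN
  let P' : Matrix n n (Polynomial A) := fun i j => PowerSeries.trunc N (C i j)
  let C' : Matrix n n (PowerSeries A) := fun i j => ((PowerSeries.trunc N (C i j) : Polynomial A) : PowerSeries A)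
  have hdiv : ∀ i j, ∃ g : PowerSeries A, C' i j = C i j + PowerSeries.X ^ N * g := by
    intro i j
    have : PowerSeries.X ^ N ∣ C' i j - C i j := by
      rw [PowerSeries.X_pow_dvd_iff]
      intro m hm
      rw [map_sub, sub_eq_zero]
      simp only [C', Polynomial.coeff_coe, PowerSeries.coeff_trunc, if_pos hm]
    obtain ⟨g, hg⟩ := this
    exact ⟨g, by rw [← hg]; ring⟩
  choose G hG using hdiv
  have hC' : C' = C + (PowerSeries.X ^ N : PowerSeries A) • (Matrix.of G) := by
    ext1 i j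
    rw [Matrix.add_apply, Matrix.smul_apply, smul_eq_mul, hG]
    rfl
  have hBB : B * B⁻¹ = 1 := Matrix.mul_nonsing_inv B hB
  have hDC : D * C = (PowerSeries.X ^ (e + e') : PowerSeries A) • (1 : Matrix n n (PowerSeries A)) := by
    have hinj : Function.Injective φ := HahnSeries.ofPowerSeries_injective
    have : (D * C).map φ = ((PowerSeries.X ^ (e + e') : PowerSeries A) • (1 : Matrix n n (PowerSeries A))).map φ := by
      rw [Matrix.map_mul, ← hD, ← hC, Matrix.smul_mul, Matrix.mul_smul, hBB, smul_smul]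
      ext1 i j
      rw [Matrix.smul_apply, Matrix.map_apply, Matrix.smul_apply, smul_eq_mul, smul_eq_mul, map_mul,
        map_pow, hφ, HahnSeries.ofPowerSeries_X, HahnSeries.single_mul_single, HahnSeries.single_pow]
      congr 1
      · simp
      · by_cases hij : i = j
        · subst hij; simp
        · simp [hij]
    ext1 i j
    have h2 := congrFun (congrFun this i) j
    exact hinj h2
  have hDC' : D * C' = (PowerSeries.X ^ (e + e') : PowerSeries A) •
      (1 + (PowerSeries.X : PowerSeries A) • (D * Matrix.of G)) := by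
    rw [hC', Matrix.mul_add, hDC, Matrix.mul_smul, smul_add, smul_smul, hN, pow_succ]
  obtain ⟨B1, B2, hB12, h1, h2, h3, h4⟩ := cartan A1 A2 hA (1 + (PowerSeries.X : PowerSeries A) • (D * Matrix.of G)) (by
    ext i j
    simp [cM, Matrix.add_apply, Matrix.one_apply])
  refine ⟨B1, B2, P', e', h1, h2, h3, h4, ?_⟩
  have hPC : P'.map (fun p => φ (p : PowerSeries A)) = C'.map φ := by ext1 i j; rfl
  rw [hPC]
  have h7 : (HahnSeries.single (e : ℤ) (1 : A)) • (B * ((HahnSeries.single (-(e' : ℤ)) (1 : A)) • C'.map φ)) =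
      (HahnSeries.single (e : ℤ) (1 : A)) • (B1.map φ * B2.map φ) := by
    rw [← Matrix.smul_mul, hD, Matrix.mul_smul, ← Matrix.map_mul, hDC', ← Matrix.map_mul, ← hB12]
    ext1 i j
    rw [Matrix.smul_apply, Matrix.smul_apply, Matrix.map_apply, Matrix.map_apply, Matrix.smul_apply, smul_eq_mul, smul_eq_mul, smul_eq_mul,
      map_mul, map_pow, hφ, HahnSeries.ofPowerSeries_X, HahnSeries.single_pow, ← mul_assoc, HahnSeries.single_mul_single]
    congr 2
    · simp
    · simp
  have h8 : (HahnSeries.single (e : ℤ) (1 : A)) ≠ 0 := by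
    rw [Ne, HahnSeries.single_eq_zero_iff]; exact one_ne_zero
  exact smul_right_injective _ h8 h7

theorem lift_ps {A : Type*} [CommRing A] (A0 : Subring A) (f : PowerSeries A)
    (hf : ∀ m, PowerSeries.coeff m f ∈ A0) : ∃ g : PowerSeries A0, PowerSeries.map A0.subtype g = f := by
  refine ⟨PowerSeries.mk fun m => ⟨PowerSeries.coeff m f, hf m⟩, ?_⟩
  ext m
  simp

theorem ps_inv {A : Type*} [CommRing A] (A0 : Subring A) (B : Matrix n n (PowerSeries A))
    (hB : ∀ i j m, PowerSeries.coeff m (B i j) ∈ A0) (h0 : cM 0 B = 1) :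
    ∃ C : Matrix n n (PowerSeries A), (∀ i j m, PowerSeries.coeff m (C i j) ∈ A0) ∧ B * C = 1 ∧ C * B = 1 := by
  choose g hg using fun i j => lift_ps A0 (B i j) (hB i j)
  let G : Matrix n n (PowerSeries A0) := Matrix.of g
  have hG : G.map (PowerSeries.map A0.subtype) = B := by ext1 i j; exact hg i j
  have hu : IsUnit G.det := by
    rw [PowerSeries.isUnit_iff_constantCoeff]
    have h5 : PowerSeries.constantCoeff G.det = (G.map (PowerSeries.constantCoeff)).det := by
      rw [← RingHom.mapMatrix_apply, ← RingHom.map_det]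
    have h6 : G.map (PowerSeries.constantCoeff (R := A0)) = 1 := by
      ext i j
      have h7 := congrFun (congrFun h0 i) j
      rw [cM, ← hG] at h7
      simp only [Matrix.map_apply, PowerSeries.coeff_map] at h7
      have h8 : (((1 : Matrix n n A0) i j : A0) : A) = (1 : Matrix n n A) i j := by
        rw [Matrix.one_apply, Matrix.one_apply]; split_ifs <;> simp
      rw [h8, ← h7]
      simp
    rw [h5, h6]
    simp
  refine ⟨(G⁻¹).map (PowerSeries.map A0.subtype), ?_, ?_, ?_⟩
  · intro i j m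
    rw [Matrix.map_apply, PowerSeries.coeff_map]
    exact (PowerSeries.coeff m (G⁻¹ i j)).2
  · rw [← hG, ← Matrix.map_mul, Matrix.mul_nonsing_inv _ hu]
    ext1 i j
    by_cases hij : i = j
    · subst hij; simp
    · simp [hij]
  · rw [← hG, ← Matrix.map_mul, Matrix.nonsing_inv_mul _ hu]
    ext1 i j
    by_cases hij : i = j
    · subst hij; simp
    · simp [hij]

/-- `k[1/s]` in `k((s))` -/
def polyPart (k : Type*) [Field k] : Subring (LaurentSeries k) where
  carrier := {f | ∀ j, 0 < j → f.coeff j = 0}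
  mul_mem' := by
    intro a b ha hb j hj
    rw [HahnSeries.coeff_mul]
    refine Finset.sum_eq_zero fun y hy => ?_
    have hy' := (Finset.mem_antidiagonal.mp hy).2.2
    rcases lt_or_ge 0 y.1 with h | h
    · rw [ha _ h, zero_mul]
    · rw [hb _ (by omega), mul_zero]
  one_mem' := by
    intro j hj
    rw [HahnSeries.coeff_one, if_neg (ne_of_gt hj)]
  add_mem' := by
    intro a b ha hb j hj
    rw [HahnSeries.coeff_add, ha j hj, hb j hj, add_zero]
  zero_mem' := by
    intro j _
    rw [HahnSeries.coeff_zero]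
  neg_mem' := by
    intro a ha j hj
    rw [HahnSeries.coeff_neg, ha j hj, neg_zero]

/-- `k[[s]]` in `k((s))` -/
def powPart (k : Type*) [Field k] : Subring (LaurentSeries k) where
  carrier := {f | ∀ j, j < 0 → f.coeff j = 0}
  mul_mem' := by
    intro a b ha hb j hj
    rw [HahnSeries.coeff_mul]
    refine Finset.sum_eq_zero fun y hy => ?_
    have hy' := (Finset.mem_antidiagonal.mp hy).2.2
    rcases lt_or_ge y.1 0 with h | h
    · rw [ha _ h, zero_mul]
    · rw [hb _ (by omega), mul_zero]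
  one_mem' := by
    intro j hj
    rw [HahnSeries.coeff_one, if_neg (ne_of_lt hj)]
  add_mem' := by
    intro a b ha hb j hj
    rw [HahnSeries.coeff_add, ha j hj, hb j hj, add_zero]
  zero_mem' := by
    intro j _
    rw [HahnSeries.coeff_zero]
  neg_mem' := by
    intro a ha j hj
    rw [HahnSeries.coeff_neg, ha j hj, neg_zero]

theorem poly_add_pow {k : Type*} [Field k] (a : LaurentSeries k) :
    ∃ b ∈ polyPart k, ∃ c ∈ powPart k, a = b + c := by
  have hS : {j : ℤ | j ≤ 0 ∧ j ∈ a.support}.IsPWO := a.isPWO_support.mono (fun j hj => hj.2)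
  let b : LaurentSeries k :=
    { coeff := fun j => if j ≤ 0 then a.coeff j else 0
      isPWO_support' := a.isPWO_support.mono (fun j hj => by
        rw [Function.mem_support] at hj
        rw [HahnSeries.mem_support]
        intro h
        apply hj
        split_ifs
        · exact h
        · rfl) }
  refine ⟨b, ?_, a - b, ?_, by ring⟩
  · intro j hj
    show (if j ≤ 0 then a.coeff j else 0) = 0
    rw [if_neg (not_le.mpr hj)]
  · intro j hj
    rw [HahnSeries.coeff_sub]
    show a.coeff j - (if j ≤ 0 then a.coeff j else 0) = 0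
    rw [if_pos hj.le, sub_self]

theorem ofPS_coeff {A : Type*} [CommRing A] (f : PowerSeries A) (m : ℤ) :
    (HahnSeries.ofPowerSeries ℤ A f).coeff m = if m < 0 then 0 else PowerSeries.coeff m.natAbs f := by
  exact PowerSeries.coeff_coe f m

theorem ofPS_R1 {k : Type*} [Field k] (f : PowerSeries (LaurentSeries k))
    (hf : ∀ m, PowerSeries.coeff m f ∈ polyPart k) : HahnSeries.ofPowerSeries ℤ _ f ∈ R1 k := by
  intro m j hj
  rw [ofPS_coeff]
  split_ifs
  · rw [HahnSeries.coeff_zero]
  · exact hf _ j hj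

theorem ofPS_R2 {k : Type*} [Field k] (f : PowerSeries (LaurentSeries k))
    (hf : ∀ m, PowerSeries.coeff m f ∈ powPart k) : HahnSeries.ofPowerSeries ℤ _ f ∈ R2 k := by
  refine ⟨0, fun m j hj => ?_⟩
  rw [ofPS_coeff]
  split_ifs
  · rw [HahnSeries.coeff_zero]
  · exact hf _ j hj

theorem single_R1 {k : Type*} [Field k] (m : ℤ) : (HahnSeries.single m (1 : LaurentSeries k)) ∈ R1 k := by
  intro m' j hj
  rw [HahnSeries.coeff_single]
  split_ifs
  · rw [HahnSeries.coeff_one, if_neg (ne_of_gt hj)]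
  · rw [HahnSeries.coeff_zero]

theorem single_R2 {k : Type*} [Field k] (m : ℤ) (a : LaurentSeries k) : (HahnSeries.single m a) ∈ R2 k := by
  refine ⟨a.order, fun m' j hj => ?_⟩
  rw [HahnSeries.coeff_single]
  split_ifs
  · exact HahnSeries.coeff_eq_zero_of_lt_order hj
  · rw [HahnSeries.coeff_zero]

theorem poly_R2 {k : Type*} [Field k] (p : Polynomial (LaurentSeries k)) :
    HahnSeries.ofPowerSeries ℤ (LaurentSeries k) (p : PowerSeries (LaurentSeries k)) ∈ R2 k := by
  induction p using Polynomial.induction_on' with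
  | add p q hp hq =>
    rw [Polynomial.coe_add, map_add]
    exact Subring.add_mem _ hp hq
  | monomial m a =>
    rw [← Polynomial.C_mul_X_pow_eq_monomial, Polynomial.coe_mul, Polynomial.coe_C, Polynomial.coe_pow, Polynomial.coe_X,
      map_mul, map_pow, HahnSeries.ofPowerSeries_C, HahnSeries.ofPowerSeries_X]
    refine Subring.mul_mem _ ?_ (Subring.pow_mem _ ?_ m)
    · rw [HahnSeries.C_apply]; exact single_R2 0 a
    · exact single_R2 1 (1 : LaurentSeries k)

theorem Q_add {k : Type*} [Field k] (q : LaurentSeries (LaurentSeries k)) :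
    ∃ a ∈ R1 k, ∃ b ∈ R2 k, q = a + b := by
  classical
  choose p hp r hr hpr using fun a : LaurentSeries k => poly_add_pow a
  let a : LaurentSeries (LaurentSeries k) :=
    { coeff := fun m => if q.coeff m = 0 then 0 else p (q.coeff m)
      isPWO_support' := q.isPWO_support.mono (fun m hm => by
        rw [Function.mem_support] at hm
        rw [HahnSeries.mem_support]
        intro h
        apply hm
        rw [if_pos h]) }
  have ha : ∀ m, a.coeff m = if q.coeff m = 0 then 0 else p (q.coeff m) := fun m => rfl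
  refine ⟨a, ?_, q - a, ⟨0, ?_⟩, by ring⟩
  · intro m j hj
    rw [ha]
    split_ifs
    · rw [HahnSeries.coeff_zero]
    · exact hp _ j hj
  · intro m j hj
    rw [HahnSeries.coeff_sub, ha]
    split_ifs with h
    · rw [h, sub_zero, HahnSeries.coeff_zero]
    · have : q.coeff m - p (q.coeff m) = r (q.coeff m) := by
        rw [sub_eq_iff_eq_add]
        conv_lhs => rw [hpr (q.coeff m)]
        rw [add_comm]
      rw [this]
      exact hr _ j hj

theorem InGL_R1 {k : Type*} [Field k] (B : Matrix n n (PowerSeries (LaurentSeries k)))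
    (hB : ∀ i j m, PowerSeries.coeff m (B i j) ∈ polyPart k) (h0 : cM 0 B = 1) :
    InGL (R1 k) (B.map (HahnSeries.ofPowerSeries ℤ _)) := by
  obtain ⟨C, h1, h2, h3⟩ := ps_inv _ B hB h0
  refine ⟨fun i j => ofPS_R1 _ (hB i j), C.map (HahnSeries.ofPowerSeries ℤ _), fun i j => ofPS_R1 _ (h1 i j), ?_, ?_⟩
  · rw [← Matrix.map_mul, h2]
    ext1 i j
    by_cases hij : i = j
    · subst hij; simp
    · simp [hij]
  · rw [← Matrix.map_mul, h3]
    ext1 i j
    by_cases hij : i = j
    · subst hij; simp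
    · simp [hij]

theorem InGL_R2 {k : Type*} [Field k] (B : Matrix n n (PowerSeries (LaurentSeries k)))
    (hB : ∀ i j m, PowerSeries.coeff m (B i j) ∈ powPart k) (h0 : cM 0 B = 1) :
    InGL (R2 k) (B.map (HahnSeries.ofPowerSeries ℤ _)) := by
  obtain ⟨C, h1, h2, h3⟩ := ps_inv _ B hB h0
  refine ⟨fun i j => ofPS_R2 _ (hB i j), C.map (HahnSeries.ofPowerSeries ℤ _), fun i j => ofPS_R2 _ (h1 i j), ?_, ?_⟩
  · rw [← Matrix.map_mul, h2]
    ext1 i j
    by_cases hij : i = j
    · subst hij; simp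
    · simp [hij]
  · rw [← Matrix.map_mul, h3]
    ext1 i j
    by_cases hij : i = j
    · subst hij; simp
    · simp [hij]

theorem Q_mul {k : Type*} [Field k] (q : LaurentSeries (LaurentSeries k)) (hq : q ≠ 0) :
    ∃ u ∈ R1 k, ∃ v ∈ R2 k, u⁻¹ ∈ R1 k ∧ v⁻¹ ∈ R2 k ∧ u ≠ 0 ∧ v ≠ 0 ∧ q = u * v := by
  set a := q.leadingCoeff with ha
  have ha0 : a ≠ 0 := HahnSeries.leadingCoeff_ne_zero.mpr hq
  set d := q.order with hd
  -- `q = t^d a f`, `f ≡ 1`
  let f : PowerSeries (LaurentSeries k) := PowerSeries.C a⁻¹ * q.powerSeriesPart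
  have hf0 : cM 0 (fun _ _ => f : Matrix Unit Unit (PowerSeries (LaurentSeries k))) = 1 := by
    ext1 i j
    show PowerSeries.coeff 0 f = _
    have : PowerSeries.coeff 0 q.powerSeriesPart = a := by
      rw [LaurentSeries.powerSeriesPart_coeff]
      simp only [Nat.cast_zero, add_zero]
      exact (HahnSeries.leadingCoeff_eq).symm
    simp only [f]
    rw [PowerSeries.coeff_C_mul, this, inv_mul_cancel₀ ha0]
    simp
  obtain ⟨B1, B2, hB, h1, h2, h3, h4⟩ := cartan (n := Unit) (polyPart k) (powPart k) poly_add_pow _ hf0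
  obtain ⟨k1, C1, k2, k3, _⟩ := InGL_R1 B1 h1 h3
  obtain ⟨l1, C2, l2, l3, _⟩ := InGL_R2 B2 h2 h4
  have e1 : (HahnSeries.ofPowerSeries ℤ _ (B1 () ())) * C1 () () = 1 := by
    have := congrFun (congrFun k3 ()) ()
    simpa [Matrix.mul_apply] using this
  have e2 : (HahnSeries.ofPowerSeries ℤ _ (B2 () ())) * C2 () () = 1 := by
    have := congrFun (congrFun l3 ()) ()
    simpa [Matrix.mul_apply] using this
  have e3 : f = B1 () () * B2 () () := by
    have := congrFun (congrFun hB ()) ()
    simpa [Matrix.mul_apply] using this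
  have e4 : (HahnSeries.single d a) * (HahnSeries.single (-d) a⁻¹) = (1 : LaurentSeries (LaurentSeries k)) := by
    rw [HahnSeries.single_mul_single, mul_inv_cancel₀ ha0]; simp
  have e5 : q = (HahnSeries.single d a) * HahnSeries.ofPowerSeries ℤ _ f := by
    simp only [f]
    rw [map_mul, HahnSeries.ofPowerSeries_C, HahnSeries.C_apply, ← mul_assoc, HahnSeries.single_mul_single, mul_inv_cancel₀ ha0,
      add_zero, hd, LaurentSeries.single_order_mul_powerSeriesPart]
  refine ⟨HahnSeries.ofPowerSeries ℤ _ (B1 () ()), k1 () (), (HahnSeries.single d a) * HahnSeries.ofPowerSeries ℤ _ (B2 () ()),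
    Subring.mul_mem _ (single_R2 _ _) (l1 () ()), ?_, ?_, ?_, ?_, ?_⟩
  · rw [inv_eq_of_mul_eq_one_right e1]; exact k2 () ()
  · rw [mul_inv, inv_eq_of_mul_eq_one_right e4, inv_eq_of_mul_eq_one_right e2]
    exact Subring.mul_mem _ (single_R2 _ _) (l2 () ())
  · intro h; rw [h, zero_mul] at e1; exact zero_ne_one e1
  · refine mul_ne_zero ?_ ?_
    · intro h; rw [h, zero_mul] at e4; exact zero_ne_one e4
    · intro h; rw [h, zero_mul] at e2; exact zero_ne_one e2
  · rw [e5, e3, map_mul]; ring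

theorem entries_inv {Q : Type*} [Field Q] (R : Subring Q) (B A' : Matrix n n Q)
    (hB : ∀ i j, B i j ∈ R) (hA : ∀ i j, A' i j ∈ R) (h0 : A'.det ≠ 0) (i j : n) :
    ∃ b ∈ R, ∃ c ∈ R, c ≠ 0 ∧ (B * A'⁻¹) i j = b / c := by
  refine ⟨(B * A'.adjugate) i j, mul_entries _ hB (adj_mem _ hA) i j, A'.det, det_mem _ hA, h0, ?_⟩
  rw [Matrix.inv_def, Ring.inverse_eq_inv', Matrix.mul_smul, Matrix.smul_apply, smul_eq_mul, div_eq_inv_mul]

/-- **Integral factorisation.** `GL_n(k((s))((t))) = GL_n(k[x]((t))) · GL_n(k[[s]]((t))[1/s])`. -/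
theorem patch_GL {k : Type*} [Field k] (B : Matrix n n (LaurentSeries (LaurentSeries k))) (hB : B.det ≠ 0) :
    ∃ B1 B2 : Matrix n n (LaurentSeries (LaurentSeries k)), InGL (R1 k) B1 ∧ InGL (R2 k) B2 ∧ B = B1 * B2 := by
  obtain ⟨B1, B2, P, e, h1, h2, h3, h4, h5⟩ := gl_factor2 (polyPart k) (powPart k) poly_add_pow B (isUnit_iff_ne_zero.mpr hB)
  set φ := HahnSeries.ofPowerSeries ℤ (LaurentSeries k) with hφ
  set A' : Matrix n n (LaurentSeries (LaurentSeries k)) := (HahnSeries.single (-(e : ℤ)) (1 : LaurentSeries k)) •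
        P.map (fun p => φ (p : PowerSeries (LaurentSeries k))) with hA'
  have i1 := InGL_R1 B1 h1 h3
  have i2 := InGL_R2 B2 h2 h4
  have hdetGL : ∀ (R : Subring (LaurentSeries (LaurentSeries k))) (M : Matrix n n (LaurentSeries (LaurentSeries k))), InGL R M → M.det ≠ 0 := by
    intro R M hM h0
    obtain ⟨_, C, _, hC, _⟩ := hM
    have := congrArg Matrix.det hC
    rw [Matrix.det_mul, h0, zero_mul, Matrix.det_one] at this
    exact zero_ne_one this
  have hA'det : A'.det ≠ 0 := by
    intro h0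
    have := congrArg Matrix.det h5
    rw [Matrix.det_mul, h0, mul_zero, Matrix.det_mul] at this
    exact mul_ne_zero (hdetGL _ _ i1) (hdetGL _ _ i2) this.symm
  have hA'mem : ∀ i j, A' i j ∈ R2 k := by
    intro i j
    rw [hA', Matrix.smul_apply, Matrix.map_apply, smul_eq_mul]
    exact Subring.mul_mem _ (single_R2 _ _) (poly_R2 _)
  have hunit : IsUnit A'.det := isUnit_iff_ne_zero.mpr hA'det
  set M := B2.map φ * A'⁻¹ with hM
  have hBM : B = B1.map φ * M := by
    rw [hM, ← Matrix.mul_assoc, ← h5, Matrix.mul_assoc, Matrix.mul_nonsing_inv _ hunit, Matrix.mul_one]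
  have hMdet : M.det ≠ 0 := by
    intro h0
    rw [hBM, Matrix.det_mul, h0, mul_zero] at hB
    exact hB rfl
  obtain ⟨T, V, hT, hV, hTV⟩ := lattice_step (R1 k) (R2 k) Q_add Q_mul M hMdet
    (entries_inv (R2 k) (B2.map φ) A' i2.1 hA'mem hA'det)
  exact ⟨B1.map φ * T, V, i1.mul hT, hV, by rw [hBM, hTV, Matrix.mul_assoc]⟩

end Pool.Agent.PatchGL
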