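import Pool.Agent.PGL.ES
import Pool.Agent.PGL.DED

set_option autoImplicit false

namespace Pool.Agent.PatchGL

open Finset Pool.QPC

section mem

variable (k : Type*) [Field k]

theorem j1_mem (x : LaurentSeries (Polynomial k)) : j1 k x ∈ R1 k := by
  intro m j hj
  rw [j1, mapHom_coeff, polY_coeff, if_neg (not_le.mpr hj)]

theorem j2_mem (x : LaurentSeries (Polynomial k)) : j2 k x ∈ R2 k := by
  refine ⟨0, fun m j hj => ?_⟩
  rw [j2, mapHom_coeff, polS_coeff, if_neg (not_le.mpr hj)]

theorem YQ_mem : YQ k ∈ R2 k := by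
  refine ⟨-1, fun m j hj => ?_⟩
  rw [YQ, HahnSeries.C_apply, HahnSeries.coeff_single]
  split_ifs
  · rw [HahnSeries.coeff_single, if_neg (by omega)]
  · rw [HahnSeries.coeff_zero]

theorem j2L_mem (x : RL k) : j2L k x ∈ R2 k := by
  obtain ⟨⟨r, s⟩, h⟩ := IsLocalization.surj (Submonoid.powers (sgm k)) x
  obtain ⟨n, hn⟩ := s.2
  have h1 : j2L k x * j2 k (sgm k) ^ n = j2 k r := by
    have h2 := congrArg (j2L k) h
    rw [map_mul, j2L_alg, j2L_alg] at h2
    have hn' : sgm k ^ n = (s : LaurentSeries (Polynomial k)) := hn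
    rw [← map_pow, hn']
    exact h2
  have h3 : j2L k x = j2 k r * YQ k ^ n := by
    rw [← h1, mul_assoc, ← mul_pow, j2_sgm, one_pow, mul_one]
  rw [h3]
  exact Subring.mul_mem _ (j2_mem k r) (Subring.pow_mem _ (YQ_mem k) n)

end mem

section coords

variable {R B B' O : Type*} [CommRing R] [CommRing B] [CommRing B'] [CommRing O] [Algebra R O]
  {ι : Type*} [Fintype ι] [DecidableEq ι]

/-- element with given coordinates -/
noncomputable def ofC (f : R →+* B) (eta : Module.Basis ι R O) (c : ι → B) : S f O :=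
  ∑ i, c i • S.basis f eta i

theorem ofC_repr (f : R →+* B) (eta : Module.Basis ι R O) (c : ι → B) (i : ι) :
    (S.basis f eta).repr (ofC f eta c) i = c i := by
  rw [ofC, Module.Basis.repr_sum_self]

theorem S_ext (f : R →+* B) (eta : Module.Basis ι R O) {x y : S f O}
    (h : ∀ i, (S.basis f eta).repr x i = (S.basis f eta).repr y i) : x = y :=
  (S.basis f eta).repr.injective (Finsupp.ext h)

theorem map_ofC {f : R →+* B} {f' : R →+* B'} (eta : Module.Basis ι R O) (h : B →+* B') (hf : ∀ r, h (f r) = f' r)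
    (c : ι → B) : S.map h hf (ofC f eta c) = ofC f' eta (fun i => h (c i)) := by
  apply S_ext f' eta
  intro i
  rw [S.map_repr, ofC_repr, ofC_repr]

/-- lifting an element along an injective ring homomorphism -/
theorem exists_lift {f : R →+* B} {f' : R →+* B'} (eta : Module.Basis ι R O) (h : B →+* B') (hf : ∀ r, h (f r) = f' r)
    (x : S f' O) (hx : ∀ i, ∃ b, h b = (S.basis f' eta).repr x i) : ∃ y : S f O, S.map h hf y = x := by
  choose c hc using hx
  refine ⟨ofC f eta c, ?_⟩
  rw [map_ofC]
  apply S_ext f' eta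
  intro i
  rw [ofC_repr, hc]

/-- coordinates of a product -/
theorem repr_mul_ofC (f : R →+* B) (eta : Module.Basis ι R O) (g : S f O) (c : ι → B) (i : ι) :
    (S.basis f eta).repr (g * ofC f eta c) i =
      ∑ j, (S.basis f eta).repr (g * S.basis f eta j) i * c j := by
  rw [ofC, Finset.mul_sum, map_sum, Finsupp.coe_finsetSum, Finset.sum_apply]
  refine Finset.sum_congr rfl fun j _ => ?_
  rw [mul_smul_comm, map_smul, Finsupp.smul_apply, smul_eq_mul, mul_comm]

theorem one_repr (f : R →+* B) (eta : Module.Basis ι R O) (i : ι) :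
    (S.basis f eta).repr 1 i = f (eta.repr 1 i) := by
  rw [← map_one (S.inc f O), S.basis_repr_inc]

theorem ofC_one (f : R →+* B) (eta : Module.Basis ι R O) (c : ι → B) (h : ∀ i, c i = f (eta.repr 1 i)) :
    ofC f eta c = 1 := by
  apply S_ext f eta
  intro i
  rw [ofC_repr, one_repr, h]

end coords

end Pool.Agent.PatchGL
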