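import Pool.Agent.PGL.Glue1

set_option autoImplicit false

namespace Pool.Agent.PatchGL

open Finset Pool.QPC

section sq

variable {R B B1 B2 B' O : Type*} [CommRing R] [CommRing B] [CommRing B1] [CommRing B2] [CommRing B'] [CommRing O]
  [Algebra R O] {f : R →+* B} {f1 : R →+* B1} {f2 : R →+* B2} {f' : R →+* B'}

theorem S_map_congr (h h' : B →+* B') (hf : ∀ r, h (f r) = f' r) (hf' : ∀ r, h' (f r) = f' r)
    (H : ∀ b, h b = h' b) (x : S f O) : S.map h hf x = S.map h' hf' x := by
  have : h = h' := RingHom.ext H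
  subst this
  rfl

/-- commuting triangle -/
theorem S_map_tri (h : B →+* B1) (hf : ∀ r, h (f r) = f1 r) (h' : B1 →+* B') (hf' : ∀ r, h' (f1 r) = f' r)
    (h'' : B →+* B') (hf'' : ∀ r, h'' (f r) = f' r)
    (H : ∀ b, h' (h b) = h'' b) (x : S f O) : S.map h' hf' (S.map h hf x) = S.map h'' hf'' x := by
  rw [S.map_map]
  exact S_map_congr _ _ _ _ H x

/-- commuting square -/
theorem S_map_sq (h : B →+* B1) (hf : ∀ r, h (f r) = f1 r) (h' : B1 →+* B') (hf' : ∀ r, h' (f1 r) = f' r)
    (g : B →+* B2) (gf : ∀ r, g (f r) = f2 r) (g' : B2 →+* B') (gf' : ∀ r, g' (f2 r) = f' r)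
    (H : ∀ b, h' (h b) = g' (g b)) (x : S f O) :
    S.map h' hf' (S.map h hf x) = S.map g' gf' (S.map g gf x) := by
  rw [S.map_map, S.map_map]
  exact S_map_congr _ _ _ _ H x

end sq

section homs

variable (k : Type*) [Field k] (p : ℕ) [Fact p.Prime] [CharP k p]

/-- `k[v] → K[z]`, `v ↦ (z^p - z)/s^2` -/
noncomputable def phV : Polynomial k →+* Polynomial (LaurentSeries k) :=
  Polynomial.eval₂RingHom (Polynomial.C.comp HahnSeries.C) (vz p (HahnSeries.single (-2) 1))

omit [Fact p.Prime] [CharP k p] in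
theorem phV_X : phV k p Polynomial.X = vK k p := by
  simp [phV, vz, vK]

omit [CharP k p] in
theorem Phi_polY (f : Polynomial k) : Phi k p (polY k f) = jK k (phV k p f) := by
  have : (Phi k p).comp (polY k) = (jK k).comp (phV k p) := by
    apply Polynomial.ringHom_ext
    · intro a
      simp only [polY, phV, RingHom.comp_apply, Polynomial.coe_eval₂RingHom, Polynomial.eval₂_C]
      rw [Phi_C, jK_C]
    · rw [RingHom.comp_apply, RingHom.comp_apply, phV_X]
      simp only [polY, Polynomial.coe_eval₂RingHom, Polynomial.eval₂_X]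
      exact Phi_winv k p
  exact RingHom.congr_fun this f

theorem chi_phV (i : k) (hi : i ^ p = i) (f : Polynomial k) : chi k p i (phV k p f) = HahnSeries.C f := by
  have : (chi k p i).comp (phV k p) = HahnSeries.C := by
    apply Polynomial.ringHom_ext
    · intro a
      simp only [phV, RingHom.comp_apply, Polynomial.coe_eval₂RingHom, Polynomial.eval₂_C]
      rw [chi_C, kV, HahnSeries.C_apply, mapHom_C', HahnSeries.C_apply]
    · rw [RingHom.comp_apply, phV_X, chi_vK k p i hi]
  exact RingHom.congr_fun this f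

end homs

section glue

variable {k : Type*} [Field k] {p : ℕ} [Fact p.Prime] [CharP k p]
  {R O : Type*} [CommRing R] [CommRing O] [Algebra R O]
  {ι : Type*} [Fintype ι] [DecidableEq ι] (eta : Module.Basis ι R O)
  (f0 : R →+* Polynomial k) (fz : R →+* Polynomial (LaurentSeries k)) (hz : ∀ r, phV k p (f0 r) = fz r)
  (fw : R →+* LaurentSeries k) (hw : ∀ r, polY k (f0 r) = fw r)

/-- [L1] and [L2] -/
theorem glue_F (e : ι → k) (he : ∀ i, f0 (eta.repr 1 i) = Polynomial.C (e i)) (m r : ℕ)
    (f' : S f0 O) (g : S fw O)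
    (hg : ∀ i j, ∃ q : PowerSeries k, (S.basis fw eta).repr (g * S.basis fw eta j) i =
      (if i = j then 1 else 0) + HahnSeries.ofPowerSeries ℤ k (PowerSeries.X * q))
    (hfg : S.map (polY k) hw f' = (algebraMap (LaurentSeries k) (S fw O) (HahnSeries.single (-1) (1 : k)) ^ r * g) ^ m) :
    ∃ (F : S fz O) (al be : ι → PowerSeries (Polynomial k)),
      (∀ i, PowerSeries.constantCoeff (al i) = Polynomial.C (e i)) ∧
      (∀ i, PowerSeries.constantCoeff (be i) = Polynomial.C (e i)) ∧
      S.map (f' := (jY k).comp fz) (jY k) (fun _ => rfl) F =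
        S.map (f' := (jY k).comp fz) (jY k) (fun _ => rfl) (S.map (phV k p) hz f') *
          (ofC ((jY k).comp fz) eta (fun i => HahnSeries.ofPowerSeries ℤ _ (al i))) ^ m ∧
      S.map (f' := (jL k).comp fz) (jL k) (fun _ => rfl) F =
        (algebraMap (RL k) (S ((jL k).comp fz) O) (jL k (vK k p)) ^ r *
          ofC ((jL k).comp fz) eta (fun i => algebraMap _ (RL k) (HahnSeries.ofPowerSeries ℤ _ (be i)))) ^ m := by
  classical
  set fQ : R →+* LaurentSeries (LaurentSeries k) := (jK k).comp fz with hfQ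
  have c2 : ∀ r, Phi k p (fw r) = fQ r := by
    intro r
    rw [← hw, Phi_polY, hz]; rfl
  have c3 : ∀ r, j1 k (((jY k).comp fz) r) = fQ r := fun r => j1_jY k _
  have c4 : ∀ r, j2L k (((jL k).comp fz) r) = fQ r := fun r => j2L_jL k _
  -- the matrix
  choose q hq using hg
  let M : Matrix ι ι (PowerSeries (LaurentSeries k)) :=
    fun i j => (if i = j then 1 else 0) + Phi0 k p (PowerSeries.X * q i j)
  have hM : ∀ i j, (S.basis fQ eta).repr (S.map (Phi k p) c2 g * S.basis fQ eta j) i =
      HahnSeries.ofPowerSeries ℤ _ (M i j) := by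
    intro i j
    have h1 : S.basis fQ eta j = S.map (Phi k p) c2 (S.basis fw eta j) := by
      rw [S.basis_apply, S.basis_apply, S.map_inc]
    rw [h1, ← map_mul, S.map_repr, hq, map_add, Phi_ps]
    simp only [M]
    rw [map_add]
    congr 1
    split_ifs <;> simp
  have hMmem : ∀ i j m, PowerSeries.coeff m (M i j) ∈ lpoly k := by
    intro i j m
    simp only [M]
    rw [map_add]
    refine Subring.add_mem _ ?_ (Phi0_mem k p _ m)
    split_ifs
    · rw [PowerSeries.coeff_one]
      split_ifs
      · exact Subring.one_mem _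
      · exact Subring.zero_mem _
    · rw [map_zero]; exact Subring.zero_mem _
  have hM0 : cM 0 M = 1 := by
    ext1 i j
    show PowerSeries.coeff 0 (M i j) = _
    simp only [M]
    rw [map_add, Phi0_zero]
    simp only [PowerSeries.coeff_zero_X_mul, map_zero, add_zero, Matrix.one_apply]
    split_ifs <;> simp
  obtain ⟨al0, be0, a1, b1, a2, b2, hab⟩ := L1 M hMmem hM0 e
  -- lift to polynomials
  have liftY : ∀ i, ∃ a : PowerSeries (Polynomial k), PowerSeries.map (polY k) a = al0 i := by
    intro i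
    choose c hc using fun m => mem_polyPart_iff k _ (a1 i m)
    exact ⟨PowerSeries.mk c, by ext1 m; rw [PowerSeries.coeff_map, PowerSeries.coeff_mk, hc]⟩
  have liftS : ∀ i, ∃ a : PowerSeries (Polynomial k), PowerSeries.map (polS k) a = be0 i := by
    intro i
    choose c hc using fun m => mem_polyS_iff k _ (b1 i m)
    exact ⟨PowerSeries.mk c, by ext1 m; rw [PowerSeries.coeff_map, PowerSeries.coeff_mk, hc]⟩
  choose al hal using liftY
  choose be hbe using liftS
  have hal0 : ∀ i, PowerSeries.constantCoeff (al i) = Polynomial.C (e i) := by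
    intro i
    apply polY_injective k
    rw [← PowerSeries.coeff_zero_eq_constantCoeff_apply, ← PowerSeries.coeff_map, hal, a2]
    simp [polY]
  have hbe0 : ∀ i, PowerSeries.constantCoeff (be i) = Polynomial.C (e i) := by
    intro i
    apply polS_injective k
    rw [← PowerSeries.coeff_zero_eq_constantCoeff_apply, ← PowerSeries.coeff_map, hbe, b2]
    simp [polS]
  set alY : S ((jY k).comp fz) O := ofC ((jY k).comp fz) eta (fun i => HahnSeries.ofPowerSeries ℤ _ (al i)) with halY
  set beL : S ((jL k).comp fz) O := ofC ((jL k).comp fz) eta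
    (fun i => algebraMap _ (RL k) (HahnSeries.ofPowerSeries ℤ _ (be i))) with hbeL
  have halQ : S.map (j1 k) c3 alY = ofC fQ eta (fun i => HahnSeries.ofPowerSeries ℤ _ (al0 i)) := by
    rw [halY, map_ofC]
    congr 1
    funext i
    rw [j1, mapHom_ofPS, hal]
  have hbeQ : S.map (j2L k) c4 beL = ofC fQ eta (fun i => HahnSeries.ofPowerSeries ℤ _ (be0 i)) := by
    rw [hbeL, map_ofC]
    congr 1
    funext i
    rw [j2L_alg, j2, mapHom_ofPS, hbe]
  -- `g al = be`
  have hgab : S.map (Phi k p) c2 g * S.map (j1 k) c3 alY = S.map (j2L k) c4 beL := by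
    rw [halQ, hbeQ]
    apply S_ext fQ eta
    intro i
    rw [repr_mul_ofC, ofC_repr]
    have h1 := congrFun hab i
    rw [← h1, Matrix.mulVec, dotProduct, map_sum]
    refine Finset.sum_congr rfl fun j _ => ?_
    rw [hM, map_mul]
  -- the element over `Q`
  have hfQ' : S.map (jK k) (fun _ => rfl) (S.map (phV k p) hz f') =
      (algebraMap (LaurentSeries (LaurentSeries k)) (S fQ O) (jK k (vK k p)) ^ r * S.map (Phi k p) c2 g) ^ m := by
    have h1 := congrArg (S.map (Phi k p) c2) hfg
    rw [S.map_map, map_pow, map_mul, map_pow, S.map_algebraMap, Phi_winv] at h1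
    rw [← h1, S.map_map]
    exact S_map_congr _ _ _ _ (fun b => (Phi_polY k p b).symm) f'
  have key : S.map (j1 k) c3 (S.map (f' := (jY k).comp fz) (jY k) (fun _ => rfl) (S.map (phV k p) hz f') * alY ^ m) =
      S.map (j2L k) c4 ((algebraMap (RL k) (S ((jL k).comp fz) O) (jL k (vK k p)) ^ r * beL) ^ m) := by
    rw [map_mul, map_pow, S_map_tri (jY k) _ (j1 k) _ (jK k) (fun _ => rfl) (fun b => j1_jY k b), hfQ', ← mul_pow,
      mul_assoc, hgab, map_pow, map_mul, map_pow, S.map_algebraMap, j2L_jL]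
  set FQ : S fQ O := S.map (j1 k) c3 (S.map (f' := (jY k).comp fz) (jY k) (fun _ => rfl) (S.map (phV k p) hz f') * alY ^ m)
    with hFQ
  obtain ⟨F, hF⟩ := exists_lift (f := fz) eta (jK k) (fun _ => rfl) FQ (by
    intro i
    refine jK_surj k _ ⟨?_, ?_⟩
    · rw [hFQ, S.map_repr]; exact j1_mem k _
    · rw [key, S.map_repr]; exact j2L_mem k _)
  refine ⟨F, al, be, hal0, hbe0, ?_, ?_⟩
  · apply S.map_injective eta (j1 k) c3 (j1_injective k)
    rw [← hFQ, ← hF]
    exact S_map_tri (jY k) _ (j1 k) _ (jK k) (fun _ => rfl) (fun b => j1_jY k b) F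
  · apply S.map_injective eta (j2L k) c4 (j2L_injective k)
    rw [← key, ← hF]
    exact S_map_tri (jL k) _ (j2L k) _ (jK k) (fun _ => rfl) (fun b => j2L_jL k b) F

end glue

end Pool.Agent.PatchGL
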