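import Pool.Agent.PGL.Glue2

set_option autoImplicit false

namespace Pool.Agent.PatchGL

open Finset Pool.QPC

section gen

variable {R O : Type*} [CommRing R] [CommRing O] [Algebra R O]
  {ι : Type*} [Fintype ι] [DecidableEq ι] (eta : Module.Basis ι R O)
  {B0 Bz BY B BP BV : Type*} [CommRing B0] [CommRing Bz] [CommRing BY] [CommRing B] [CommRing BP] [CommRing BV]
  {f0 : R →+* B0} {fz : R →+* Bz} {fY : R →+* BY} {fP : R →+* BP} {fV : R →+* BV}

theorem ofC_congr {f : R →+* B} (c c' : ι → B) (h : ∀ i, c i = c' i) : ofC f eta c = ofC f eta c' := by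
  rw [funext h]

/-- abstract form of [L5], first kind -/
theorem eval_gen1 (ph : B0 →+* Bz) (hz : ∀ r, ph (f0 r) = fz r) (j : Bz →+* BY) (hY : ∀ r, j (fz r) = fY r)
    (E : BY →+* BV) (hE : ∀ r, E (fY r) = fV r) (c : Bz →+* BV) (hc : ∀ r, c (fz r) = fV r) (hEj : ∀ b, E (j b) = c b)
    (C : B0 →+* BP) (hP : ∀ r, C (f0 r) = fP r) (o : BP →+* BV) (hV : ∀ r, o (fP r) = fV r)
    (hph : ∀ b, c (ph b) = o (C b)) (m : ℕ) (f' : S f0 O) (F : S fz O) (al : ι → BY) (al' : ι → BP)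
    (hal : ∀ i, E (al i) = o (al' i))
    (h : S.map j hY F = S.map j hY (S.map ph hz f') * (ofC fY eta al) ^ m) :
    S.map o hV (S.map C hP f' * (ofC fP eta al') ^ m) = S.map c hc F := by
  have h1 := congrArg (S.map E hE) h
  rw [S_map_tri j hY E hE c hc hEj, map_mul, map_pow, map_ofC, S_map_tri j hY E hE c hc hEj] at h1
  rw [h1, map_mul, map_pow, map_ofC, ofC_congr eta _ _ (fun i => (hal i).symm),
    S_map_sq C hP o hV ph hz c hc (fun b => (hph b).symm)]

/-- abstract form of [L5], second kind -/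
theorem eval_gen2 (j : Bz →+* BY) (hY : ∀ r, j (fz r) = fY r)
    (E : BY →+* BV) (hE : ∀ r, E (fY r) = fV r) (c : Bz →+* BV) (hc : ∀ r, c (fz r) = fV r) (hEj : ∀ b, E (j b) = c b)
    (o : BP →+* BV) (hV : ∀ r, o (fP r) = fV r) (v : Bz) (v' : BP) (hv : c v = o v')
    (m r : ℕ) (F : S fz O) (al : ι → BY) (al' : ι → BP)
    (hal : ∀ i, E (al i) = o (al' i))
    (h : S.map j hY F = (algebraMap BY (S fY O) (j v) ^ r * ofC fY eta al) ^ m) :
    S.map o hV ((algebraMap BP (S fP O) v' ^ r * ofC fP eta al') ^ m) = S.map c hc F := by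
  have h1 := congrArg (S.map E hE) h
  rw [S_map_tri j hY E hE c hc hEj, map_pow, map_mul, map_pow, map_ofC, S.map_algebraMap, hEj, hv] at h1
  rw [h1, map_pow, map_mul, map_pow, map_ofC, ofC_congr eta _ _ (fun i => (hal i).symm), S.map_algebraMap]

/-- abstract form: reduction -/
theorem red_gen1 (C : B0 →+* BP) (hP : ∀ r, C (f0 r) = fP r) (c : BP →+* B0) (hc : ∀ r, c (fP r) = f0 r)
    (hcC : ∀ b, c (C b) = b) (m : ℕ) (f' : S f0 O) (al' : ι → BP) (hal : ∀ i, c (al' i) = f0 (eta.repr 1 i)) :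
    S.map c hc (S.map C hP f' * (ofC fP eta al') ^ m) = f' := by
  rw [map_mul, map_pow, map_ofC, ofC_one _ _ _ hal, one_pow, mul_one, S.map_map]
  exact S.map_id _ _ hcC _

theorem red_gen2 (c : BP →+* B0) (hc : ∀ r, c (fP r) = f0 r)
    (v : BP) (m r : ℕ) (al' : ι → BP) (hal : ∀ i, c (al' i) = f0 (eta.repr 1 i)) :
    S.map c hc ((algebraMap BP (S fP O) v ^ r * ofC fP eta al') ^ m) = algebraMap B0 (S f0 O) (c v ^ (r * m)) := by
  rw [map_pow, map_mul, map_pow, map_ofC, ofC_one _ _ _ hal, mul_one, S.map_algebraMap, pow_mul, map_pow, map_pow]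

end gen

section evals

variable {k : Type*} [Field k] {p : ℕ} [Fact p.Prime] [CharP k p]
  {R O : Type*} [CommRing R] [CommRing O] [Algebra R O]
  {ι : Type*} [Fintype ι] [DecidableEq ι] (eta : Module.Basis ι R O)
  (f0 : R →+* Polynomial k) (fz : R →+* Polynomial (LaurentSeries k)) (hz : ∀ r, phV k p (f0 r) = fz r)
  (fP : R →+* PowerSeries (Polynomial k)) (hP : ∀ r, PowerSeries.C (f0 r) = fP r)
  (fV : R →+* LaurentSeries (Polynomial k)) (hV : ∀ r, HahnSeries.ofPowerSeries ℤ (Polynomial k) (fP r) = fV r)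

include hP in
/-- [L5] for `i = 0` -/
theorem glue_eval0 (hc : ∀ r, chi k p 0 (fz r) = fV r)
    (hPc : ∀ r, PowerSeries.constantCoeff (fP r) = f0 r)
    (e : ι → k) (he : ∀ i, f0 (eta.repr 1 i) = Polynomial.C (e i)) (m : ℕ)
    (f' : S f0 O) (F : S fz O) (al : ι → PowerSeries (Polynomial k))
    (hal : ∀ i, PowerSeries.constantCoeff (al i) = Polynomial.C (e i))
    (h : S.map (f' := (jY k).comp fz) (jY k) (fun _ => rfl) F =
        S.map (f' := (jY k).comp fz) (jY k) (fun _ => rfl) (S.map (phV k p) hz f') *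
          (ofC ((jY k).comp fz) eta (fun i => HahnSeries.ofPowerSeries ℤ _ (al i))) ^ m) :
    ∃ F0 : S fP O, S.map (HahnSeries.ofPowerSeries ℤ (Polynomial k)) hV F0 = S.map (chi k p 0) hc F ∧
      S.map PowerSeries.constantCoeff hPc F0 = f' := by
  refine ⟨S.map PowerSeries.C hP f' * (ofC fP eta (fun i => EP (iot (yet k p)) (al i))) ^ m, ?_, ?_⟩
  · refine eval_gen1 eta (phV k p) hz (jY k) (fun _ => rfl) (EY k p) (fun r => ?_) (chi k p 0) hc (fun b => EY_jY k p b)
      PowerSeries.C hP _ hV (fun b => ?_) m f' F _ _ (fun i => ?_) h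
    · rw [RingHom.comp_apply, EY_jY, hc]
    · rw [chi_phV k p 0 (zero_pow (Fact.out : p.Prime).ne_zero), HahnSeries.ofPowerSeries_C]
    · rw [EY, EL_ps]
  · refine red_gen1 eta _ hP _ hPc (fun b => PowerSeries.constantCoeff_C b) m f' _ (fun i => ?_)
    rw [EPY_const, hal, he, Polynomial.coeff_C_zero]

/-- [L5] for `i ≠ 0` -/
theorem glue_evali (i : k) (hi0 : i ≠ 0) (hi : i ^ p = i) (hc : ∀ r, chi k p i (fz r) = fV r)
    (hPc : ∀ r, PowerSeries.constantCoeff (fP r) = f0 r)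
    (e : ι → k) (he : ∀ i, f0 (eta.repr 1 i) = Polynomial.C (e i)) (m r : ℕ)
    (F : S fz O) (be : ι → PowerSeries (Polynomial k))
    (hbe : ∀ i, PowerSeries.constantCoeff (be i) = Polynomial.C (e i))
    (h : S.map (f' := (jL k).comp fz) (jL k) (fun _ => rfl) F =
        (algebraMap (RL k) (S ((jL k).comp fz) O) (jL k (vK k p)) ^ r *
          ofC ((jL k).comp fz) eta (fun i => algebraMap _ (RL k) (HahnSeries.ofPowerSeries ℤ _ (be i)))) ^ m) :
    ∃ F0 : S fP O, S.map (HahnSeries.ofPowerSeries ℤ (Polynomial k)) hV F0 = S.map (chi k p i) hc F ∧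
      S.map PowerSeries.constantCoeff hPc F0 = algebraMap (Polynomial k) (S f0 O) (Polynomial.X ^ (r * m)) := by
  refine ⟨(algebraMap (PowerSeries (Polynomial k)) (S fP O) (PowerSeries.C Polynomial.X) ^ r *
    ofC fP eta (fun j => EP (iot (PowerSeries.X * izi k p i)) (be j))) ^ m, ?_, ?_⟩
  · refine eval_gen2 eta (jL k) (fun _ => rfl) (ESL k p i hi0) (fun r => ?_) (chi k p i) hc (fun b => ESL_jL k p i hi0 b)
      _ hV (vK k p) _ ?_ m r F _ _ (fun j => ?_) h
    · rw [RingHom.comp_apply, ESL_jL, hc]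
    · rw [chi_vK k p i hi, HahnSeries.ofPowerSeries_C]
    · rw [ESL_alg, ES, EL_ps]
  · have h2 := red_gen2 eta PowerSeries.constantCoeff hPc (PowerSeries.C Polynomial.X) m r
      (fun j => EP (iot (PowerSeries.X * izi k p i)) (be j)) (fun j => by
        rw [EPS_const, hbe, he, Polynomial.coeff_C_zero])
    rw [PowerSeries.constantCoeff_C] at h2
    exact h2

end evals

end Pool.Agent.PatchGL
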