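import Pool.Agent.PGL.Glue3

set_option autoImplicit false

namespace Pool.Agent.PatchGL

open Finset Pool.QPC IsDedekindDomain

theorem val_eq_of_sub_mem {D : Type*} [CommRing D] [IsDedekindDomain D] (w : HeightOneSpectrum D) {F : D} (hF : F ≠ 0) :
    ∃ N : ℕ, ∀ G, F - G ∈ w.asIdeal ^ N → w.intValuation F = w.intValuation G := by
  obtain ⟨n, hn⟩ : ∃ n : ℕ, w.intValuation F = WithZero.exp (-(n : ℤ)) := ⟨_, w.intValuation_if_neg hF⟩
  refine ⟨n + 1, fun G hG => ?_⟩
  have h1 := (w.intValuation_le_pow_iff_mem (F - G) (n + 1)).mpr hG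
  have h2 : w.intValuation (F - G) < w.intValuation F := by
    rw [hn]
    refine h1.trans_lt ?_
    rw [WithZero.exp_lt_exp]
    push_cast
    omega
  have h3 : G = F - (F - G) := by ring
  conv_rhs => rw [h3]
  exact (Valuation.map_sub_eq_of_lt_left _ h2).symm

section ker

variable {R B B' O : Type*} [CommRing R] [CommRing B] [CommRing B'] [CommRing O] [Algebra R O]
  {ι : Type*} [Fintype ι] [DecidableEq ι] (eta : Module.Basis ι R O)

include eta in
theorem ker_map {f : R →+* B} (b : B) {f' : R →+* B ⧸ Ideal.span {b}}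
    (hf : ∀ r, Ideal.Quotient.mk (Ideal.span {b}) (f r) = f' r) (x : S f O)
    (hx : S.map (Ideal.Quotient.mk (Ideal.span {b})) hf x = 0) : ∃ y, x = algebraMap B (S f O) b * y := by
  have h1 : ∀ i, ∃ c, (S.basis f eta).repr x i = b * c := by
    intro i
    have h2 := S.map_repr eta _ hf x i
    rw [hx, map_zero, Finsupp.zero_apply] at h2
    have h3 := Ideal.Quotient.eq_zero_iff_mem.mp h2.symm
    exact Ideal.mem_span_singleton.mp h3
  choose c hc using h1
  refine ⟨ofC f eta c, ?_⟩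
  apply S_ext f eta
  intro i
  rw [← Algebra.smul_def, map_smul, Finsupp.smul_apply, ofC_repr, hc, smul_eq_mul]

include eta in
/-- reduction of an identity modulo `b`, when `B → B/b` extends to `B'` -/
theorem red_id {f : R →+* B} {fY : R →+* B'} (b : B) (j : B →+* B') (hY : ∀ r, j (f r) = fY r)
    (h : B' →+* B ⧸ Ideal.span {b}) (hh : ∀ x, h (j x) = Ideal.Quotient.mk _ x)
    (F G : S f O) (A : S fY O) (m : ℕ) (he : S.map j hY F = S.map j hY G * A ^ m) :
    ∃ a y : S f O, F - G * a ^ m = algebraMap B (S f O) b * y := by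
  have hE : ∀ r, h (fY r) = ((Ideal.Quotient.mk (Ideal.span {b})).comp f) r := fun r => by
    rw [← hY, hh]; rfl
  have h1 := congrArg (S.map (f' := (Ideal.Quotient.mk (Ideal.span {b})).comp f) h hE) he
  rw [map_mul, map_pow, S_map_tri j hY h hE (Ideal.Quotient.mk (Ideal.span {b})) (fun _ => rfl) hh,
    S_map_tri j hY h hE (Ideal.Quotient.mk (Ideal.span {b})) (fun _ => rfl) hh] at h1
  obtain ⟨a, ha⟩ := exists_lift (f := f) eta (Ideal.Quotient.mk (Ideal.span {b})) (fun _ => rfl)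
    (S.map (f' := (Ideal.Quotient.mk (Ideal.span {b})).comp f) h hE A) (fun i => Ideal.Quotient.mk_surjective _)
  obtain ⟨y, hy⟩ := ker_map eta b (fun _ => rfl) (F - G * a ^ m) (by
    rw [map_sub, map_mul, map_pow, h1, ha, sub_self])
  exact ⟨a, y, hy⟩

end ker

section cert

variable {k : Type*} [Field k] {p : ℕ}
  {R O : Type*} [CommRing R] [CommRing O] [Algebra R O]
  {ι : Type*} [Fintype ι] [DecidableEq ι] (eta : Module.Basis ι R O)
  (fz : R →+* Polynomial (LaurentSeries k))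

include eta in
/-- [L4] -/
theorem glue_cert [IsDedekindDomain (S fz O)] {m : ℕ} (hm : 1 ≤ m) (F G : S fz O) (hF : F ≠ 0) (hG : Cert m G)
    (A : S ((jY k).comp fz) O) (B : S ((jL k).comp fz) O) (v : Polynomial (LaurentSeries k)) (r : ℕ)
    (h1 : S.map (f' := (jY k).comp fz) (jY k) (fun _ => rfl) F =
        S.map (f' := (jY k).comp fz) (jY k) (fun _ => rfl) G * A ^ m)
    (h2 : S.map (f' := (jL k).comp fz) (jL k) (fun _ => rfl) F =
        (algebraMap (RL k) (S ((jL k).comp fz) O) (jL k v) ^ r * B) ^ m) : Cert m F := by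
  refine cert_of_val hm hF fun w => ?_
  obtain ⟨N, hN⟩ := val_eq_of_sub_mem w hF
  haveI : Module.Finite (Polynomial (LaurentSeries k)) (S fz O) := Module.Finite.of_basis (S.basis fz eta)
  set 𝔭 := w.asIdeal.comap (algebraMap (Polynomial (LaurentSeries k)) (S fz O)) with h𝔭d
  have h𝔭 : 𝔭 ≠ ⊥ := by
    obtain ⟨x, hx, hx0⟩ := Submodule.exists_mem_ne_zero_of_ne_bot w.ne_bot
    exact Ideal.comap_ne_bot_of_integral_mem hx0 hx (Algebra.IsIntegral.isIntegral x)
  haveI : 𝔭.IsPrime := Ideal.comap_isPrime _ _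
  obtain ⟨P, hPp, hPw⟩ : ∃ P : Polynomial (LaurentSeries k), Prime P ∧
      algebraMap (Polynomial (LaurentSeries k)) (S fz O) P ∈ w.asIdeal :=
    ⟨Submodule.IsPrincipal.generator 𝔭, Submodule.IsPrincipal.prime_generator_of_isPrime 𝔭 h𝔭,
      Submodule.IsPrincipal.generator_mem 𝔭⟩
  have hQ0 : P ^ N ≠ 0 := pow_ne_zero _ hPp.ne_zero
  have hle : ∀ y, algebraMap (Polynomial (LaurentSeries k)) (S fz O) (P ^ N) * y ∈ w.asIdeal ^ N := by
    intro y
    rw [map_pow]
    exact Ideal.mul_mem_right _ _ (Ideal.pow_mem_pow hPw N)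
  rcases dich_z k P hPp.irreducible with hd | hd
  · have hd' : (jK k (P ^ N))⁻¹ ∈ R1 k := by
      rw [map_pow, ← inv_pow]; exact Subring.pow_mem _ hd N
    obtain ⟨h, hh⟩ := ext_z2 k (P ^ N) hQ0 hd'
    let j : RL k →+* R2 k := (j2L k).codRestrict (R2 k) (j2L_mem k)
    have hj : ∀ b, (h.comp j) (jL k b) = Ideal.Quotient.mk _ b := by
      intro b
      rw [RingHom.comp_apply]
      have : j (jL k b) = ⟨jK k b, (jK_mem k b).2⟩ := Subtype.ext (j2L_jL k b)
      rw [this, hh]
    obtain ⟨a, y, hy⟩ := red_id eta (P ^ N) (jL k) (fun _ => rfl) (h.comp j) hj F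
      ((algebraMap _ (S fz O) v ^ r) ^ m) B m (by
        rw [h2, mul_pow, map_pow, map_pow, S.map_algebraMap])
    refine ⟨algebraMap _ (S fz O) v ^ r * a, ?_⟩
    rw [← map_pow]
    refine hN _ ?_
    rw [mul_pow, hy]
    exact hle y
  · have hd' : (jK k (P ^ N))⁻¹ ∈ R2 k := by
      rw [map_pow, ← inv_pow]; exact Subring.pow_mem _ hd N
    obtain ⟨h, hh⟩ := ext_z1 k (P ^ N) hQ0 hd'
    let j : LaurentSeries (Polynomial k) →+* R1 k := (j1 k).codRestrict (R1 k) (j1_mem k)
    have hj : ∀ b, (h.comp j) (jY k b) = Ideal.Quotient.mk _ b := by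
      intro b
      rw [RingHom.comp_apply]
      have : j (jY k b) = ⟨jK k b, (jK_mem k b).1⟩ := Subtype.ext (j1_jY k b)
      rw [this, hh]
    obtain ⟨a, y, hy⟩ := red_id eta (P ^ N) (jY k) (fun _ => rfl) (h.comp j) hj F G A m h1
    obtain ⟨c, hc⟩ := val_of_cert hG w
    refine ⟨c * a, ?_⟩
    rw [hN (G * a ^ m) (by rw [hy]; exact hle y), map_mul, map_pow, hc, map_mul, mul_pow]

end cert

end Pool.Agent.PatchGL
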