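import Pool.Agent.PGL.Glue4

set_option autoImplicit false

namespace Pool.Agent.PatchGL

open Finset Pool.QPC

section inj

variable (k : Type*) [Field k]

theorem jY_injective : Function.Injective (jY k) := by
  intro a b h
  apply jK_injective k
  rw [← j1_jY, ← j1_jY, h]

variable (p : ℕ) [Fact p.Prime] [CharP k p]

/-- `K[z] → k[v]((s))`, `z ↦ i + ζ`, is injective -/
theorem chi_injective (i : k) : Function.Injective (chi k p i) := by
  let _ : Algebra (LaurentSeries k) (LaurentSeries (Polynomial k)) := (kV k).toAlgebra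
  have hjY : ∀ f, jY k f = Polynomial.aeval (HahnSeries.single 1 1 * HahnSeries.C Polynomial.X : LaurentSeries (Polynomial k)) f := by
    intro f; rfl
  have hchi : ∀ f, chi k p i f = Polynomial.aeval
      (HahnSeries.ofPowerSeries ℤ (Polynomial k) (PowerSeries.C (Polynomial.C i) + zet k p)) f := by
    intro f; rfl
  have t1 : Transcendental (LaurentSeries k) (HahnSeries.single 1 1 * HahnSeries.C Polynomial.X : LaurentSeries (Polynomial k)) := by
    rw [transcendental_iff_injective]
    intro a b hab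
    apply jY_injective k
    rw [hjY, hjY, hab]
  have hal : ∀ a : LaurentSeries k, algebraMap (LaurentSeries k) (LaurentSeries (Polynomial k)) a = kV k a := fun a => rfl
  set x : LaurentSeries (Polynomial k) :=
    HahnSeries.ofPowerSeries ℤ (Polynomial k) (PowerSeries.C (Polynomial.C i) + zet k p) with hx
  have t2 : Transcendental (LaurentSeries k) x := by
    intro hx1
    apply t1
    have h0 : x ^ p - x = HahnSeries.ofPowerSeries ℤ (Polynomial k) (PowerSeries.C (Polynomial.C (i ^ p - i))) +
        HahnSeries.single 1 1 * (HahnSeries.single 1 1 * HahnSeries.C Polynomial.X) := by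
      have h1 : x ^ p - x = HahnSeries.ofPowerSeries ℤ (Polynomial k) (PowerSeries.C (Polynomial.C (i ^ p - i))) +
          HahnSeries.ofPowerSeries ℤ (Polynomial k) (zet k p ^ p - zet k p) := by
        have : CharP (PowerSeries (Polynomial k)) p := charP_ps p
        rw [hx, ← map_pow, add_pow_char, ← map_sub, ← map_add]
        congr 1
        rw [map_sub, map_sub, map_pow, map_pow]
        ring
      rw [h1, zet_eq, map_mul, map_pow, HahnSeries.ofPowerSeries_X]
      simp only [HahnSeries.ofPowerSeries_C]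
      ring
    have h2 : IsAlgebraic (LaurentSeries k) (x ^ p - x) := (hx1.pow p).sub hx1
    have h3 : IsAlgebraic (LaurentSeries k) (HahnSeries.ofPowerSeries ℤ (Polynomial k) (PowerSeries.C (Polynomial.C (i ^ p - i)))) := by
      have : HahnSeries.ofPowerSeries ℤ (Polynomial k) (PowerSeries.C (Polynomial.C (i ^ p - i))) =
          algebraMap (LaurentSeries k) _ (HahnSeries.C (i ^ p - i)) := by
        rw [hal, kV, HahnSeries.ofPowerSeries_C, HahnSeries.C_apply, HahnSeries.C_apply, mapHom_C']
      rw [this]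
      exact isAlgebraic_algebraMap _
    have h4 : IsAlgebraic (LaurentSeries k) (HahnSeries.single (-1) 1 : LaurentSeries (Polynomial k)) := by
      have : (HahnSeries.single (-1) 1 : LaurentSeries (Polynomial k)) =
          algebraMap (LaurentSeries k) _ (HahnSeries.single (-1) 1) := by
        rw [hal, kV_s]
      rw [this]
      exact isAlgebraic_algebraMap _
    have h5 := h4.mul (h2.sub h3)
    rw [h0, add_sub_cancel_left, ← mul_assoc, HahnSeries.single_mul_single] at h5
    simpa using h5
  rw [transcendental_iff_injective] at t2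
  intro a b hab
  apply t2
  rw [← hchi, ← hchi, hab]

end inj

section final

variable {k : Type*} [Field k] {p : ℕ} [Fact p.Prime] [CharP k p]
  {R O : Type*} [CommRing R] [CommRing O] [Algebra R O]
  {ι : Type*} [Fintype ι] [DecidableEq ι] (eta : Module.Basis ι R O)

/-- **Gluing** (section 5). -/
theorem glue (f0 : R →+* Polynomial k)
    (fz : R →+* Polynomial (LaurentSeries k))
    (hz : ∀ r, Polynomial.eval₂ (Polynomial.C.comp HahnSeries.C) (vz p (HahnSeries.single (-2) 1)) (f0 r) = fz r)
    (fw : R →+* LaurentSeries k)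
    (hw : ∀ r, Polynomial.eval₂ HahnSeries.C (HahnSeries.single (-1) 1) (f0 r) = fw r)
    (fP : R →+* PowerSeries (Polynomial k)) (hP : ∀ r, PowerSeries.C (f0 r) = fP r)
    (fV : R →+* LaurentSeries (Polynomial k)) (hV : ∀ r, HahnSeries.C (f0 r) = fV r)
    [IsDedekindDomain (S fz O)]
    (m r : ℕ) (hm : 1 ≤ m) (e : ι → k) (he : ∀ i, f0 (eta.repr 1 i) = Polynomial.C (e i))
    (f' : S f0 O) (hf'0 : f' ≠ 0) (hf' : Cert m f') (g : S fw O)
    (hg : ∀ i j, ∃ q : PowerSeries k, (S.basis fw eta).repr (g * S.basis fw eta j) i =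
      (if i = j then 1 else 0) + HahnSeries.ofPowerSeries ℤ k (PowerSeries.X * q))
    (hfg : S.map (Polynomial.eval₂RingHom HahnSeries.C (HahnSeries.single (-1) 1)) hw f' =
      (algebraMap (LaurentSeries k) (S fw O) (HahnSeries.single (-1) (1 : k)) ^ r * g) ^ m) :
    ∃ F : S fz O, Cert m F ∧
      (∃ F0 : S fP O,
        (∀ (h1 : ∀ r, HahnSeries.ofPowerSeries ℤ (Polynomial k) (fP r) = fV r) (h2 : ∀ r, chi k p 0 (fz r) = fV r),
          S.map (HahnSeries.ofPowerSeries ℤ (Polynomial k)) h1 F0 = S.map (chi k p 0) h2 F) ∧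
        (∀ h3 : ∀ r, PowerSeries.constantCoeff (fP r) = f0 r, S.map PowerSeries.constantCoeff h3 F0 = f')) ∧
      ∀ i : k, i ≠ 0 → i ^ p = i → (∃ F0 : S fP O,
        (∀ (h1 : ∀ r, HahnSeries.ofPowerSeries ℤ (Polynomial k) (fP r) = fV r) (h2 : ∀ r, chi k p i (fz r) = fV r),
          S.map (HahnSeries.ofPowerSeries ℤ (Polynomial k)) h1 F0 = S.map (chi k p i) h2 F) ∧
        (∀ h3 : ∀ r, PowerSeries.constantCoeff (fP r) = f0 r,
          S.map PowerSeries.constantCoeff h3 F0 = algebraMap (Polynomial k) (S f0 O) (Polynomial.X ^ (r * m)))) := by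
  have hz' : ∀ r, phV k p (f0 r) = fz r := hz
  have hw' : ∀ r, polY k (f0 r) = fw r := hw
  have hV' : ∀ r, HahnSeries.ofPowerSeries ℤ (Polynomial k) (fP r) = fV r := fun r => by
    rw [← hP, HahnSeries.ofPowerSeries_C, hV]
  have hc : ∀ i : k, i ^ p = i → ∀ r, chi k p i (fz r) = fV r := fun i hi r => by
    rw [← hz', chi_phV k p i hi, hV]
  have hPc : ∀ r, PowerSeries.constantCoeff (fP r) = f0 r := fun r => by
    rw [← hP, PowerSeries.constantCoeff_C]
  have h0p : (0 : k) ^ p = 0 := zero_pow (Fact.out : p.Prime).ne_zero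
  obtain ⟨F, al, be, hal, hbe, id1, id2⟩ := glue_F eta f0 fz hz' fw hw' e he m r f' g hg hfg
  obtain ⟨F0, hF0, hF0c⟩ := glue_eval0 eta f0 fz hz' fP hP fV hV' (hc 0 h0p) hPc e he m f' F al hal id1
  have hF : F ≠ 0 := by
    rintro rfl
    rw [map_zero] at hF0
    have h1 : F0 = 0 := S.map_injective eta _ hV' HahnSeries.ofPowerSeries_injective (by rw [hF0, map_zero])
    rw [h1, map_zero] at hF0c
    exact hf'0 hF0c.symm
  refine ⟨F, ?_, ⟨F0, fun _ _ => hF0, fun _ => hF0c⟩, fun i hi0 hi => ?_⟩
  · exact glue_cert eta fz hm F (S.map (phV k p) hz' f') hF (hf'.map _) _ _ (vK k p) r id1 id2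
  · obtain ⟨Fi, h1, h2⟩ := glue_evali eta f0 fz fP fV hV' i hi0 hi (hc i hi) hPc e he m r F be hbe id2
    exact ⟨Fi, fun _ _ => h1, fun _ => h2⟩

end final

end Pool.Agent.PatchGL
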