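import Pool.Agent.PGL.L1

namespace Pool.Agent.PatchGL

open Finset

/-- Let `A, B` be subrings of a field with `A + B = Q`, `δ ∈ A ⊓ B` and `δ⁻¹ ∈ B`. Then the projection `A ⊓ B → (A ⊓ B) / δ` extends to `A`. -/
theorem ext_hom {Q : Type*} [Field Q] (A B : Subring Q) (hadd : ∀ q : Q, ∃ a ∈ A, ∃ b ∈ B, q = a + b)
    (δ : ↥(A ⊓ B)) (hδ0 : (δ : Q) ≠ 0) (hδ : (δ : Q)⁻¹ ∈ B) :
    ∃ h : A →+* (↥(A ⊓ B) ⧸ Ideal.span {δ}), ∀ x : ↥(A ⊓ B), h ⟨x, x.2.1⟩ = Ideal.Quotient.mk _ x := by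
  classical
  -- the two quotients
  let i : ↥(A ⊓ B) →+* A := Subring.inclusion inf_le_left
  let δA : A := i δ
  let f : ↥(A ⊓ B) →+* (A ⧸ Ideal.span {δA}) := (Ideal.Quotient.mk _).comp i
  have hker : ∀ x : ↥(A ⊓ B), f x = 0 ↔ x ∈ Ideal.span {δ} := by
    intro x
    rw [RingHom.comp_apply, Ideal.Quotient.eq_zero_iff_mem, Ideal.mem_span_singleton, Ideal.mem_span_singleton]
    constructor
    · rintro ⟨a, ha⟩
      have h1 : (x : Q) = δ * a := congrArg Subtype.val ha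
      have h2 : (a : Q) = x * (δ : Q)⁻¹ := by rw [h1]; field_simp
      exact ⟨⟨a, a.2, by rw [h2]; exact B.mul_mem x.2.2 hδ⟩, Subtype.ext h1⟩
    · rintro ⟨a, ha⟩
      exact ⟨i a, by rw [ha, map_mul]⟩
  have hsurj : Function.Surjective f := by
    intro y
    obtain ⟨a, rfl⟩ := Ideal.Quotient.mk_surjective y
    obtain ⟨a1, ha1, b1, hb1, h1⟩ := hadd ((a : Q) * (δ : Q)⁻¹)
    have h2 : (a : Q) = a1 * δ + b1 * δ := by
      rw [← add_mul, ← h1]; field_simp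
    have h3 : b1 * δ ∈ A ⊓ B := by
      refine ⟨?_, B.mul_mem hb1 δ.2.2⟩
      have : b1 * δ = a - a1 * δ := by rw [h2]; ring
      rw [this]
      exact A.sub_mem a.2 (A.mul_mem ha1 δ.2.1)
    refine ⟨⟨b1 * δ, h3⟩, ?_⟩
    rw [RingHom.comp_apply, Ideal.Quotient.eq, Ideal.mem_span_singleton]
    refine ⟨-⟨a1, ha1⟩, Subtype.ext ?_⟩
    show b1 * δ - a = δ * (-a1)
    rw [h2]; ring
  have hkerI : RingHom.ker f = Ideal.span {δ} := by
    ext x; rw [RingHom.mem_ker]; exact hker x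
  let e : (↥(A ⊓ B) ⧸ RingHom.ker f) ≃+* (A ⧸ Ideal.span {δA}) := RingHom.quotientKerEquivOfSurjective hsurj
  let e2 : (↥(A ⊓ B) ⧸ RingHom.ker f) ≃+* (↥(A ⊓ B) ⧸ Ideal.span {δ}) := Ideal.quotEquivOfEq hkerI
  refine ⟨(e2.toRingHom).comp ((e.symm.toRingHom).comp (Ideal.Quotient.mk _)), fun x => ?_⟩
  have h1 : e (Ideal.Quotient.mk _ x) = Ideal.Quotient.mk _ (i x) := rfl
  have h2 : e.symm (Ideal.Quotient.mk _ (i x)) = Ideal.Quotient.mk _ x := by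
    rw [← h1, RingEquiv.symm_apply_apply]
  show e2 (e.symm (Ideal.Quotient.mk _ (i x))) = _
  rw [h2]
  rfl

/-- dichotomy -/
theorem dich {Q : Type*} [Field Q] (A B : Subring Q)
    (hmul : ∀ q : Q, q ≠ 0 → ∃ u ∈ A, ∃ v ∈ B, u⁻¹ ∈ A ∧ v⁻¹ ∈ B ∧ u ≠ 0 ∧ v ≠ 0 ∧ q = u * v)
    (P : ↥(A ⊓ B)) (hP : Irreducible P) : (P : Q)⁻¹ ∈ A ∨ (P : Q)⁻¹ ∈ B := by
  have hP0 : (P : Q) ≠ 0 := fun h => hP.ne_zero (Subtype.ext h)
  obtain ⟨u, hu, v, hv, hu1, hv1, hu0, hv0, h⟩ := hmul _ hP0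
  have hu2 : u ∈ A ⊓ B := ⟨hu, by
    have : u = P * v⁻¹ := by rw [h]; field_simp
    rw [this]; exact B.mul_mem P.2.2 hv1⟩
  have hv2 : v ∈ A ⊓ B := ⟨by
    have : v = P * u⁻¹ := by rw [h]; field_simp
    rw [this]; exact A.mul_mem P.2.1 hu1, hv⟩
  have hPuv : P = ⟨u, hu2⟩ * ⟨v, hv2⟩ := Subtype.ext h
  rcases hP.isUnit_or_isUnit hPuv with hh | hh
  · right
    obtain ⟨w, hw⟩ := isUnit_iff_exists_inv.mp hh
    have hw' : u * (w : Q) = 1 := congrArg Subtype.val hw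
    have : (P : Q)⁻¹ = w * v⁻¹ := by
      rw [h, mul_inv, inv_eq_of_mul_eq_one_right hw']
    rw [this]; exact B.mul_mem w.2.2 hv1
  · left
    obtain ⟨w, hw⟩ := isUnit_iff_exists_inv.mp hh
    have hw' : v * (w : Q) = 1 := congrArg Subtype.val hw
    have : (P : Q)⁻¹ = u⁻¹ * w := by
      rw [h, mul_inv, inv_eq_of_mul_eq_one_right hw']
    rw [this]; exact A.mul_mem hu1 w.2.1

/-- the ring `R1 ⊓ R2` is `K[Y]` -/
noncomputable def PsiEquiv (k : Type*) [Field k] : Polynomial (LaurentSeries k) ≃+* ↥(R1 k ⊓ R2 k) :=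
  RingEquiv.ofBijective ((Psi k).codRestrict _ Psi_mem)
    ⟨fun a b h => Psi_injective k (congrArg Subtype.val h), fun y => by
      obtain ⟨p, hp⟩ := Psi_surj y.1 y.2
      exact ⟨p, Subtype.ext hp⟩⟩

theorem PsiEquiv_coe {k : Type*} [Field k] (p : Polynomial (LaurentSeries k)) : (PsiEquiv k p : LaurentSeries (LaurentSeries k)) = Psi k p := rfl

/-- an irreducible polynomial of `K[Y]` is a unit of `R1` or of `R2` -/
theorem dich_K {k : Type*} [Field k] (P : Polynomial (LaurentSeries k)) (hP : Irreducible P) :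
    (Psi k P)⁻¹ ∈ R1 k ∨ (Psi k P)⁻¹ ∈ R2 k := by
  have h : Irreducible (PsiEquiv k P) := (MulEquiv.irreducible_iff (PsiEquiv k).toMulEquiv).mpr hP
  have h2 := dich (R1 k) (R2 k) (fun q hq => Q_mul q hq) (PsiEquiv k P) h
  rw [PsiEquiv_coe] at h2
  exact h2

/-- the projection `K[Y] → K[Y]/(P)` extends to `R1` if `P` is a unit of `R2` -/
theorem ext_R1 {k : Type*} [Field k] (P : Polynomial (LaurentSeries k)) (hP0 : P ≠ 0) (hP : (Psi k P)⁻¹ ∈ R2 k) :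
    ∃ h : R1 k →+* (Polynomial (LaurentSeries k) ⧸ Ideal.span {P}),
      ∀ x, h ⟨Psi k x, (Psi_mem x).1⟩ = Ideal.Quotient.mk _ x := by
  obtain ⟨h, hh⟩ := ext_hom (R1 k) (R2 k) Q_add (PsiEquiv k P)
    (fun h0 => hP0 (Psi_injective k (by rw [map_zero]; exact h0))) hP
  let e : (↥(R1 k ⊓ R2 k) ⧸ Ideal.span {PsiEquiv k P}) ≃+* (Polynomial (LaurentSeries k) ⧸ Ideal.span {P}) :=
    (Ideal.quotientEquiv (Ideal.span {P}) (Ideal.span {PsiEquiv k P}) (PsiEquiv k) (by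
      rw [Ideal.map_span, Set.image_singleton]; rfl)).symm
  refine ⟨(e.toRingHom).comp h, fun x => ?_⟩
  have h1 := hh (PsiEquiv k x)
  have h2 : h ⟨Psi k x, (Psi_mem x).1⟩ = Ideal.Quotient.mk _ (PsiEquiv k x) := h1
  rw [RingHom.comp_apply, h2]
  show e _ = _
  rw [RingEquiv.symm_apply_eq, Ideal.quotientEquiv_mk]

/-- the projection `K[Y] → K[Y]/(P)` extends to `R2` if `P` is a unit of `R1` -/
theorem ext_R2 {k : Type*} [Field k] (P : Polynomial (LaurentSeries k)) (hP0 : P ≠ 0) (hP : (Psi k P)⁻¹ ∈ R1 k) :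
    ∃ h : R2 k →+* (Polynomial (LaurentSeries k) ⧸ Ideal.span {P}),
      ∀ x, h ⟨Psi k x, (Psi_mem x).2⟩ = Ideal.Quotient.mk _ x := by
  have hadd : ∀ q : LaurentSeries (LaurentSeries k), ∃ a ∈ R2 k, ∃ b ∈ R1 k, q = a + b := by
    intro q
    obtain ⟨a, ha, b, hb, h⟩ := Q_add q
    exact ⟨b, hb, a, ha, by rw [h, add_comm]⟩
  have hm : ∀ x, Psi k x ∈ R2 k ⊓ R1 k := fun x => ⟨(Psi_mem x).2, (Psi_mem x).1⟩
  let E : Polynomial (LaurentSeries k) ≃+* ↥(R2 k ⊓ R1 k) :=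
    RingEquiv.ofBijective ((Psi k).codRestrict _ hm)
    ⟨fun a b h => Psi_injective k (congrArg Subtype.val h), fun y => by
      obtain ⟨p, hp⟩ := Psi_surj y.1 ⟨y.2.2, y.2.1⟩
      exact ⟨p, Subtype.ext hp⟩⟩
  obtain ⟨h, hh⟩ := ext_hom (R2 k) (R1 k) hadd (E P)
    (fun h0 => hP0 (Psi_injective k (by rw [map_zero]; exact h0))) hP
  let e : (↥(R2 k ⊓ R1 k) ⧸ Ideal.span {E P}) ≃+* (Polynomial (LaurentSeries k) ⧸ Ideal.span {P}) :=
    (Ideal.quotientEquiv (Ideal.span {P}) (Ideal.span {E P}) E (by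
      rw [Ideal.map_span, Set.image_singleton]; rfl)).symm
  refine ⟨(e.toRingHom).comp h, fun x => ?_⟩
  have h1 := hh (E x)
  have h2 : h ⟨Psi k x, (Psi_mem x).2⟩ = Ideal.Quotient.mk _ (E x) := h1
  rw [RingHom.comp_apply, h2]
  show e _ = _
  rw [RingEquiv.symm_apply_eq, Ideal.quotientEquiv_mk]

end Pool.Agent.PatchGL
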