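import Pool.Agent.PGL.HQ
import Pool.Agent.PGL.Ext

namespace Pool.Agent.PatchGL

open Finset

section lau

variable {R T : Type*} [CommRing R] [CommRing T]

/-- extension of a ring homomorphism from power series to Laurent series -/
noncomputable def lauLift (E : PowerSeries R →+* T) (hX : IsUnit (E PowerSeries.X)) : LaurentSeries R →+* T :=
  IsLocalization.Away.lift (S := LaurentSeries R) (PowerSeries.X : PowerSeries R) hX

theorem lauLift_ps (E : PowerSeries R →+* T) (hX : IsUnit (E PowerSeries.X)) (f : PowerSeries R) :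
    lauLift E hX (HahnSeries.ofPowerSeries ℤ R f) = E f :=
  IsLocalization.Away.lift_eq (S := LaurentSeries R) (PowerSeries.X : PowerSeries R) hX f

theorem lau_ext (E E' : LaurentSeries R →+* T)
    (h : ∀ f : PowerSeries R, E (HahnSeries.ofPowerSeries ℤ R f) = E' (HahnSeries.ofPowerSeries ℤ R f)) : E = E' := by
  refine IsLocalization.ringHom_ext (Submonoid.powers (PowerSeries.X : PowerSeries R)) ?_
  ext f
  exact h f

end lau

section basic

variable (k : Type*) [Field k]

/-- the constants `K = k((s))` of `Q = k((σ))((s))` -/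
noncomputable def kap : LaurentSeries k →+* LaurentSeries (LaurentSeries k) := mapHom HahnSeries.C

/-- the variable `s` -/
noncomputable def sQ : LaurentSeries (LaurentSeries k) := HahnSeries.single 1 1

/-- the variable `Y = 1/σ` -/
noncomputable def YQ : LaurentSeries (LaurentSeries k) := HahnSeries.C (HahnSeries.single (-1) 1)

theorem kap_s : kap k (HahnSeries.single 1 1) = sQ k := by
  ext1
  funext m
  rw [kap, mapHom_coeff, sQ, HahnSeries.coeff_single, HahnSeries.coeff_single]
  split_ifs <;> simp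

theorem kap_single (m : ℤ) (a : k) : kap k (HahnSeries.single m a) = HahnSeries.single m (HahnSeries.C a) := by
  ext1
  funext j
  rw [kap, mapHom_coeff, HahnSeries.coeff_single, HahnSeries.coeff_single]
  split_ifs <;> simp

theorem sQ_ne_zero : sQ k ≠ 0 := by
  rw [sQ, Ne, HahnSeries.single_eq_zero_iff]; exact one_ne_zero

theorem YQ_ne_zero : YQ k ≠ 0 := by
  rw [YQ, HahnSeries.C_apply, Ne, HahnSeries.single_eq_zero_iff, HahnSeries.single_eq_zero_iff]
  exact one_ne_zero

/-- `K[z] → Q`, `z ↦ s Y` -/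
noncomputable def jK : Polynomial (LaurentSeries k) →+* LaurentSeries (LaurentSeries k) :=
  Polynomial.eval₂RingHom (kap k) (sQ k * YQ k)

/-- the scaling `K[z] → K[Y]`, `z ↦ s Y` -/
noncomputable def scal : Polynomial (LaurentSeries k) ≃+* Polynomial (LaurentSeries k) :=
  RingEquiv.ofRingHom
    (Polynomial.eval₂RingHom Polynomial.C (Polynomial.C (HahnSeries.single 1 1) * Polynomial.X))
    (Polynomial.eval₂RingHom Polynomial.C (Polynomial.C (HahnSeries.single (-1) 1) * Polynomial.X))
    (by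
      apply Polynomial.ringHom_ext
      · intro a; simp
      · simp [← mul_assoc, ← map_mul, HahnSeries.single_mul_single])
    (by
      apply Polynomial.ringHom_ext
      · intro a; simp
      · simp [← mul_assoc, ← map_mul, HahnSeries.single_mul_single])

theorem jK_eq (f : Polynomial (LaurentSeries k)) : jK k f = Psi k (scal k f) := by
  have : jK k = (Psi k).comp (scal k : _ →+* _) := by
    apply Polynomial.ringHom_ext
    · intro a
      simp [jK, scal, Psi, kap]
    · simp only [jK, scal, Psi, RingHom.comp_apply, Polynomial.coe_eval₂RingHom, Polynomial.eval₂_X]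
      show sQ k * YQ k = Polynomial.eval₂ _ _ (Polynomial.eval₂ _ _ Polynomial.X)
      rw [Polynomial.eval₂_X, Polynomial.eval₂_mul, Polynomial.eval₂_C, Polynomial.eval₂_X]
      rw [← kap_s k]
      rfl
  rw [this]; rfl

theorem jK_injective : Function.Injective (jK k) := by
  intro a b h
  rw [jK_eq, jK_eq] at h
  exact (scal k).injective (Psi_injective k h)

theorem jK_mem (f : Polynomial (LaurentSeries k)) : jK k f ∈ R1 k ⊓ R2 k := by
  rw [jK_eq]; exact Psi_mem _

theorem jK_surj (x : LaurentSeries (LaurentSeries k)) (hx : x ∈ R1 k ⊓ R2 k) : ∃ f, jK k f = x := by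
  obtain ⟨p, hp⟩ := Psi_surj x hx
  exact ⟨(scal k).symm p, by rw [jK_eq, RingEquiv.apply_symm_apply, hp]⟩

/-- an irreducible polynomial of `K[z]` is a unit of `R1` or of `R2` -/
theorem dich_z (P : Polynomial (LaurentSeries k)) (hP : Irreducible P) :
    (jK k P)⁻¹ ∈ R1 k ∨ (jK k P)⁻¹ ∈ R2 k := by
  rw [jK_eq]
  exact dich_K _ ((MulEquiv.irreducible_iff (scal k).toMulEquiv).mpr hP)

theorem quot_scal (P : Polynomial (LaurentSeries k)) :
    Nonempty {e : (Polynomial (LaurentSeries k) ⧸ Ideal.span {scal k P}) ≃+* (Polynomial (LaurentSeries k) ⧸ Ideal.span {P}) //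
      ∀ x, e (Ideal.Quotient.mk _ (scal k x)) = Ideal.Quotient.mk _ x} := by
  have e := (Ideal.quotientEquiv (Ideal.span {P}) (Ideal.span {scal k P}) (scal k) (by
      rw [Ideal.map_span, Set.image_singleton]; rfl)).symm
  refine ⟨⟨(Ideal.quotientEquiv (Ideal.span {P}) (Ideal.span {scal k P}) (scal k) (by
      rw [Ideal.map_span, Set.image_singleton]; rfl)).symm, fun x => ?_⟩⟩
  rw [RingEquiv.symm_apply_eq, Ideal.quotientEquiv_mk]

/-- the projection `K[z] → K[z]/(P)` extends to `R1` if `P` is a unit of `R2` -/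
theorem ext_z1 (P : Polynomial (LaurentSeries k)) (hP0 : P ≠ 0) (hP : (jK k P)⁻¹ ∈ R2 k) :
    ∃ h : R1 k →+* (Polynomial (LaurentSeries k) ⧸ Ideal.span {P}),
      ∀ x, h ⟨jK k x, (jK_mem k x).1⟩ = Ideal.Quotient.mk _ x := by
  rw [jK_eq] at hP
  obtain ⟨h, hh⟩ := ext_R1 (scal k P) (fun h0 => hP0 ((scal k).injective (by rw [h0, map_zero]))) hP
  obtain ⟨e, he⟩ := quot_scal k P
  refine ⟨(e.toRingHom).comp h, fun x => ?_⟩
  have h1 := hh (scal k x)
  have h2 : (⟨jK k x, (jK_mem k x).1⟩ : R1 k) = ⟨Psi k (scal k x), (Psi_mem _).1⟩ := Subtype.ext (jK_eq k x)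
  rw [RingHom.comp_apply, h2, h1]
  exact he x

/-- the projection `K[z] → K[z]/(P)` extends to `R2` if `P` is a unit of `R1` -/
theorem ext_z2 (P : Polynomial (LaurentSeries k)) (hP0 : P ≠ 0) (hP : (jK k P)⁻¹ ∈ R1 k) :
    ∃ h : R2 k →+* (Polynomial (LaurentSeries k) ⧸ Ideal.span {P}),
      ∀ x, h ⟨jK k x, (jK_mem k x).2⟩ = Ideal.Quotient.mk _ x := by
  rw [jK_eq] at hP
  obtain ⟨h, hh⟩ := ext_R2 (scal k P) (fun h0 => hP0 ((scal k).injective (by rw [h0, map_zero]))) hP
  obtain ⟨e, he⟩ := quot_scal k P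
  refine ⟨(e.toRingHom).comp h, fun x => ?_⟩
  have h1 := hh (scal k x)
  have h2 : (⟨jK k x, (jK_mem k x).2⟩ : R2 k) = ⟨Psi k (scal k x), (Psi_mem _).2⟩ := Subtype.ext (jK_eq k x)
  rw [RingHom.comp_apply, h2, h1]
  exact he x

end basic

end Pool.Agent.PatchGL
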