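import Pool.Agent.PGL.Factor

namespace Pool.Agent.PatchGL

open Finset

variable {n : Type*} [Fintype n] [DecidableEq n]

/-- `k[Y, 1/Y]` in `k((σ))`, `σ = 1/Y` -/
def lpoly (k : Type*) [Field k] : Subring (LaurentSeries k) where
  carrier := {a | ∃ N : ℤ, ∀ j, N < j → a.coeff j = 0}
  mul_mem' := by
    rintro a b ⟨N, ha⟩ ⟨N', hb⟩
    refine ⟨N + N', fun j hj => ?_⟩
    rw [HahnSeries.coeff_mul]
    refine Finset.sum_eq_zero fun y hy => ?_
    have hy' := (Finset.mem_antidiagonal.mp hy).2.2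
    rcases lt_or_ge N y.1 with h | h
    · rw [ha _ h, zero_mul]
    · rw [hb _ (by omega), mul_zero]
  one_mem' := ⟨0, fun j hj => by rw [HahnSeries.coeff_one, if_neg (ne_of_gt hj)]⟩
  add_mem' := by
    rintro a b ⟨N, ha⟩ ⟨N', hb⟩
    refine ⟨max N N', fun j hj => ?_⟩
    rw [HahnSeries.coeff_add, ha j (lt_of_le_of_lt (le_max_left _ _) hj),
      hb j (lt_of_le_of_lt (le_max_right _ _) hj), add_zero]
  zero_mem' := ⟨0, fun j _ => HahnSeries.coeff_zero⟩
  neg_mem' := by
    rintro a ⟨N, ha⟩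
    exact ⟨N, fun j hj => by rw [HahnSeries.coeff_neg, ha j hj, neg_zero]⟩

/-- `k[1/Y]` in `k((σ))` -/
noncomputable def polyS (k : Type*) [Field k] : Subring (LaurentSeries k) := powPart k ⊓ lpoly k

theorem polyPart_le (k : Type*) [Field k] : polyPart k ≤ lpoly k := fun _ ha => ⟨0, ha⟩

theorem polyS_le (k : Type*) [Field k] : polyS k ≤ lpoly k := inf_le_right

theorem lpoly_add {k : Type*} [Field k] (a : LaurentSeries k) (ha : a ∈ lpoly k) :
    ∃ b ∈ polyPart k, ∃ c ∈ polyS k, a = b + c := by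
  obtain ⟨b, hb, c, hc, h⟩ := poly_add_pow a
  refine ⟨b, hb, c, ⟨hc, ?_⟩, h⟩
  have : c = a - b := by rw [h]; ring
  rw [this]
  exact Subring.sub_mem _ ha (polyPart_le k hb)

/-- Cartan's lemma relative to a subring `A0` of the coefficient ring -/
theorem cartan_rel {A : Type*} [CommRing A] (A0 A1 A2 : Subring A) (h1 : A1 ≤ A0) (h2 : A2 ≤ A0)
    (hA : ∀ a ∈ A0, ∃ b ∈ A1, ∃ c ∈ A2, a = b + c)
    (B : Matrix n n (PowerSeries A)) (hB0 : ∀ i j m, PowerSeries.coeff m (B i j) ∈ A0) (hB : cM 0 B = 1) :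
    ∃ B1 B2 : Matrix n n (PowerSeries A), B = B1 * B2 ∧
      (∀ i j m, PowerSeries.coeff m (B1 i j) ∈ A1) ∧
      (∀ i j m, PowerSeries.coeff m (B2 i j) ∈ A2) ∧ cM 0 B1 = 1 ∧ cM 0 B2 = 1 := by
  choose g hg using fun i j => lift_ps A0 (B i j) (hB0 i j)
  let G : Matrix n n (PowerSeries A0) := Matrix.of g
  have hG : G.map (PowerSeries.map A0.subtype) = B := by ext1 i j; exact hg i j
  have hG0 : cM 0 G = 1 := by
    ext i j
    have h7 := congrFun (congrFun hB i) j
    rw [cM, ← hG] at h7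
    simp only [Matrix.map_apply, PowerSeries.coeff_map] at h7
    have h8 : (((1 : Matrix n n A0) i j : A0) : A) = (1 : Matrix n n A) i j := by
      rw [Matrix.one_apply, Matrix.one_apply]; split_ifs <;> simp
    rw [h8, ← h7]
    rfl
  obtain ⟨B1, B2, e1, e2, e3, e4, e5⟩ := cartan (A1.comap A0.subtype) (A2.comap A0.subtype) (by
    rintro ⟨a, ha⟩
    obtain ⟨b, hb, c, hc, h⟩ := hA a ha
    exact ⟨⟨b, h1 hb⟩, hb, ⟨c, h2 hc⟩, hc, Subtype.ext h⟩) G hG0
  have hone : ∀ X : Matrix n n (PowerSeries A0), cM 0 X = 1 → cM 0 (X.map (PowerSeries.map A0.subtype)) = 1 := by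
    intro X hX
    ext i j
    have h7 := congrFun (congrFun hX i) j
    rw [cM] at h7
    show PowerSeries.coeff 0 ((X.map (PowerSeries.map A0.subtype)) i j) = _
    rw [Matrix.map_apply, PowerSeries.coeff_map, h7, Matrix.one_apply, Matrix.one_apply]
    split_ifs <;> simp
  refine ⟨B1.map (PowerSeries.map A0.subtype), B2.map (PowerSeries.map A0.subtype), ?_, ?_, ?_, hone _ e4, hone _ e5⟩
  · rw [← hG, e1, Matrix.map_mul]
  · intro i j m
    rw [Matrix.map_apply, PowerSeries.coeff_map]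
    exact e2 i j m
  · intro i j m
    rw [Matrix.map_apply, PowerSeries.coeff_map]
    exact e3 i j m

theorem mulVec_coeff_mem {A : Type*} [CommRing A] (A0 : Subring A) (B : Matrix n n (PowerSeries A))
    (hB : ∀ i j m, PowerSeries.coeff m (B i j) ∈ A0) (e : n → A) (he : ∀ i, e i ∈ A0) (i : n) (m : ℕ) :
    PowerSeries.coeff m (B.mulVec (fun i => PowerSeries.C (e i)) i) ∈ A0 := by
  rw [Matrix.mulVec, dotProduct, map_sum]
  refine Subring.sum_mem _ fun l _ => ?_
  rw [PowerSeries.coeff_mul_C]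
  exact A0.mul_mem (hB i l m) (he l)

theorem mulVec_coeff_zero {A : Type*} [CommRing A] (B : Matrix n n (PowerSeries A)) (hB : cM 0 B = 1) (e : n → A) (i : n) :
    PowerSeries.coeff 0 (B.mulVec (fun i => PowerSeries.C (e i)) i) = e i := by
  rw [Matrix.mulVec, dotProduct, map_sum]
  have : ∀ l, PowerSeries.coeff 0 (B i l * PowerSeries.C (e l)) = (1 : Matrix n n A) i l * e l := by
    intro l
    rw [PowerSeries.coeff_mul_C, ← hB]
    rfl
  simp_rw [this]
  simp [Matrix.one_apply]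

/-- [L1] -/
theorem L1 {k : Type*} [Field k] (M : Matrix n n (PowerSeries (LaurentSeries k)))
    (hM : ∀ i j m, PowerSeries.coeff m (M i j) ∈ lpoly k) (h0 : cM 0 M = 1) (e : n → k) :
    ∃ al be : n → PowerSeries (LaurentSeries k),
      (∀ i m, PowerSeries.coeff m (al i) ∈ polyPart k) ∧ (∀ i m, PowerSeries.coeff m (be i) ∈ polyS k) ∧
      (∀ i, PowerSeries.coeff 0 (al i) = HahnSeries.C (e i)) ∧ (∀ i, PowerSeries.coeff 0 (be i) = HahnSeries.C (e i)) ∧
      M.mulVec al = be := by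
  obtain ⟨B1, B2, h1, h2, h3, h4, h5⟩ := cartan_rel (lpoly k) (polyS k) (polyPart k) (polyS_le k) (polyPart_le k)
    (fun a ha => by
      obtain ⟨b, hb, c, hc, h⟩ := lpoly_add a ha
      exact ⟨c, hc, b, hb, by rw [h, add_comm]⟩) M hM h0
  obtain ⟨C2, k1, k2, k3⟩ := ps_inv (polyPart k) B2 h3 h5
  have hC0 : cM 0 C2 = 1 := by
    have h6 : (B2 * C2).map (PowerSeries.constantCoeff (R := LaurentSeries k)) = 1 := by
      rw [k2]
      ext1 i j
      by_cases hij : i = j
      · subst hij; simp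
      · simp [hij]
    rw [Matrix.map_mul] at h6
    have h7 : B2.map (PowerSeries.constantCoeff (R := LaurentSeries k)) = 1 := by
      rw [← h5]; ext1 i j; simp [cM]
    rw [h7, Matrix.one_mul] at h6
    rw [← h6]; ext1 i j; simp [cM]
  have hCk : ∀ a : k, (HahnSeries.C a : LaurentSeries k) ∈ polyPart k ∧ (HahnSeries.C a : LaurentSeries k) ∈ polyS k := by
    intro a
    have h : ∀ j : ℤ, j ≠ 0 → (HahnSeries.C a : LaurentSeries k).coeff j = 0 := by
      intro j hj
      rw [HahnSeries.C_apply, HahnSeries.coeff_single, if_neg hj]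
    exact ⟨fun j hj => h j (ne_of_gt hj), fun j hj => h j (ne_of_lt hj), 0, fun j hj => h j (ne_of_gt hj)⟩
  refine ⟨C2.mulVec (fun i => PowerSeries.C (HahnSeries.C (e i))), B1.mulVec (fun i => PowerSeries.C (HahnSeries.C (e i))),
    fun i m => mulVec_coeff_mem _ _ k1 (fun i => HahnSeries.C (e i)) (fun i => (hCk _).1) i m,
    fun i m => mulVec_coeff_mem _ _ h2 (fun i => HahnSeries.C (e i)) (fun i => (hCk _).2) i m,
    fun i => mulVec_coeff_zero _ hC0 (fun i => HahnSeries.C (e i)) i,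
    fun i => mulVec_coeff_zero _ h4 (fun i => HahnSeries.C (e i)) i, ?_⟩
  rw [Matrix.mulVec_mulVec, h1, Matrix.mul_assoc, k2, Matrix.mul_one]

end Pool.Agent.PatchGL
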