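import Pool.Agent.PGL.Homs

namespace Pool.Agent.PatchGL

open Finset

variable (k : Type*) [Field k] (p : ℕ) [Fact p.Prime]

/-- `v = (z^p - z) / s^2` in `K[z]` -/
noncomputable def vK : Polynomial (LaurentSeries k) :=
  Polynomial.C (HahnSeries.single (-2) 1) * (Polynomial.X ^ p - Polynomial.X)

theorem jK_X : jK k Polynomial.X = sQ k * YQ k := by simp [jK]

theorem jK_C (a : LaurentSeries k) : jK k (Polynomial.C a) = kap k a := by simp [jK]

theorem kap_neg (m : ℤ) : kap k (HahnSeries.single m 1) = sQ k ^ m := by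
  rw [kap_single, sQ, map_one]
  have h := RatFunc.single_zpow (F := LaurentSeries k) m
  rw [← h]

theorem jK_vK : jK k (vK k p) = - ((sQ k)⁻¹ * YQ k) * (1 - sQ k ^ (p - 1) * YQ k ^ (p - 1)) := by
  have hp := (Fact.out : p.Prime).two_le
  obtain ⟨d, rfl⟩ : ∃ d, p = d + 1 := ⟨p - 1, by omega⟩
  rw [vK, map_mul, map_sub, map_pow, jK_X, jK_C, kap_neg]
  have hs := sQ_ne_zero k
  simp only [Nat.add_sub_cancel]
  have h2 : sQ k ^ (-2 : ℤ) = (sQ k)⁻¹ * (sQ k)⁻¹ := by
    rw [zpow_neg, ← mul_inv]; congr 1; norm_cast; ring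
  rw [h2]
  field_simp
  ring

theorem exists_w : ∃ w : PowerSeries (LaurentSeries k), PowerSeries.X ∣ w ∧
    (∀ m, PowerSeries.coeff m w ∈ lpoly k) ∧ jK k (vK k p) * HahnSeries.ofPowerSeries ℤ _ w = 1 := by
  have hp := (Fact.out : p.Prime).two_le
  let Y : LaurentSeries k := HahnSeries.single (-1) 1
  let σ : LaurentSeries k := HahnSeries.single 1 1
  have hY : Y ∈ polyPart k := by
    intro j hj
    show (HahnSeries.single (-1) (1 : k)).coeff j = 0
    rw [HahnSeries.coeff_single, if_neg (by omega)]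
  have hσ : σ ∈ lpoly k := ⟨1, by
    intro j hj
    show (HahnSeries.single 1 (1 : k)).coeff j = 0
    rw [HahnSeries.coeff_single, if_neg (by omega)]⟩
  let q : PowerSeries (LaurentSeries k) := 1 - PowerSeries.X ^ (p - 1) * PowerSeries.C (Y ^ (p - 1))
  have hq : ∀ m, PowerSeries.coeff m q ∈ polyPart k := by
    intro m
    simp only [q]
    rw [map_sub, PowerSeries.coeff_one, PowerSeries.coeff_mul_C, PowerSeries.coeff_X_pow]
    refine Subring.sub_mem _ ?_ (Subring.mul_mem _ ?_ (Subring.pow_mem _ hY _))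
    · split_ifs
      · exact Subring.one_mem _
      · exact Subring.zero_mem _
    · split_ifs
      · exact Subring.one_mem _
      · exact Subring.zero_mem _
  have hq0 : cM 0 (Matrix.of fun _ _ => q : Matrix Unit Unit (PowerSeries (LaurentSeries k))) = 1 := by
    ext1 i j
    show PowerSeries.coeff 0 q = _
    simp only [q]
    rw [map_sub, PowerSeries.coeff_mul_C, PowerSeries.coeff_X_pow, if_neg (by omega)]
    simp
  obtain ⟨C, h1, h2, _⟩ := ps_inv (polyPart k) (Matrix.of fun _ _ => q : Matrix Unit Unit (PowerSeries (LaurentSeries k))) (fun _ _ m => hq m) hq0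
  have h3 : q * C () () = 1 := by
    have := congrFun (congrFun h2 ()) ()
    rw [Matrix.mul_apply] at this
    simpa using this
  refine ⟨- (PowerSeries.X * PowerSeries.C σ * C () ()), ?_, ?_, ?_⟩
  · rw [dvd_neg, mul_assoc]; exact dvd_mul_right _ _
  · have hX : ∀ m, PowerSeries.coeff m (PowerSeries.X * PowerSeries.C σ : PowerSeries (LaurentSeries k)) ∈ lpoly k := by
      intro m
      rw [PowerSeries.coeff_mul_C, PowerSeries.coeff_X]
      refine Subring.mul_mem _ ?_ hσ
      split_ifs
      · exact Subring.one_mem _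
      · exact Subring.zero_mem _
    intro m
    rw [map_neg]
    refine Subring.neg_mem _ ?_
    rw [PowerSeries.coeff_mul]
    exact Subring.sum_mem _ fun x _ => Subring.mul_mem _ (hX _) (polyPart_le k (h1 () () _))
  · have hs := sQ_ne_zero k
    have hYQ := YQ_ne_zero k
    have e1 : HahnSeries.ofPowerSeries ℤ (LaurentSeries k) q = 1 - sQ k ^ (p - 1) * YQ k ^ (p - 1) := by
      simp only [q]
      rw [map_sub, map_one, map_mul, map_pow, HahnSeries.ofPowerSeries_X, HahnSeries.ofPowerSeries_C, map_pow]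
      rfl
    have e2 : (HahnSeries.C σ : LaurentSeries (LaurentSeries k)) = (YQ k)⁻¹ := by
      refine eq_inv_of_mul_eq_one_left ?_
      rw [YQ, ← map_mul, HahnSeries.single_mul_single]
      simp
    rw [jK_vK, ← e1, map_neg, map_mul, map_mul, HahnSeries.ofPowerSeries_X, HahnSeries.ofPowerSeries_C, e2]
    have e4 : HahnSeries.ofPowerSeries ℤ (LaurentSeries k) q * HahnSeries.ofPowerSeries ℤ (LaurentSeries k) (C () ()) = 1 := by
      rw [← map_mul, h3, map_one]
    have e5 : (HahnSeries.single 1 (1 : LaurentSeries k)) = sQ k := rfl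
    rw [e5]
    calc - ((sQ k)⁻¹ * YQ k) * HahnSeries.ofPowerSeries ℤ (LaurentSeries k) q *
          -(sQ k * (YQ k)⁻¹ * HahnSeries.ofPowerSeries ℤ (LaurentSeries k) (C () ()))
        = ((sQ k)⁻¹ * sQ k) * (YQ k * (YQ k)⁻¹) * (HahnSeries.ofPowerSeries ℤ (LaurentSeries k) q *
            HahnSeries.ofPowerSeries ℤ (LaurentSeries k) (C () ())) := by ring
      _ = 1 := by rw [e4, inv_mul_cancel₀ hs, mul_inv_cancel₀ hYQ]; ring

/-- the power series of `w = 1/v` -/
noncomputable def wt : PowerSeries (LaurentSeries k) := (exists_w k p).choose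

theorem wt_dvd : PowerSeries.X ∣ wt k p := (exists_w k p).choose_spec.1

theorem wt_mem (m : ℕ) : PowerSeries.coeff m (wt k p) ∈ lpoly k := (exists_w k p).choose_spec.2.1 m

theorem wt_mul : jK k (vK k p) * HahnSeries.ofPowerSeries ℤ _ (wt k p) = 1 := (exists_w k p).choose_spec.2.2

/-- `k[[w]] → k[Y,1/Y][[s]]` -/
noncomputable def Phi0 : PowerSeries k →+* PowerSeries (LaurentSeries k) :=
  extE (Polynomial.eval₂RingHom ((PowerSeries.C : LaurentSeries k →+* PowerSeries (LaurentSeries k)).comp HahnSeries.C) (wt k p))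
    (by rw [Polynomial.coe_eval₂RingHom, Polynomial.eval₂_X]; exact wt_dvd k p)

theorem Phi0_mem (f : PowerSeries k) (m : ℕ) : PowerSeries.coeff m (Phi0 k p f) ∈ lpoly k := by
  refine extE_mem _ _ (lpoly k) ?_ f m
  intro g m
  induction g using Polynomial.induction_on' generalizing m with
  | add a b ha hb => rw [map_add, map_add]; exact Subring.add_mem _ (ha m) (hb m)
  | monomial i a =>
    rw [Polynomial.coe_eval₂RingHom, Polynomial.eval₂_monomial, RingHom.comp_apply, PowerSeries.coeff_C_mul]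
    refine Subring.mul_mem _ ⟨0, fun j hj => ?_⟩ ?_
    · rw [HahnSeries.C_apply, HahnSeries.coeff_single, if_neg (ne_of_gt hj)]
    · have : ∀ i m, PowerSeries.coeff m (wt k p ^ i) ∈ lpoly k := by
        intro i
        induction i with
        | zero =>
          intro m
          rw [pow_zero, PowerSeries.coeff_one]
          split_ifs
          · exact Subring.one_mem _
          · exact Subring.zero_mem _
        | succ i ih =>
          intro m
          rw [pow_succ, PowerSeries.coeff_mul]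
          exact Subring.sum_mem _ fun x _ => Subring.mul_mem _ (ih _) (wt_mem k p _)
      exact this i m

theorem Phi0_X : Phi0 k p PowerSeries.X = wt k p := by
  rw [Phi0, extE_X, Polynomial.coe_eval₂RingHom, Polynomial.eval₂_X]

theorem Phi0_C (a : k) : Phi0 k p (PowerSeries.C a) = PowerSeries.C (HahnSeries.C a) := by
  rw [Phi0, extE_C, Polynomial.coe_eval₂RingHom, Polynomial.eval₂_C]
  rfl

/-- `Phi0` preserves constant terms -/
theorem Phi0_zero (f : PowerSeries k) : PowerSeries.coeff 0 (Phi0 k p f) = HahnSeries.C (PowerSeries.coeff 0 f) := by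
  rw [Phi0, extE_coeff _ _ f (Nat.lt_succ_self 0)]
  have h1 : PowerSeries.trunc (Nat.succ 0) f = Polynomial.C (PowerSeries.coeff 0 f) := by
    ext i
    rw [PowerSeries.coeff_trunc, Polynomial.coeff_C]
    split_ifs with h h' h'
    · rw [h']
    · omega
    · omega
    · rfl
  rw [h1, Polynomial.coe_eval₂RingHom, Polynomial.eval₂_C]
  simp

/-- `k((w)) → Q` -/
noncomputable def Phi : LaurentSeries k →+* LaurentSeries (LaurentSeries k) :=
  lauLift ((HahnSeries.ofPowerSeries ℤ (LaurentSeries k)).comp (Phi0 k p)) (by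
    rw [RingHom.comp_apply, Phi0_X]
    exact IsUnit.of_mul_eq_one _ (by rw [mul_comm]; exact wt_mul k p))

theorem Phi_ps (f : PowerSeries k) : Phi k p (HahnSeries.ofPowerSeries ℤ k f) = HahnSeries.ofPowerSeries ℤ _ (Phi0 k p f) := by
  rw [Phi, lauLift_ps]; rfl

theorem Phi_winv : Phi k p (HahnSeries.single (-1) 1) = jK k (vK k p) := by
  have h1 : (HahnSeries.single (-1) 1 : LaurentSeries k) * HahnSeries.ofPowerSeries ℤ k PowerSeries.X = 1 := by
    rw [HahnSeries.ofPowerSeries_X, HahnSeries.single_mul_single]; simp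
  have h2 : Phi k p (HahnSeries.single (-1) 1) * HahnSeries.ofPowerSeries ℤ _ (wt k p) = 1 := by
    rw [← Phi0_X, ← Phi_ps, ← map_mul, h1, map_one]
  have h3 := wt_mul k p
  have h4 : HahnSeries.ofPowerSeries ℤ _ (wt k p) ≠ 0 := right_ne_zero_of_mul_eq_one h3
  exact mul_right_cancel₀ h4 (h2.trans h3.symm)

theorem Phi_C (a : k) : Phi k p (HahnSeries.C a) = kap k (HahnSeries.C a) := by
  have h1 : (HahnSeries.C a : LaurentSeries k) = HahnSeries.ofPowerSeries ℤ k (PowerSeries.C a) := by
    rw [HahnSeries.ofPowerSeries_C]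
  rw [h1, Phi_ps, Phi0_C, HahnSeries.ofPowerSeries_C, HahnSeries.ofPowerSeries_C, HahnSeries.C_apply (a := a) (Γ := ℤ)]
  rw [kap_single]
  rfl

end Pool.Agent.PatchGL
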